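import Mathlib

set_option autoImplicit false

namespace SoftPoly
open scoped ENNReal BigOperators
open Filter Topology

/-- step of a walk -/
def stp (b : Bool) : ℤ := if b then 1 else -1

/-- list of visited positions of the walk with step list `l` started at `x` (length `l.length + 1`) -/
def pos : ℤ → List Bool → List ℤ
  | x, [] => [x]
  | x, b :: l => x :: pos (x + stp b) l

/-- end point of the walk with step list `l` started at `x` -/
def endp (x : ℤ) (l : List Bool) : ℤ := x + (l.map stp).sum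

/-- sum of the squares of the multiplicities = number of ordered pairs of equal entries -/
def HH (P : List ℤ) : ℕ := (P.map (fun z => P.count z)).sum

/-- number of pairs (entry of `P`, entry of `Q`) which are equal -/
def XX (P Q : List ℤ) : ℕ := (P.map (fun z => Q.count z)).sum

/-- weight of a walk (started at 0) in the total generating function -/
noncomputable def wt (r β s : ℝ) (l : List Bool) : ℝ≥0∞ :=
  ENNReal.ofReal (Real.exp (r * ((l.length : ℝ) + 1) - β * (HH (pos 0 l) : ℝ)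
    + s * |((endp 0 l : ℤ) : ℝ)|))

/-- weight of a half-space walk (started at 0) -/
noncomputable def hw (r β s : ℝ) (l : List Bool) : ℝ≥0∞ :=
  ENNReal.ofReal (Real.exp (r * ((l.length : ℝ) + 1) - β * (HH (pos 0 l) : ℝ)
    + s * ((endp 0 l : ℤ) : ℝ)))

/-- generating function of half-space walks staying in `{0,…,K-1}` -/
noncomputable def halfK (r β s : ℝ) (K : ℕ) : ℝ≥0∞ :=
  ∑' l : List Bool, if (∀ p ∈ pos 0 l, 0 ≤ p ∧ p < (K : ℤ)) then hw r β s l else 0

/-- generating function of all half-space walks -/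
noncomputable def half (r β s : ℝ) : ℝ≥0∞ :=
  ∑' l : List Bool, if (∀ p ∈ pos 0 l, 0 ≤ p) then hw r β s l else 0

/-- generating function of bridges on the sites `{0,…,K-1}` -/
noncomputable def bridge (r β : ℝ) (K : ℕ) : ℝ≥0∞ :=
  ∑' l : List Bool, if (∀ p ∈ pos 0 l, 0 ≤ p ∧ p < (K : ℤ)) ∧ endp 0 l = (K : ℤ) - 1 then
    ENNReal.ofReal (Real.exp (r * ((l.length : ℝ) + 1) - β * (HH (pos 0 l) : ℝ))) else 0

/-- generating function of all walks -/
noncomputable def total (r β s : ℝ) : ℝ≥0∞ := ∑' l : List Bool, wt r β s l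

/-- the Hamiltonian in the form of the frozen statement -/
def Hn (n : ℕ) (ω : Fin n → Bool) : ℕ :=
  (Finset.univ.filter (fun p : Fin (n+1) × Fin (n+1) =>
    (∑ i ∈ Finset.univ.filter (fun i : Fin n => (i:ℕ) < (p.1:ℕ)),
        (if ω i then (1:ℤ) else -1)) =
    (∑ i ∈ Finset.univ.filter (fun i : Fin n => (i:ℕ) < (p.2:ℕ)),
        (if ω i then (1:ℤ) else -1)))).card

/-- end point in the form of the frozen statement -/
noncomputable def Sn (n : ℕ) (ω : Fin n → Bool) : ℝ := ∑ i : Fin n, (if ω i then (1:ℝ) else -1)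

/-- tilted partition function -/
noncomputable def Zn (n : ℕ) (β s : ℝ) : ℝ :=
  ∑ ω : Fin n → Bool, Real.exp (-β * (Hn n ω : ℝ) + s * |Sn n ω|)

/-- the hypothesis of the frozen statement at one `β`, with value `θ` -/
def Speed (β θ : ℝ) : Prop :=
  ∀ ε : ℝ, 0 < ε → Tendsto (fun n : ℕ =>
    (∑ ω ∈ Finset.univ.filter (fun ω : Fin n → Bool => ε < |(|Sn n ω| / (n:ℝ)) - θ|),
      Real.exp (-β * (Hn n ω : ℝ))) /
    (∑ ω : Fin n → Bool, Real.exp (-β * (Hn n ω : ℝ)))) atTop (𝓝 0)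

/-- the kernel (0-based indices, local time `i+j+1`) -/
noncomputable def aE (r β : ℝ) (i j : ℕ) : ℝ :=
  (Nat.choose (i + j) i : ℝ) *
    Real.exp (r * ((i : ℝ) + j + 1) - β * ((i : ℝ) + j + 1) ^ 2)

/-- entries `(0,j)` of the powers of the infinite kernel: `TT K j = (a^(K+1))_{0 j}` -/
noncomputable def TT (r β : ℝ) : ℕ → ℕ → ℝ≥0∞
  | 0, j => ENNReal.ofReal (aE r β 0 j)
  | (K + 1), j => ∑' i : ℕ, TT r β K i * ENNReal.ofReal (aE r β i j)

/-- the truncated matrix (size `M+1`) -/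
noncomputable def AM (r β : ℝ) (M : ℕ) : Matrix (Fin (M+1)) (Fin (M+1)) ℝ :=
  Matrix.of fun i j => aE r β i j

/-- Perron eigenpair of a matrix -/
structure IsPF {M : ℕ} (A : Matrix (Fin (M+1)) (Fin (M+1)) ℝ) (lam : ℝ)
    (x : Fin (M+1) → ℝ) : Prop where
  lpos : 0 < lam
  xpos : ∀ i, 0 < x i
  norm : ∑ i, x i ^ 2 = 1
  eig : ∀ i, ∑ j, A i j * x j = lam * x i
  ray : ∀ z : Fin (M+1) → ℝ, ∑ i, ∑ j, z i * A i j * z j ≤ lam * ∑ i, z i ^ 2
  conv : ∀ v : Fin (M+1) → ℝ, (∀ i, 0 < v i) → ∀ i j,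
    Tendsto (fun m : ℕ => (A ^ m).mulVec v i / (A ^ m).mulVec v j) atTop (𝓝 (x i / x j))

open Classical in
/-- the Perron eigenpair of `AM r β M` -/
noncomputable def pf (r β : ℝ) (M : ℕ) : ℝ × (Fin (M+1) → ℝ) :=
  if h : ∃ p : ℝ × (Fin (M+1) → ℝ), IsPF (AM r β M) p.1 p.2 then h.choose else (1, fun _ => 1)

/-- Perron eigenvalue, its logarithm, and Perron eigenvector -/
noncomputable def lam (r β : ℝ) (M : ℕ) : ℝ := (pf r β M).1
noncomputable def Lam (r β : ℝ) (M : ℕ) : ℝ := Real.log (lam r β M)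
noncomputable def xv (r β : ℝ) (M : ℕ) : Fin (M+1) → ℝ := (pf r β M).2

/-- first and second moment of the local time under the stationary law -/
noncomputable def m1 (r β : ℝ) (M : ℕ) : ℝ :=
  (∑ i, ∑ j, xv r β M i * AM r β M i j * xv r β M j * ((i : ℝ) + (j : ℝ) + 1)) / lam r β M
noncomputable def m2 (r β : ℝ) (M : ℕ) : ℝ :=
  (∑ i, ∑ j, xv r β M i * AM r β M i j * xv r β M j * ((i : ℝ) + (j : ℝ) + 1) ^ 2) / lam r β M

/-- power iteration started from the constant vector -/
noncomputable def itv (r β : ℝ) (M m : ℕ) : Fin (M+1) → ℝ :=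
  ((AM r β M) ^ m).mulVec (fun _ => 1)

/-- root of `Lam = s` -/
noncomputable def RR (s β : ℝ) (M : ℕ) : ℝ := sSup {r : ℝ | Lam r β M ≤ s}

/-- the limit `M → ∞` (infimum) -/
noncomputable def Rinf (s β : ℝ) : ℝ := ⨅ M : ℕ, RR s β M

/-- extension of the Perron vector by zero -/
noncomputable def xe (r β : ℝ) (M : ℕ) (i : ℕ) : ℝ :=
  if h : i < M + 1 then xv r β M ⟨i, h⟩ else 0

/-- the sequence `x_i e^{ri} / i!` -/
noncomputable def aa (r β : ℝ) (M : ℕ) (i : ℕ) : ℝ :=
  xe r β M i * Real.exp (r * (i : ℝ)) / (Nat.factorial i : ℝ)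

/-- convolution -/
def cv2 (a b : ℕ → ℝ) (n : ℕ) : ℝ := ∑ i ∈ Finset.range (n + 1), a i * b (n - i)

/-- power iteration started from the constant 1 (matrix of size `M`), as a function on `ℕ` -/
noncomputable def XI (r β : ℝ) (M : ℕ) : ℕ → ℕ → ℝ
  | 0, _ => 1
  | m + 1, i => ∑ j ∈ Finset.range M, aE r β i j * XI r β M m j

/-- the two finite-matrix facts: log-concavity, and the monotone (and bounded) response in `r` -/
structure Core (β C : ℝ) : Prop where
  one_le : 1 ≤ C
  lc : ∀ (r : ℝ) (M m i : ℕ), i + 2 < M →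
    XI r β M m i * XI r β M m (i + 2) ≤ XI r β M m (i + 1) ^ 2
  mlr : ∀ (r r' : ℝ) (M m i : ℕ), r ≤ r' → i + 1 < M →
    XI r β M m (i + 1) * XI r' β M m i ≤
      Real.exp (r' - r) * (XI r' β M m (i + 1) * XI r β M m i)
  up : ∀ (r r' : ℝ) (M m i : ℕ), r ≤ r' → i + 1 < M →
    Real.exp (r' - r) * (XI r' β M m (i + 1) * XI r β M m i) ≤
      Real.exp (C * (r' - r)) * (XI r β M m (i + 1) * XI r' β M m i)

/-- the walk with steps `l` from `x` stays in `{0,…,K}` and ends at `K` -/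
def ok (K : ℕ) : ℕ → List Bool → Prop
  | x, [] => x = K
  | x, true :: l => x < K ∧ ok K (x + 1) l
  | x, false :: l => 0 < x ∧ ok K (x - 1) l

/-- local times of the walk -/
def lt : ℕ → List Bool → ℕ → ℕ
  | x, [], y => if y = x then 1 else 0
  | x, true :: l, y => (if y = x then 1 else 0) + lt (x + 1) l y
  | x, false :: l, y => (if y = x then 1 else 0) + lt (x - 1) l y

/-- numbers of down steps `y → y - 1` -/
def dc : ℕ → List Bool → ℕ → ℕ
  | _, [], _ => 0
  | x, true :: l, y => dc (x + 1) l y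
  | x, false :: l, y => (if y = x then 1 else 0) + dc (x - 1) l y

/-- number of walks with given down crossing numbers -/
def PP (K x : ℕ) (v : ℕ → ℕ) : ℕ :=
  ∏ y ∈ Finset.range (K + 1), if y < x then Nat.choose (v y + v (y + 1) - 1) (v y)
    else Nat.choose (v y + v (y + 1)) (v y)

/-- extension by zero of a vector with indices `1,…,K` -/
def ext (K : ℕ) (u : Fin K → ℕ) (y : ℕ) : ℕ :=
  if h : 1 ≤ y ∧ y ≤ K then u ⟨y - 1, by omega⟩ else 0

/-- truncated version of `TT` -/
noncomputable def TM (r β : ℝ) (M : ℕ) : ℕ → ℕ → ℝ≥0∞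
  | 0, j => ENNReal.ofReal (aE r β 0 j)
  | (K + 1), j => ∑ i ∈ Finset.range (M + 1), TM r β M K i * ENNReal.ofReal (aE r β i j)

end SoftPoly
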