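import Pool.Agent.Helper839.SP.Defs

set_option autoImplicit false

namespace SoftPoly
open scoped ENNReal BigOperators
open Filter Topology


theorem HHa_XX_cons_right (Q : List ℤ) (a : ℤ) (P : List ℤ) :
    XX Q (a :: P) = XX Q P + Q.count a := by
  induction Q with
  | nil => simp [XX]
  | cons b Q ih =>
    have e1 : XX (b :: Q) (a :: P) = (a :: P).count b + XX Q (a :: P) := by simp [XX]
    have e2 : XX (b :: Q) P = P.count b + XX Q P := by simp [XX]
    rw [e1, e2, ih, List.count_cons, List.count_cons]
    by_cases h : a = b
    · subst h; simp; omega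
    · have h' : ¬ b = a := fun hh => h hh.symm
      simp [h, h']; omega

theorem HHa_XX_comm (P Q : List ℤ) : XX P Q = XX Q P := by
  induction P with
  | nil => 
    have : ∀ Q : List ℤ, XX Q [] = 0 := by
      intro Q
      induction Q with
      | nil => simp [XX]
      | cons b Q ih =>
        have e1 : XX (b :: Q) [] = ([] : List ℤ).count b + XX Q [] := by simp [XX]
        rw [e1, ih]; simp
    rw [this]
    simp [XX]
  | cons a P ih =>
    rw [HHa_XX_cons_right, ← ih]
    simp [XX]
    omega

theorem HHa_split (P A B : List ℤ) :
    (P.map (fun z => (A ++ B).count z)).sum =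
      (P.map (fun z => A.count z)).sum + (P.map (fun z => B.count z)).sum := by
  induction P with
  | nil => simp
  | cons a P ih =>
    simp only [List.map_cons, List.sum_cons]
    rw [ih, List.count_append]
    omega

theorem HH_append (P Q : List ℤ) : HH (P ++ Q) = HH P + HH Q + 2 * XX P Q := by
  have h1 : HH (P ++ Q) = (P.map (fun z => (P ++ Q).count z)).sum +
      (Q.map (fun z => (P ++ Q).count z)).sum := by
    unfold HH
    rw [List.map_append, List.sum_append]
  rw [h1, HHa_split, HHa_split]
  have h2 : (Q.map (fun z => P.count z)).sum = XX P Q := by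
    rw [HHa_XX_comm]
    rfl
  have h3 : (P.map (fun z => Q.count z)).sum = XX P Q := rfl
  have h4 : (P.map (fun z => P.count z)).sum = HH P := rfl
  have h5 : (Q.map (fun z => Q.count z)).sum = HH Q := rfl
  rw [h2, h3, h4, h5]
  omega

end SoftPoly
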