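import Pool.Agent.Helper839.SP.Defs

set_option autoImplicit false

namespace SoftPoly
open scoped ENNReal BigOperators
open Filter Topology


theorem count_ofFn_aux (n : ℕ) (f : Fin n → ℤ) (z : ℤ) :
    (List.ofFn f).count z = (Finset.univ.filter (fun j : Fin n => z = f j)).card := by
  induction n with
  | zero => simp
  | succ n ih =>
    rw [List.ofFn_succ, List.count_cons, ih, Finset.card_filter, Finset.card_filter,
      Fin.sum_univ_succ, add_comm]
    congr 1
    by_cases h : f 0 = z
    · simp [h]
    · have h' : ¬ z = f 0 := fun e => h e.symm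
      simp [h, h']

theorem HH_card (n : ℕ) (f : Fin n → ℤ) :
    HH (List.ofFn f) = (Finset.univ.filter (fun p : Fin n × Fin n => f p.1 = f p.2)).card := by
  unfold HH
  rw [List.map_ofFn, List.sum_ofFn]
  simp only [Function.comp_def, count_ofFn_aux]
  rw [Finset.card_filter, ← Finset.univ_product_univ, Finset.sum_product]
  apply Finset.sum_congr rfl
  intro i _
  rw [Finset.card_filter]

end SoftPoly
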