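import Pool.Agent.Helper839.SP.Defs

set_option autoImplicit false

namespace SoftPoly
open scoped ENNReal BigOperators
open Filter Topology


theorem HH_map (P : List ℤ) (f : ℤ → ℤ) (hf : Function.Injective f) : HH (P.map f) = HH P := by
  unfold HH
  rw [List.map_map]
  congr 1
  apply List.map_congr_left
  intro z _
  exact List.count_map_of_injective P f hf z

end SoftPoly
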