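import Pool.Agent.Helper839.SP.Defs

set_option autoImplicit false

namespace SoftPoly
open scoped ENNReal BigOperators
open Filter Topology


theorem HH_rev (P : List ℤ) : HH P.reverse = HH P := by
  unfold HH
  rw [List.map_reverse, List.sum_reverse]
  congr 1
  apply List.map_congr_left
  intro z _
  rw [List.count_reverse]

end SoftPoly
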