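import Pool.Agent.Helper839.SP.Defs

set_option autoImplicit false

namespace SoftPoly
open scoped ENNReal BigOperators
open Filter Topology


theorem aE_basic (r β : ℝ) (i j : ℕ) :
    0 < aE r β i j ∧ aE r β i j = aE r β j i ∧
      aE r β i j ≤ 2 ^ (i + j) * Real.exp (r * ((i : ℝ) + j + 1) - β * ((i : ℝ) + j + 1) ^ 2) := by
  refine ⟨?_, ?_, ?_⟩
  · unfold aE
    have h : 0 < Nat.choose (i + j) i := Nat.choose_pos (Nat.le_add_right i j)
    have h' : (0 : ℝ) < (Nat.choose (i + j) i : ℝ) := by exact_mod_cast h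
    exact mul_pos h' (Real.exp_pos _)
  · unfold aE
    have h : Nat.choose (i + j) i = Nat.choose (j + i) j := by
      rw [Nat.add_comm j i]
      exact Nat.choose_symm_add
    rw [h]
    congr 2
    ring
  · unfold aE
    refine mul_le_mul_of_nonneg_right ?_ (Real.exp_pos _).le
    exact_mod_cast Nat.choose_le_two_pow (i + j) i

end SoftPoly
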