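import Pool.Agent.Helper839.SP.Defs

set_option autoImplicit false

namespace SoftPoly
open scoped ENNReal BigOperators
open Filter Topology

theorem pfc_step {M : ℕ} (P : Fin (M+1) → Fin (M+1) → ℝ) (δ : ℝ) (hδ0 : 0 < δ)
    (hδ : ∀ i j, δ ≤ P i j) (hs : ∀ i, ∑ j, P i j = 1) (w : Fin (M+1) → ℝ) (a b : ℝ)
    (ha : ∀ i, a ≤ w i) (i0 : Fin (M+1)) (hi0 : w i0 = a) (hb : ∀ i, w i ≤ b) (i : Fin (M+1)) :
    a ≤ ∑ j, P i j * w j ∧ ∑ j, P i j * w j ≤ b - δ * (b - a) := by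
  have hP : ∀ i j, 0 ≤ P i j := fun i j => hδ0.le.trans (hδ i j)
  constructor
  · calc a = ∑ j, P i j * a := by rw [← Finset.sum_mul, hs, one_mul]
      _ ≤ ∑ j, P i j * w j := Finset.sum_le_sum fun j _ => mul_le_mul_of_nonneg_left (ha j) (hP i j)
  · have h1 : b - ∑ j, P i j * w j = ∑ j, P i j * (b - w j) := by
      simp only [mul_sub]
      rw [Finset.sum_sub_distrib, ← Finset.sum_mul, hs, one_mul]
    have h2 : P i i0 * (b - w i0) ≤ ∑ j, P i j * (b - w j) :=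
      Finset.single_le_sum (f := fun j => P i j * (b - w j))
        (fun j _ => mul_nonneg (hP i j) (sub_nonneg.mpr (hb j))) (Finset.mem_univ i0)
    have h3 : δ * (b - a) ≤ P i i0 * (b - w i0) := by
      rw [hi0]
      apply mul_le_mul_of_nonneg_right (hδ i i0)
      rw [← hi0]
      exact sub_nonneg.mpr (hb i0)
    linarith

theorem pfc_iter {M : ℕ} (P : Fin (M+1) → Fin (M+1) → ℝ) (δ : ℝ) (hδ0 : 0 < δ)
    (hδ : ∀ i j, δ ≤ P i j) (hs : ∀ i, ∑ j, P i j = 1) (u : ℕ → Fin (M+1) → ℝ)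
    (hu : ∀ m i, u (m + 1) i = ∑ j, P i j * u m j) (h0 : ∀ i, 0 < u 0 i) :
    ∃ a0 C : ℝ, 0 < a0 ∧ ∀ m, ∃ a b : ℝ, a0 ≤ a ∧ (∀ i, a ≤ u m i) ∧ (∃ i, u m i = a) ∧
      (∀ i, u m i ≤ b) ∧ b - a ≤ (1 - δ) ^ m * C := by
  have hδ1 : δ ≤ 1 := by
    have h := Finset.single_le_sum (f := fun j => P 0 j)
      (fun j _ => hδ0.le.trans (hδ 0 j)) (Finset.mem_univ (0 : Fin (M+1)))
    rw [hs] at h
    exact (hδ 0 0).trans h
  obtain ⟨i0, -, hi0⟩ := Finset.exists_min_image Finset.univ (u 0) ⟨0, Finset.mem_univ _⟩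
  obtain ⟨i1, -, hi1⟩ := Finset.exists_max_image Finset.univ (u 0) ⟨0, Finset.mem_univ _⟩
  refine ⟨u 0 i0, u 0 i1 - u 0 i0, h0 i0, fun m => ?_⟩
  induction m with
  | zero =>
    exact ⟨u 0 i0, u 0 i1, le_rfl, fun i => hi0 i (Finset.mem_univ _), ⟨i0, rfl⟩,
      fun i => hi1 i (Finset.mem_univ _), by simp⟩
  | succ m ih =>
    obtain ⟨a, b, h1, h2, ⟨k, hk⟩, h4, h5⟩ := ih
    obtain ⟨k', -, hk'⟩ := Finset.exists_min_image Finset.univ (u (m + 1)) ⟨0, Finset.mem_univ _⟩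
    have hst := pfc_step P δ hδ0 hδ hs (u m) a b h2 k hk h4
    have hak : a ≤ u (m + 1) k' := by rw [hu]; exact (hst k').1
    refine ⟨u (m + 1) k', b - δ * (b - a), h1.trans hak, fun i => hk' i (Finset.mem_univ _),
      ⟨k', rfl⟩, fun i => by rw [hu]; exact (hst i).2, ?_⟩
    calc b - δ * (b - a) - u (m + 1) k' ≤ (1 - δ) * (b - a) := by linarith
      _ ≤ (1 - δ) * ((1 - δ) ^ m * (u 0 i1 - u 0 i0)) :=
          mul_le_mul_of_nonneg_left h5 (by linarith)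
      _ = (1 - δ) ^ (m + 1) * (u 0 i1 - u 0 i0) := by ring

theorem pfc_lim {M : ℕ} (P : Fin (M+1) → Fin (M+1) → ℝ) (δ : ℝ) (hδ0 : 0 < δ)
    (hδ : ∀ i j, δ ≤ P i j) (hs : ∀ i, ∑ j, P i j = 1) (u : ℕ → Fin (M+1) → ℝ)
    (hu : ∀ m i, u (m + 1) i = ∑ j, P i j * u m j) (h0 : ∀ i, 0 < u 0 i) (i j : Fin (M+1)) :
    Tendsto (fun m => u m i / u m j) atTop (𝓝 1) := by
  obtain ⟨a0, C, ha0, H⟩ := pfc_iter P δ hδ0 hδ hs u hu h0
  have hδ1 : δ ≤ 1 := by
    have h := Finset.single_le_sum (f := fun j => P 0 j)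
      (fun j _ => hδ0.le.trans (hδ 0 j)) (Finset.mem_univ (0 : Fin (M+1)))
    rw [hs] at h
    exact (hδ 0 0).trans h
  have hlim : Tendsto (fun m : ℕ => (1 - δ) ^ m * C / a0) atTop (𝓝 0) := by
    have h1 := (tendsto_pow_atTop_nhds_zero_of_lt_one (r := 1 - δ) (by linarith) (by linarith)).mul_const C
    have h2 := h1.div_const a0
    simpa using h2
  rw [tendsto_iff_norm_sub_tendsto_zero]
  refine squeeze_zero (fun m => norm_nonneg _) (fun m => ?_) hlim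
  obtain ⟨a, b, h1, h2, -, h4, h5⟩ := H m
  have hj : a0 ≤ u m j := h1.trans (h2 j)
  have hjp : 0 < u m j := ha0.trans_le hj
  have e : u m i / u m j - 1 = (u m i - u m j) / u m j := by
    field_simp
  rw [e, Real.norm_eq_abs, abs_div, abs_of_pos hjp]
  have h6 : |u m i - u m j| ≤ b - a := by
    rw [abs_le]
    constructor
    · linarith [h2 i, h4 j]
    · linarith [h4 i, h2 j]
  have h7 : 0 ≤ (1 - δ) ^ m * C := (abs_nonneg _).trans (h6.trans h5)
  calc |u m i - u m j| / u m j ≤ ((1 - δ) ^ m * C) / u m j :=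
        div_le_div_of_nonneg_right (h6.trans h5) hjp.le
    _ ≤ ((1 - δ) ^ m * C) / a0 := div_le_div_of_nonneg_left h7 ha0 hj

theorem pf_conv (M : ℕ) (A : Matrix (Fin (M+1)) (Fin (M+1)) ℝ) (hpos : ∀ i j, 0 < A i j)
    (l : ℝ) (x : Fin (M+1) → ℝ) (hl : 0 < l) (hx : ∀ i, 0 < x i)
    (he : ∀ i, ∑ j, A i j * x j = l * x i)
    (v : Fin (M+1) → ℝ) (hv : ∀ i, 0 < v i) (i j : Fin (M+1)) :
    Tendsto (fun m : ℕ => (A ^ m).mulVec v i / (A ^ m).mulVec v j) atTop (𝓝 (x i / x j)) := by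
  set w : ℕ → Fin (M+1) → ℝ := fun m => (A ^ m).mulVec v with hw
  have hws : ∀ m i, w (m + 1) i = ∑ j, A i j * w m j := by
    intro m i
    simp only [hw]
    rw [pow_succ', ← Matrix.mulVec_mulVec]
    rfl
  have hw0 : ∀ i, w 0 i = v i := by
    intro i
    simp [hw]
  set P : Fin (M+1) → Fin (M+1) → ℝ := fun i j => A i j * x j / (l * x i) with hP
  have hPpos : ∀ i j, 0 < P i j := fun i j =>
    div_pos (mul_pos (hpos i j) (hx j)) (mul_pos hl (hx i))
  obtain ⟨p0, -, hp0⟩ := Finset.exists_min_image (Finset.univ : Finset (Fin (M+1) × Fin (M+1)))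
    (fun p => P p.1 p.2) ⟨(0, 0), Finset.mem_univ _⟩
  have hs : ∀ i, ∑ j, P i j = 1 := by
    intro i
    simp only [hP]
    rw [← Finset.sum_div, he, div_self (mul_pos hl (hx i)).ne']
  have hxn : ∀ i, x i ≠ 0 := fun i => (hx i).ne'
  have hlim := pfc_lim P (P p0.1 p0.2) (hPpos _ _) (fun i j => hp0 (i, j) (Finset.mem_univ _)) hs
    (fun m i => w m i / (l ^ m * x i)) (by
      intro m i
      simp only [hP]
      rw [hws, Finset.sum_div]
      refine Finset.sum_congr rfl fun j _ => ?_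
      have := hxn i
      have := hxn j
      rw [pow_succ]
      field_simp) (by
      intro i
      rw [hw0]
      simpa using div_pos (hv i) (hx i)) i j
  have h2 := hlim.const_mul (x i / x j)
  rw [mul_one] at h2
  refine h2.congr fun m => ?_
  have := hxn i
  have := hxn j
  have hlm : l ^ m ≠ 0 := (pow_pos hl m).ne'
  show x i / x j * ((w m i / (l ^ m * x i)) / (w m j / (l ^ m * x j))) = w m i / w m j
  rw [div_div_div_eq]
  rw [show w m i * (l ^ m * x j) = (l ^ m) * (w m i * x j) by ring,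
    show l ^ m * x i * w m j = l ^ m * (x i * w m j) by ring, mul_div_mul_left _ _ hlm,
    div_mul_div_comm]
  rw [show x i * (w m i * x j) = (x i * x j) * w m i by ring,
    show x j * (x i * w m j) = (x i * x j) * w m j by ring,
    mul_div_mul_left _ _ (mul_ne_zero (hxn i) (hxn j))]

end SoftPoly
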