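import Pool.Agent.Helper839.SP.Defs

set_option autoImplicit false

namespace SoftPoly
open scoped ENNReal BigOperators
open Filter Topology


theorem pf_vec_lin (a b : ℝ) (h : ∀ t : ℝ, a * t ≤ b * t ^ 2) : a = 0 := by
  have hc : 0 < |b| + 1 := by positivity
  have h1 := h (a / (|b| + 1))
  have h2 : a * (a / (|b| + 1)) = a ^ 2 * (|b| + 1) / (|b| + 1) ^ 2 := by
    field_simp
  have h3 : b * (a / (|b| + 1)) ^ 2 = b * a ^ 2 / (|b| + 1) ^ 2 := by
    rw [div_pow]; ring
  rw [h2, h3, div_le_div_iff_of_pos_right (by positivity)] at h1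
  have h4 : b ≤ |b| := le_abs_self b
  have h5 : a ^ 2 ≤ 0 := by nlinarith [sq_nonneg a]
  have h6 : a ^ 2 = 0 := le_antisymm h5 (sq_nonneg a)
  exact pow_eq_zero_iff (two_ne_zero) |>.1 h6

theorem pf_vec_expand {n : ℕ} (A : Matrix (Fin n) (Fin n) ℝ)
    (hsym : ∀ i j, A i j = A j i) (x w : Fin n → ℝ) (t : ℝ) :
    ∑ i, ∑ j, (x i + t * w i) * A i j * (x j + t * w j)
      = ∑ i, ∑ j, x i * A i j * x j + 2 * t * ∑ i, w i * ∑ j, A i j * x j
        + t ^ 2 * ∑ i, ∑ j, w i * A i j * w j := by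
  have h1 : ∑ i, ∑ j, x i * A i j * w j = ∑ i, ∑ j, w i * A i j * x j := by
    rw [Finset.sum_comm]
    refine Finset.sum_congr rfl fun i _ => Finset.sum_congr rfl fun j _ => ?_
    rw [hsym i j]; ring
  have h2 : ∑ i, w i * ∑ j, A i j * x j = ∑ i, ∑ j, w i * A i j * x j := by
    refine Finset.sum_congr rfl fun i _ => ?_
    rw [Finset.mul_sum]
    refine Finset.sum_congr rfl fun j _ => ?_
    ring
  have h3 : ∑ i, ∑ j, (x i + t * w i) * A i j * (x j + t * w j)
      = ∑ i, ∑ j, (x i * A i j * x j + t * (w i * A i j * x j) + t * (x i * A i j * w j)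
        + t ^ 2 * (w i * A i j * w j)) := by
    refine Finset.sum_congr rfl fun i _ => Finset.sum_congr rfl fun j _ => ?_
    ring
  rw [h3, h2]
  simp only [Finset.sum_add_distrib, ← Finset.mul_sum]
  rw [h1]
  ring

theorem pf_vec_expand2 {n : ℕ} (x w : Fin n → ℝ) (t : ℝ) :
    ∑ i, (x i + t * w i) ^ 2
      = ∑ i, x i ^ 2 + 2 * t * ∑ i, w i * x i + t ^ 2 * ∑ i, w i ^ 2 := by
  have h3 : ∑ i, (x i + t * w i) ^ 2
      = ∑ i, (x i ^ 2 + 2 * t * (w i * x i) + t ^ 2 * w i ^ 2) := by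
    refine Finset.sum_congr rfl fun i _ => ?_
    ring
  rw [h3]
  simp only [Finset.sum_add_distrib, ← Finset.mul_sum]

theorem pf_vec (M : ℕ) (A : Matrix (Fin (M+1)) (Fin (M+1)) ℝ) (hpos : ∀ i j, 0 < A i j)
    (hsym : ∀ i j, A i j = A j i) :
    ∃ (l : ℝ) (x : Fin (M+1) → ℝ), 0 < l ∧ (∀ i, 0 < x i) ∧ ∑ i, x i ^ 2 = 1 ∧
      (∀ i, ∑ j, A i j * x j = l * x i) ∧
      (∀ z : Fin (M+1) → ℝ, ∑ i, ∑ j, z i * A i j * z j ≤ l * ∑ i, z i ^ 2) := by
  let Q : (Fin (M+1) → ℝ) → ℝ := fun z => ∑ i, ∑ j, z i * A i j * z j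
  have hQ : Continuous Q := by
    refine continuous_finsetSum _ fun i _ => continuous_finsetSum _ fun j _ => ?_
    exact ((continuous_apply i).mul continuous_const).mul (continuous_apply j)
  let S : Set (Fin (M+1) → ℝ) := {z | ∑ i, z i ^ 2 = 1}
  have hScl : IsClosed S :=
    isClosed_eq (continuous_finsetSum _ fun i _ => (continuous_apply i).pow 2) continuous_const
  have hSb : Bornology.IsBounded S := by
    refine (Metric.isBounded_iff_subset_closedBall 0).2 ⟨1, ?_⟩
    intro z hz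
    rw [mem_closedBall_zero_iff, pi_norm_le_iff_of_nonneg zero_le_one]
    intro i
    have h1 : z i ^ 2 ≤ ∑ i, z i ^ 2 :=
      Finset.single_le_sum (f := fun i => z i ^ 2) (fun j _ => sq_nonneg (z j)) (Finset.mem_univ i)
    have hz' : ∑ i, z i ^ 2 = 1 := hz
    rw [hz'] at h1
    rw [Real.norm_eq_abs]
    exact abs_le_one_iff_mul_self_le_one.2 (by nlinarith)
  have hSc : IsCompact S := Metric.isCompact_of_isClosed_isBounded hScl hSb
  have he0 : (Pi.single 0 1 : Fin (M+1) → ℝ) ∈ S := by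
    show ∑ i, (Pi.single 0 1 : Fin (M+1) → ℝ) i ^ 2 = 1
    simp [Pi.single_apply, ite_pow]
  obtain ⟨z, hzS, hz⟩ := hSc.exists_isMaxOn ⟨_, he0⟩ hQ.continuousOn
  have hzS' : ∑ i, z i ^ 2 = 1 := hzS
  have hzm : ∀ w ∈ S, Q w ≤ Q z := fun w hw => hz hw
  let x : Fin (M+1) → ℝ := fun i => |z i|
  have hx0 : ∀ i, 0 ≤ x i := fun i => abs_nonneg _
  have hxS : ∑ i, x i ^ 2 = 1 := by
    rw [← hzS']
    refine Finset.sum_congr rfl fun i _ => ?_
    exact sq_abs _
  have hQx : Q z ≤ Q x := by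
    refine Finset.sum_le_sum fun i _ => Finset.sum_le_sum fun j _ => ?_
    show z i * A i j * z j ≤ |z i| * A i j * |z j|
    calc z i * A i j * z j ≤ |z i * A i j * z j| := le_abs_self _
      _ = |z i| * A i j * |z j| := by rw [abs_mul, abs_mul, abs_of_pos (hpos i j)]
  have hxm : ∀ w ∈ S, Q w ≤ Q x := fun w hw => (hzm w hw).trans hQx
  have hl : 0 < Q x := by
    have h1 := hxm _ he0
    have h2 : Q (Pi.single 0 1) = A 0 0 := by
      show ∑ i, ∑ j, (Pi.single 0 1 : Fin (M+1) → ℝ) i * A i j * (Pi.single 0 1 : Fin (M+1) → ℝ) j = A 0 0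
      simp [Pi.single_apply]
    rw [h2] at h1
    exact (hpos 0 0).trans_le h1
  have hray : ∀ w : Fin (M+1) → ℝ, Q w ≤ Q x * ∑ i, w i ^ 2 := by
    intro w
    have hnn : 0 ≤ ∑ i, w i ^ 2 := Finset.sum_nonneg fun i _ => sq_nonneg _
    rcases hnn.eq_or_lt with h0 | hpos'
    · have hw : ∀ i, w i = 0 := by
        intro i
        have := (Finset.sum_eq_zero_iff_of_nonneg (fun i _ => sq_nonneg (w i))).1 h0.symm i
          (Finset.mem_univ i)
        exact pow_eq_zero_iff (two_ne_zero) |>.1 this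
      have : Q w = 0 := by
        show ∑ i, ∑ j, w i * A i j * w j = 0
        simp [hw]
      rw [this, ← h0, mul_zero]
    · set r := Real.sqrt (∑ i, w i ^ 2) with hr
      have hr0 : 0 < r := Real.sqrt_pos.2 hpos'
      have hr2 : r ^ 2 = ∑ i, w i ^ 2 := Real.sq_sqrt hnn
      have hwS : (fun i => w i / r) ∈ S := by
        show ∑ i, (w i / r) ^ 2 = 1
        simp only [div_pow]
        rw [← Finset.sum_div, hr2, div_self hpos'.ne']
      have h1 := hxm _ hwS
      have h2 : Q (fun i => w i / r) = Q w / r ^ 2 := by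
        show ∑ i, ∑ j, (w i / r) * A i j * (w j / r) = (∑ i, ∑ j, w i * A i j * w j) / r ^ 2
        rw [Finset.sum_div]
        refine Finset.sum_congr rfl fun i _ => ?_
        rw [Finset.sum_div]
        refine Finset.sum_congr rfl fun j _ => ?_
        field_simp
      rw [h2, div_le_iff₀ (by positivity), hr2] at h1
      exact h1
  have heig : ∀ i, ∑ j, A i j * x j = Q x * x i := by
    intro k
    have h1 : 2 * (∑ j, A k j * x j - Q x * x k) = 0 := by
      refine pf_vec_lin _ (Q x - A k k) fun t => ?_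
      have h2 := hray (fun i => x i + t * (Pi.single k 1 : Fin (M+1) → ℝ) i)
      have h3 : Q (fun i => x i + t * (Pi.single k 1 : Fin (M+1) → ℝ) i)
          = Q x + 2 * t * ∑ j, A k j * x j + t ^ 2 * A k k := by
        have h := pf_vec_expand A hsym x (Pi.single k 1) t
        have h5 : ∑ i, (Pi.single k 1 : Fin (M+1) → ℝ) i * ∑ j, A i j * x j
            = ∑ j, A k j * x j := by
          simp [Pi.single_apply]
        have h6 : ∑ i, ∑ j, (Pi.single k 1 : Fin (M+1) → ℝ) i * A i j *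
            (Pi.single k 1 : Fin (M+1) → ℝ) j = A k k := by
          simp [Pi.single_apply]
        rw [h5, h6] at h
        exact h
      have h4 : ∑ i, (x i + t * (Pi.single k 1 : Fin (M+1) → ℝ) i) ^ 2
          = 1 + 2 * t * x k + t ^ 2 := by
        rw [pf_vec_expand2, hxS]
        simp [Pi.single_apply, ite_pow]
      rw [h3, h4] at h2
      nlinarith
    linarith
  refine ⟨Q x, x, hl, ?_, hxS, heig, hray⟩
  intro i
  have h1 : ∃ j, 0 < x j := by
    by_contra h
    push Not at h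
    have : ∑ i, x i ^ 2 = 0 := Finset.sum_eq_zero fun i _ => by
      rw [le_antisymm (h i) (hx0 i)]; norm_num
    rw [hxS] at this
    exact one_ne_zero this
  obtain ⟨j, hj⟩ := h1
  have h2 : 0 < ∑ j, A i j * x j :=
    Finset.sum_pos' (fun k _ => mul_nonneg (hpos i k).le (hx0 k))
      ⟨j, Finset.mem_univ j, mul_pos (hpos i j) hj⟩
  rw [heig i] at h2
  exact (mul_pos_iff_of_pos_left hl).1 h2
end SoftPoly
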