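import Pool.Agent.Helper839.SP.Defs
import Pool.Agent.Helper839.SP.P_aE_basic
import Pool.Agent.Helper839.SP.P_pf_vec
import Pool.Agent.Helper839.SP.P_pf_conv

set_option autoImplicit false

namespace SoftPoly
open scoped ENNReal BigOperators
open Filter Topology


theorem pf_spec (r β : ℝ) (M : ℕ) : IsPF (AM r β M) (lam r β M) (xv r β M) := by
  have hpos : ∀ i j, 0 < AM r β M i j := fun i j => by
    simpa [AM, Matrix.of_apply] using (aE_basic r β i j).1
  have hsym : ∀ i j, AM r β M i j = AM r β M j i := fun i j => by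
    simpa [AM, Matrix.of_apply] using (aE_basic r β i j).2.1
  obtain ⟨l, x, hl, hx, hn, he, hr⟩ := pf_vec M (AM r β M) hpos hsym
  have hex : ∃ p : ℝ × (Fin (M+1) → ℝ), IsPF (AM r β M) p.1 p.2 :=
    ⟨(l, x), ⟨hl, hx, hn, he, hr, fun v hv i j => pf_conv M (AM r β M) hpos l x hl hx he v hv i j⟩⟩
  have h := hex.choose_spec
  have hpf : pf r β M = hex.choose := by
    unfold pf
    rw [dif_pos hex]
  show IsPF (AM r β M) (pf r β M).1 (pf r β M).2
  rw [hpf]
  exact h

end SoftPoly
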