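import Pool.Agent.Helper839.SP.Defs
import Pool.Agent.Helper839.SP.P_aE_basic
import Pool.Agent.Helper839.SP.P_pf_spec

set_option autoImplicit false

namespace SoftPoly
open scoped ENNReal BigOperators
open Filter Topology


theorem Lam_supp (r β r' β' : ℝ) (M : ℕ) :
    Lam r β M + (r' - r) * m1 r β M - (β' - β) * m2 r β M ≤ Lam r' β' M := by
  have hs := pf_spec r β M
  have hs' := pf_spec r' β' M
  have hray := hs'.ray (xv r β M)
  rw [hs.norm, mul_one] at hray
  have hl := hs.lpos
  have hq : ∑ i, ∑ j, xv r β M i * AM r β M i j * xv r β M j = lam r β M := by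
    have h1 : ∀ i, ∑ j, xv r β M i * AM r β M i j * xv r β M j =
        lam r β M * xv r β M i ^ 2 := by
      intro i
      have h2 : ∑ j, xv r β M i * AM r β M i j * xv r β M j =
          xv r β M i * ∑ j, AM r β M i j * xv r β M j := by
        rw [Finset.mul_sum]
        exact Finset.sum_congr rfl fun j _ => by ring
      rw [h2, hs.eig]
      ring
    rw [Finset.sum_congr rfl fun i _ => h1 i, ← Finset.mul_sum, hs.norm, mul_one]
  have hm1 : ∑ i, ∑ j, xv r β M i * AM r β M i j * xv r β M j * ((i : ℝ) + (j : ℝ) + 1) =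
      lam r β M * m1 r β M := by
    unfold m1
    field_simp
  have hm2 : ∑ i, ∑ j, xv r β M i * AM r β M i j * xv r β M j * ((i : ℝ) + (j : ℝ) + 1) ^ 2 =
      lam r β M * m2 r β M := by
    unfold m2
    field_simp
  set T : ℝ := (r' - r) * m1 r β M - (β' - β) * m2 r β M with hT
  have hpt : ∀ i j, xv r β M i * AM r β M i j * xv r β M j * (Real.exp T *
      (1 + ((r' - r) * ((i : ℝ) + (j : ℝ) + 1) - (β' - β) * ((i : ℝ) + (j : ℝ) + 1) ^ 2) - T)) ≤
      xv r β M i * AM r' β' M i j * xv r β M j := by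
    intro i j
    have hA : AM r' β' M i j = AM r β M i j * Real.exp ((r' - r) * ((i : ℝ) + (j : ℝ) + 1) -
        (β' - β) * ((i : ℝ) + (j : ℝ) + 1) ^ 2) := by
      show aE r' β' i j = aE r β i j * _
      unfold aE
      rw [mul_assoc, ← Real.exp_add]
      congr 2
      ring
    have hpos : 0 ≤ xv r β M i * AM r β M i j * xv r β M j :=
      mul_nonneg (mul_nonneg (hs.xpos i).le (aE_basic r β i j).1.le) (hs.xpos j).le
    set t : ℝ := (r' - r) * ((i : ℝ) + (j : ℝ) + 1) - (β' - β) * ((i : ℝ) + (j : ℝ) + 1) ^ 2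
    have he : Real.exp T * (1 + t - T) ≤ Real.exp t := by
      have h1 := Real.add_one_le_exp (t - T)
      calc Real.exp T * (1 + t - T) = Real.exp T * ((t - T) + 1) := by ring
        _ ≤ Real.exp T * Real.exp (t - T) :=
            mul_le_mul_of_nonneg_left h1 (Real.exp_pos T).le
        _ = Real.exp t := by rw [← Real.exp_add]; congr 1; ring
    rw [hA]
    calc xv r β M i * AM r β M i j * xv r β M j * (Real.exp T * (1 + t - T))
        ≤ xv r β M i * AM r β M i j * xv r β M j * Real.exp t :=
          mul_le_mul_of_nonneg_left he hpos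
      _ = _ := by ring
  have hsum : ∑ i, ∑ j, xv r β M i * AM r β M i j * xv r β M j * (Real.exp T *
      (1 + ((r' - r) * ((i : ℝ) + (j : ℝ) + 1) - (β' - β) * ((i : ℝ) + (j : ℝ) + 1) ^ 2) - T)) =
      lam r β M * Real.exp T := by
    have e : ∀ i j : Fin (M + 1), xv r β M i * AM r β M i j * xv r β M j * (Real.exp T *
        (1 + ((r' - r) * ((i : ℝ) + (j : ℝ) + 1) - (β' - β) * ((i : ℝ) + (j : ℝ) + 1) ^ 2) - T)) =
        Real.exp T * (1 - T) * (xv r β M i * AM r β M i j * xv r β M j) +
        Real.exp T * (r' - r) *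
          (xv r β M i * AM r β M i j * xv r β M j * ((i : ℝ) + (j : ℝ) + 1)) -
        Real.exp T * (β' - β) *
          (xv r β M i * AM r β M i j * xv r β M j * ((i : ℝ) + (j : ℝ) + 1) ^ 2) := by
      intro i j; ring
    simp only [e, Finset.sum_add_distrib, Finset.sum_sub_distrib, ← Finset.mul_sum]
    rw [hq, hm1, hm2, hT]
    ring
  have hle : lam r β M * Real.exp T ≤ lam r' β' M := by
    rw [← hsum]
    exact (Finset.sum_le_sum fun i _ => Finset.sum_le_sum fun j _ => hpt i j).trans hray
  have hlog : Real.log (lam r β M * Real.exp T) ≤ Real.log (lam r' β' M) :=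
    Real.log_le_log (mul_pos hl (Real.exp_pos _)) hle
  rw [Real.log_mul hl.ne' (Real.exp_pos _).ne', Real.log_exp] at hlog
  unfold Lam
  linarith

end SoftPoly
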