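import Pool.Agent.Helper839.SP.Defs
import Pool.Agent.Helper839.SP.P_aE_basic
import Pool.Agent.Helper839.SP.P_pf_spec

set_option autoImplicit false

namespace SoftPoly
open scoped ENNReal BigOperators
open Filter Topology


theorem m_bounds (r β : ℝ) (M : ℕ) :
    1 ≤ m1 r β M ∧ m1 r β M ≤ 2 * (M : ℝ) + 1 ∧ m1 r β M ≤ m2 r β M ∧
      m2 r β M ≤ (2 * (M : ℝ) + 1) * m1 r β M := by
  have hP := pf_spec r β M
  set l := lam r β M with hl
  set x := xv r β M with hx
  have hl0 : 0 < l := hP.lpos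
  have hq : ∀ i j, 0 ≤ x i * AM r β M i j * x j := by
    intro i j
    have h1 : 0 < AM r β M i j := (aE_basic r β i j).1
    have := hP.xpos i
    have := hP.xpos j
    positivity
  have hc1 : ∀ i j : Fin (M + 1), 1 ≤ (i : ℝ) + (j : ℝ) + 1 := by
    intro i j
    have h1 : (0 : ℝ) ≤ ((i : ℕ) : ℝ) := Nat.cast_nonneg _
    have h2 : (0 : ℝ) ≤ ((j : ℕ) : ℝ) := Nat.cast_nonneg _
    linarith
  have hc2 : ∀ i j : Fin (M + 1), (i : ℝ) + (j : ℝ) + 1 ≤ 2 * (M : ℝ) + 1 := by
    intro i j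
    have h1 : ((i : ℕ) : ℝ) ≤ M := by exact_mod_cast Nat.lt_succ_iff.1 i.2
    have h2 : ((j : ℕ) : ℝ) ≤ M := by exact_mod_cast Nat.lt_succ_iff.1 j.2
    linarith
  have hsum : ∑ i, ∑ j, x i * AM r β M i j * x j = l := by
    have h1 : ∀ i, ∑ j, x i * AM r β M i j * x j = l * x i ^ 2 := by
      intro i
      have h2 := hP.eig i
      calc ∑ j, x i * AM r β M i j * x j = x i * ∑ j, AM r β M i j * x j := by
            rw [Finset.mul_sum]
            exact Finset.sum_congr rfl fun j _ => by ring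
        _ = l * x i ^ 2 := by
            rw [h2]
            ring
    rw [Finset.sum_congr rfl fun i _ => h1 i, ← Finset.mul_sum, hP.norm, mul_one]
  have hcmp : ∀ f g : Fin (M + 1) → Fin (M + 1) → ℝ, (∀ i j, f i j ≤ g i j) →
      ∑ i, ∑ j, x i * AM r β M i j * x j * f i j ≤ ∑ i, ∑ j, x i * AM r β M i j * x j * g i j := by
    intro f g hfg
    exact Finset.sum_le_sum fun i _ => Finset.sum_le_sum fun j _ =>
      mul_le_mul_of_nonneg_left (hfg i j) (hq i j)
  have hconst : ∀ c : ℝ, ∑ i, ∑ j, x i * AM r β M i j * x j * c = l * c := by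
    intro c
    rw [← hsum, Finset.sum_mul]
    exact Finset.sum_congr rfl fun i _ => by rw [Finset.sum_mul]
  unfold m1 m2
  rw [← hx, ← hl]
  refine ⟨?_, ?_, ?_, ?_⟩
  · rw [le_div_iff₀ hl0, one_mul]
    have h1 := hcmp (fun _ _ => 1) (fun i j => (i : ℝ) + (j : ℝ) + 1) hc1
    rw [hconst] at h1
    linarith
  · rw [div_le_iff₀ hl0]
    have h1 := hcmp (fun i j => (i : ℝ) + (j : ℝ) + 1) (fun _ _ => 2 * (M : ℝ) + 1) hc2
    rw [hconst] at h1
    linarith
  · apply div_le_div_of_nonneg_right _ hl0.le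
    refine hcmp (fun i j => (i : ℝ) + (j : ℝ) + 1) (fun i j => ((i : ℝ) + (j : ℝ) + 1) ^ 2) ?_
    intro i j
    have := hc1 i j
    nlinarith
  · rw [← mul_div_assoc]
    apply div_le_div_of_nonneg_right _ hl0.le
    have h1 := hcmp (fun i j => ((i : ℝ) + (j : ℝ) + 1) ^ 2)
      (fun i j => (2 * (M : ℝ) + 1) * ((i : ℝ) + (j : ℝ) + 1)) (by
        intro i j
        have h1 := hc1 i j
        have h2 := hc2 i j
        rw [pow_two]
        exact mul_le_mul_of_nonneg_right h2 (by linarith))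
    refine h1.trans (le_of_eq ?_)
    rw [Finset.mul_sum]
    refine Finset.sum_congr rfl fun i _ => ?_
    rw [Finset.mul_sum]
    exact Finset.sum_congr rfl fun j _ => by ring

end SoftPoly
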