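import Pool.Agent.Helper839.SP.Defs
import Pool.Agent.Helper839.SP.P_Lam_supp
import Pool.Agent.Helper839.SP.P_m_bounds

set_option autoImplicit false

namespace SoftPoly
open scoped ENNReal BigOperators
open Filter Topology


theorem Lam_step (β : ℝ) (M : ℕ) (r r' : ℝ) (h : r ≤ r') :
    Lam r β M + (r' - r) ≤ Lam r' β M ∧
      Lam r' β M ≤ Lam r β M + (r' - r) * (2 * (M : ℝ) + 1) := by
  have h1 := Lam_supp r β r' β M
  have h2 := Lam_supp r' β r β M
  have b1 := m_bounds r β M
  have b2 := m_bounds r' β M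
  have h3 : 0 ≤ r' - r := sub_nonneg.2 h
  have h4 : r' - r ≤ (r' - r) * m1 r β M := le_mul_of_one_le_right h3 b1.1
  have h5 : (r' - r) * m1 r' β M ≤ (r' - r) * (2 * (M : ℝ) + 1) :=
    mul_le_mul_of_nonneg_left b2.2.1 h3
  have h6 : (r - r') * m1 r' β M = -((r' - r) * m1 r' β M) := by ring
  constructor
  · linarith
  · linarith

end SoftPoly
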