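import Pool.Agent.Helper839.SP.Defs
import Pool.Agent.Helper839.SP.P_Lam_step

set_option autoImplicit false

namespace SoftPoly
open scoped ENNReal BigOperators
open Filter Topology


theorem Lam_RR (s β : ℝ) (M : ℕ) : Lam (RR s β M) β M = s := by
  have hlip : LipschitzWith (2 * (M : NNReal) + 1) (fun r => Lam r β M) := by
    apply LipschitzWith.of_dist_le_mul
    intro a b
    have hc : ((2 * (M : NNReal) + 1 : NNReal) : ℝ) = 2 * (M : ℝ) + 1 := by push_cast; ring
    rw [hc, Real.dist_eq, Real.dist_eq]
    rcases le_total a b with hab | hab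
    · obtain ⟨h1, h2⟩ := Lam_step β M a b hab
      rw [abs_of_nonpos (by linarith), abs_of_nonpos (by linarith)]
      linarith
    · obtain ⟨h1, h2⟩ := Lam_step β M b a hab
      rw [abs_of_nonneg (by linarith), abs_of_nonneg (by linarith)]
      linarith
  have hcont : Continuous (fun r => Lam r β M) := hlip.continuous
  set d : ℝ := |s - Lam 0 β M| with hd
  have hd0 : 0 ≤ d := abs_nonneg _
  have h1 : Lam (-d) β M ≤ s := by
    have h2 := (Lam_step β M (-d) 0 (by linarith)).1
    have h3 := neg_abs_le (s - Lam 0 β M)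
    rw [← hd] at h3
    linarith
  have h2 : s ≤ Lam d β M := by
    have h2 := (Lam_step β M 0 d hd0).1
    have h3 := le_abs_self (s - Lam 0 β M)
    rw [← hd] at h3
    linarith
  obtain ⟨r0, -, hr0⟩ := intermediate_value_Icc (by linarith : -d ≤ d) hcont.continuousOn
    (⟨h1, h2⟩ : s ∈ Set.Icc (Lam (-d) β M) (Lam d β M))
  have hr0' : Lam r0 β M = s := hr0
  have hset : {r : ℝ | Lam r β M ≤ s} = Set.Iic r0 := by
    ext r
    rw [Set.mem_ofPred_eq, Set.mem_Iic]
    constructor
    · intro h
      by_contra hcon
      rw [not_le] at hcon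
      have h3 := (Lam_step β M r0 r hcon.le).1
      linarith
    · intro h
      have h3 := (Lam_step β M r r0 h).1
      linarith
  have hRR : RR s β M = r0 := by
    unfold RR
    rw [hset, csSup_Iic]
  rw [hRR]
  exact hr0'

end SoftPoly
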