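import Pool.Agent.Helper839.SP.Defs
import Pool.Agent.Helper839.SP.P_aE_basic
import Pool.Agent.Helper839.SP.P_pf_spec

set_option autoImplicit false

namespace SoftPoly
open scoped ENNReal BigOperators
open Filter Topology


theorem Lam_lower (r β : ℝ) (M : ℕ) : r - β ≤ Lam r β M := by
  have h := pf_spec r β M
  have h1 := h.ray (Pi.single 0 1)
  have h2 : ∑ i, ∑ j, (Pi.single 0 1 : Fin (M+1) → ℝ) i * AM r β M i j *
      (Pi.single 0 1 : Fin (M+1) → ℝ) j = AM r β M 0 0 := by
    rw [Finset.sum_eq_single 0]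
    · rw [Finset.sum_eq_single 0]
      · simp
      · intro b _ hb
        simp [Pi.single_eq_of_ne hb]
      · intro h; exact absurd (Finset.mem_univ _) h
    · intro b _ hb
      simp [Pi.single_eq_of_ne hb]
    · intro h; exact absurd (Finset.mem_univ _) h
  have h3 : ∑ i, (Pi.single 0 1 : Fin (M+1) → ℝ) i ^ 2 = 1 := by
    rw [Finset.sum_eq_single 0]
    · simp
    · intro b _ hb
      simp [Pi.single_eq_of_ne hb]
    · intro h; exact absurd (Finset.mem_univ _) h
  rw [h2, h3, mul_one] at h1
  have h4 : AM r β M 0 0 = Real.exp (r - β) := by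
    unfold AM aE
    simp
  rw [h4] at h1
  unfold Lam
  rw [Real.le_log_iff_exp_le h.lpos]
  exact h1

end SoftPoly
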