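import Pool.Agent.Helper839.SP.Defs
import Pool.Agent.Helper839.SP.P_aE_basic
import Pool.Agent.Helper839.SP.P_pf_spec

set_option autoImplicit false

namespace SoftPoly
open scoped ENNReal BigOperators
open Filter Topology


theorem Lam_mono_M (r β : ℝ) (M : ℕ) : Lam r β M ≤ Lam r β (M + 1) := by
  have h1 := pf_spec r β M
  have h2 := pf_spec r β (M + 1)
  unfold Lam
  apply Real.log_le_log h1.lpos
  let z : Fin (M + 1 + 1) → ℝ := fun i => if h : (i : ℕ) < M + 1 then xv r β M ⟨i, h⟩ else 0
  have z1 : ∀ i : Fin (M + 1), z i.castSucc = xv r β M i := by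
    intro i
    have hi : ((i.castSucc : Fin (M + 1 + 1)) : ℕ) < M + 1 := i.2
    simp only [z, dif_pos hi]
    rfl
  have z2 : z (Fin.last (M + 1)) = 0 := by simp [z]
  have hz := h2.ray z
  have e1 : ∑ i, z i ^ 2 = 1 := by
    rw [Fin.sum_univ_castSucc, z2]
    simp only [z1]
    rw [h1.norm]
    norm_num
  have e2 : ∑ i, ∑ j, z i * AM r β (M + 1) i j * z j = lam r β M := by
    rw [Fin.sum_univ_castSucc]
    simp only [z2, zero_mul, Finset.sum_const_zero, add_zero]
    have e3 : ∀ i : Fin (M + 1), ∑ j, z i.castSucc * AM r β (M + 1) i.castSucc j * z j =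
        xv r β M i * (lam r β M * xv r β M i) := by
      intro i
      rw [Fin.sum_univ_castSucc, z2, mul_zero, add_zero, ← h1.eig i, Finset.mul_sum]
      apply Finset.sum_congr rfl
      intro j _
      rw [z1, z1]
      simp only [AM, Matrix.of_apply, Fin.val_castSucc]
      ring
    simp only [e3]
    have : ∑ i, xv r β M i * (lam r β M * xv r β M i) = lam r β M * ∑ i, xv r β M i ^ 2 := by
      rw [Finset.mul_sum]
      apply Finset.sum_congr rfl
      intro i _
      ring
    rw [this, h1.norm, mul_one]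
  rw [e1, e2, mul_one] at hz
  exact hz

end SoftPoly
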