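import Pool.Agent.Helper839.SP.Defs
import Pool.Agent.Helper839.SP.P_aE_basic
import Pool.Agent.Helper839.SP.P_pf_spec

set_option autoImplicit false

namespace SoftPoly
open scoped ENNReal BigOperators
open Filter Topology


theorem Lam_upper_summ (β : ℝ) (hβ : 0 < β) :
    Summable (fun i : ℕ => (2 : ℝ) ^ i * Real.exp (-(β * (i : ℝ) ^ 2))) := by
  have h1 : Summable (fun n : ℕ => Real.exp ((1 + Real.log 2) ^ 2 / (4 * β)) * Real.exp (-(n : ℝ))) :=
    Summable.mul_left _ Real.summable_exp_neg_nat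
  refine Summable.of_nonneg_of_le (fun i => by positivity) (fun i => ?_) h1
  have h2 : (2 : ℝ) ^ i = Real.exp ((i : ℝ) * Real.log 2) := by
    rw [mul_comm, Real.exp_mul, Real.exp_log (by norm_num), Real.rpow_natCast]
  rw [h2, ← Real.exp_add, ← Real.exp_add]
  apply Real.exp_le_exp.mpr
  have h3 : (1 + Real.log 2) ^ 2 / (4 * β) + -(i : ℝ) - ((i : ℝ) * Real.log 2 + -(β * (i : ℝ) ^ 2))
      = β * ((i : ℝ) - (1 + Real.log 2) / (2 * β)) ^ 2 := by
    field_simp
    ring
  have h4 : 0 ≤ β * ((i : ℝ) - (1 + Real.log 2) / (2 * β)) ^ 2 := by positivity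
  linarith

theorem Lam_upper (β : ℝ) (hβ : 0 < β) :
    ∃ D : ℝ, ∀ (M : ℕ) (r : ℝ), r ≤ 0 → Lam r β M ≤ r + D := by
  have hsum := Lam_upper_summ β hβ
  set g : ℕ → ℝ := fun i => (2 : ℝ) ^ i * Real.exp (-(β * (i : ℝ) ^ 2)) with hg
  have hg0 : ∀ i, 0 ≤ g i := fun i => by simp only [hg]; positivity
  set S : ℝ := ∑' i, g i with hS
  have hS1 : 1 ≤ S := by
    have h := hsum.le_tsum 0 (fun i _ => hg0 i)
    have h0 : g 0 = 1 := by simp [hg]
    rw [h0] at h
    exact h
  refine ⟨Real.log (S ^ 2), ?_⟩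
  intro M r hr
  have hpf := pf_spec r β M
  set x := xv r β M with hx
  have hx1 : ∀ i, x i ≤ 1 := by
    intro i
    have h1 : x i ^ 2 ≤ 1 := by
      rw [← hpf.norm]
      exact Finset.single_le_sum (f := fun i => x i ^ 2) (fun j _ => sq_nonneg (x j))
        (Finset.mem_univ i)
    have h2 := hpf.xpos i
    nlinarith
  have hlam : lam r β M = ∑ i, ∑ j, x i * (AM r β M i j * x j) := by
    have h1 : ∀ i, ∑ j, x i * (AM r β M i j * x j) = lam r β M * x i ^ 2 := by
      intro i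
      rw [← Finset.mul_sum, hpf.eig i]
      ring
    simp only [h1]
    rw [← Finset.mul_sum, hpf.norm, mul_one]
  have hA : ∀ i j : Fin (M + 1), AM r β M i j ≤ Real.exp r * (g i * g j) := by
    intro i j
    have h1 := (aE_basic r β i j).2.2
    have h2 : AM r β M i j = aE r β i j := rfl
    rw [h2]
    refine h1.trans ?_
    have h3 : Real.exp (r * (((i : ℕ) : ℝ) + ((j : ℕ) : ℝ) + 1) -
        β * (((i : ℕ) : ℝ) + ((j : ℕ) : ℝ) + 1) ^ 2)
        ≤ Real.exp r * (Real.exp (-(β * ((i : ℕ) : ℝ) ^ 2)) * Real.exp (-(β * ((j : ℕ) : ℝ) ^ 2))) := by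
      rw [← Real.exp_add, ← Real.exp_add]
      apply Real.exp_le_exp.mpr
      have hi : (0 : ℝ) ≤ ((i : ℕ) : ℝ) := Nat.cast_nonneg _
      have hj : (0 : ℝ) ≤ ((j : ℕ) : ℝ) := Nat.cast_nonneg _
      have e1 : r * (((i : ℕ) : ℝ) + ((j : ℕ) : ℝ)) ≤ 0 :=
        mul_nonpos_of_nonpos_of_nonneg hr (by positivity)
      have e2 : 0 ≤ β * ((((i : ℕ) : ℝ) + ((j : ℕ) : ℝ) + 1) ^ 2 - ((i : ℕ) : ℝ) ^ 2
          - ((j : ℕ) : ℝ) ^ 2) := by
        apply mul_nonneg hβ.le
        nlinarith [mul_nonneg hi hj]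
      nlinarith
    calc (2 : ℝ) ^ ((i : ℕ) + (j : ℕ)) * Real.exp (r * (((i : ℕ) : ℝ) + ((j : ℕ) : ℝ) + 1) -
          β * (((i : ℕ) : ℝ) + ((j : ℕ) : ℝ) + 1) ^ 2)
        ≤ (2 : ℝ) ^ ((i : ℕ) + (j : ℕ)) * (Real.exp r * (Real.exp (-(β * ((i : ℕ) : ℝ) ^ 2)) *
          Real.exp (-(β * ((j : ℕ) : ℝ) ^ 2)))) :=
          mul_le_mul_of_nonneg_left h3 (by positivity)
      _ = Real.exp r * (g i * g j) := by
          simp only [hg]
          rw [pow_add]
          ring
  have hApos : ∀ i j : Fin (M + 1), 0 ≤ AM r β M i j := fun i j => (aE_basic r β i j).1.le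
  have hle : lam r β M ≤ Real.exp r * S ^ 2 := by
    rw [hlam]
    calc ∑ i, ∑ j, x i * (AM r β M i j * x j)
        ≤ ∑ i : Fin (M + 1), ∑ j : Fin (M + 1), Real.exp r * (g i * g j) := by
          refine Finset.sum_le_sum fun i _ => Finset.sum_le_sum fun j _ => ?_
          refine le_trans ?_ (hA i j)
          have h1 : AM r β M i j * x j ≤ AM r β M i j := by
            have := mul_le_mul_of_nonneg_left (hx1 j) (hApos i j)
            simpa using this
          have h0 : 0 ≤ AM r β M i j * x j := mul_nonneg (hApos i j) (hpf.xpos j).le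
          calc x i * (AM r β M i j * x j) ≤ 1 * (AM r β M i j * x j) :=
                mul_le_mul_of_nonneg_right (hx1 i) h0
            _ ≤ AM r β M i j := by rw [one_mul]; exact h1
      _ = Real.exp r * (∑ i : Fin (M + 1), g i) ^ 2 := by
          rw [sq, Finset.sum_mul_sum, Finset.mul_sum]
          refine Finset.sum_congr rfl fun i _ => ?_
          rw [Finset.mul_sum]
      _ ≤ Real.exp r * S ^ 2 := by
          refine mul_le_mul_of_nonneg_left ?_ (Real.exp_pos r).le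
          have h1 : ∑ i : Fin (M + 1), g i ≤ S := by
            rw [Fin.sum_univ_eq_sum_range (fun i => g i) (M + 1)]
            exact hsum.sum_le_tsum _ (fun i _ => hg0 i)
          have h0 : 0 ≤ ∑ i : Fin (M + 1), g i := Finset.sum_nonneg fun i _ => hg0 i
          exact pow_le_pow_left₀ h0 h1 2
  unfold Lam
  have hS2 : 0 < S ^ 2 := by positivity
  calc Real.log (lam r β M) ≤ Real.log (Real.exp r * S ^ 2) := Real.log_le_log hpf.lpos hle
    _ = r + Real.log (S ^ 2) := by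
        rw [Real.log_mul (Real.exp_pos r).ne' hS2.ne', Real.log_exp]

end SoftPoly
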