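import Pool.Agent.Helper839.SP.Defs

set_option autoImplicit false

namespace SoftPoly
open scoped ENNReal BigOperators
open Filter Topology


theorem prod_split_j17835 (K x : ℕ) (F : ℕ → ℕ) (hx : x ≤ K) :
    ∏ y ∈ Finset.range (K + 1), F y =
      (∏ y ∈ Finset.range x, F y) * F x * ∏ y ∈ Finset.Ico (x + 1) (K + 1), F y := by
  rw [← Finset.prod_range_mul_prod_Ico F (show x + 1 ≤ K + 1 by omega), Finset.prod_range_succ]

theorem PP_rec (K x : ℕ) (v : ℕ → ℕ) (hx : x ≤ K) (h0 : v 0 = 0) (hK : ∀ y, K < y → v y = 0) :
    PP K x v = (if x = K ∧ (∑ y ∈ Finset.range (K + 1), v y) = 0 then 1 else 0) + (if x < K then PP K (x + 1) v else 0) +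
      (if 0 < v x then PP K (x - 1) (Function.update v x (v x - 1)) else 0) := by
  obtain ⟨L, hL⟩ : ∃ L, L = ∏ y ∈ Finset.range x, Nat.choose (v y + v (y + 1) - 1) (v y) := ⟨_, rfl⟩
  obtain ⟨R, hR⟩ : ∃ R, R = ∏ y ∈ Finset.Ico (x + 1) (K + 1),
    Nat.choose (v y + v (y + 1)) (v y) := ⟨_, rfl⟩
  have h1 : PP K x v = L * Nat.choose (v x + v (x + 1)) (v x) * R := by
    unfold PP
    rw [prod_split_j17835 K x _ hx, hL, hR]
    congr 1
    · congr 1
      · exact Finset.prod_congr rfl fun y hy => if_pos (Finset.mem_range.1 hy)
      · exact if_neg (lt_irrefl x)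
    · refine Finset.prod_congr rfl fun y hy => if_neg ?_
      have := (Finset.mem_Ico.1 hy).1
      omega
  have h2 : PP K (x + 1) v = L * Nat.choose (v x + v (x + 1) - 1) (v x) * R := by
    unfold PP
    rw [prod_split_j17835 K x _ hx, hL, hR]
    congr 1
    · congr 1
      · exact Finset.prod_congr rfl fun y hy => if_pos (by have := Finset.mem_range.1 hy; omega)
      · exact if_pos (Nat.lt_succ_self x)
    · refine Finset.prod_congr rfl fun y hy => if_neg ?_
      have := (Finset.mem_Ico.1 hy).1
      omega
  have h3 : 0 < v x → PP K (x - 1) (Function.update v x (v x - 1)) =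
      L * Nat.choose (v x - 1 + v (x + 1)) (v x - 1) * R := by
    intro hv
    have hx0 : x ≠ 0 := by
      intro h
      rw [h, h0] at hv
      exact absurd hv (lt_irrefl 0)
    unfold PP
    rw [prod_split_j17835 K x _ hx, hL, hR]
    congr 1
    · congr 1
      · refine Finset.prod_congr rfl fun y hy => ?_
        have hyx := Finset.mem_range.1 hy
        have e1 : Function.update v x (v x - 1) y = v y :=
          Function.update_of_ne (by omega) _ _
        rw [e1]
        by_cases hy2 : y < x - 1
        · rw [if_pos hy2]
          have e2 : Function.update v x (v x - 1) (y + 1) = v (y + 1) :=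
            Function.update_of_ne (by omega) _ _
          rw [e2]
        · rw [if_neg hy2]
          have hyx2 : y + 1 = x := by omega
          rw [hyx2, Function.update_self]
          congr 1
          omega
      · rw [if_neg (by omega), Function.update_self]
        have e2 : Function.update v x (v x - 1) (x + 1) = v (x + 1) :=
          Function.update_of_ne (by omega) _ _
        rw [e2]
    · refine Finset.prod_congr rfl fun y hy => ?_
      have hy1 := (Finset.mem_Ico.1 hy).1
      rw [if_neg (by omega)]
      have e1 : Function.update v x (v x - 1) y = v y :=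
        Function.update_of_ne (by omega) _ _
      have e2 : Function.update v x (v x - 1) (y + 1) = v (y + 1) :=
        Function.update_of_ne (by omega) _ _
      rw [e1, e2]
  rcases hx.lt_or_eq with hxK | hxK
  · -- x < K
    rw [if_neg (by omega), if_pos hxK, h1, h2]
    by_cases ha : 0 < v x
    · rw [if_pos ha, h3 ha]
      have hp : Nat.choose (v x + v (x + 1)) (v x) =
          Nat.choose (v x + v (x + 1) - 1) (v x) + Nat.choose (v x - 1 + v (x + 1)) (v x - 1) := by
        obtain ⟨a, hav⟩ : ∃ a, v x = a + 1 := ⟨v x - 1, by omega⟩
        rw [hav]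
        have e1 : a + 1 + v (x + 1) = (a + v (x + 1)) + 1 := by omega
        have e2 : a + 1 + v (x + 1) - 1 = a + v (x + 1) := by omega
        have e3 : a + 1 - 1 = a := by omega
        rw [e2, e3, e1, Nat.choose_succ_succ, add_comm]
      rw [hp]
      ring
    · rw [if_neg ha]
      have ha0 : v x = 0 := by omega
      rw [ha0, Nat.choose_zero_right, Nat.choose_zero_right]
      ring
  · subst hxK
    have hb : v (x + 1) = 0 := hK _ (Nat.lt_succ_self x)
    rw [if_neg (lt_irrefl x), h1, hb]
    by_cases ha : 0 < v x
    · rw [if_pos ha, h3 ha, hb, add_zero, add_zero (v x - 1), Nat.choose_self, Nat.choose_self]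
      have hs : ¬ (x = x ∧ (∑ y ∈ Finset.range (x + 1), v y) = 0) := by
        rintro ⟨_, hs⟩
        rw [Finset.sum_eq_zero_iff] at hs
        have := hs x (Finset.mem_range.2 (Nat.lt_succ_self x))
        omega
      rw [if_neg hs]
      ring
    · have ha0 : v x = 0 := by omega
      rw [if_neg ha, ha0]
      have hR1 : R = 1 := by
        rw [hR]
        simp
      rw [hR1]
      by_cases hs : (∑ y ∈ Finset.range (x + 1), v y) = 0
      · rw [if_pos ⟨rfl, hs⟩]
        rw [Finset.sum_eq_zero_iff] at hs
        have hL1 : L = 1 := by
          rw [hL]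
          apply Finset.prod_eq_one
          intro y hy
          have hy' := Finset.mem_range.1 hy
          rw [hs y (Finset.mem_range.2 (by omega)), Nat.choose_zero_right]
        rw [hL1]
        simp
      · rw [if_neg (fun h => hs h.2)]
        have hL0 : L = 0 := by
          rw [hL]
          by_contra hne
          apply hs
          have hall : ∀ y, y < x → 0 < v y → 0 < v (y + 1) := by
            intro y hy hvy
            by_contra hv1
            apply hne
            refine Finset.prod_eq_zero (Finset.mem_range.2 hy) ?_
            have hv0 : v (y + 1) = 0 := by omega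
            rw [hv0, add_zero]
            exact Nat.choose_eq_zero_of_lt (by omega)
          have hprop : ∀ y, y ≤ x → 0 < v y → ∀ z, y ≤ z → z ≤ x → 0 < v z := by
            intro y _ hvy z hyz
            induction z, hyz using Nat.le_induction with
            | base => intro _; exact hvy
            | succ z hz ih =>
              intro hzx
              exact hall z (by omega) (ih (by omega))
          rw [Finset.sum_eq_zero_iff]
          intro y hy
          have hy' := Finset.mem_range.1 hy
          by_contra hvy
          have := hprop y (by omega) (by omega) x (by omega) le_rfl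
          omega
        rw [hL0]
        simp

end SoftPoly
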