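import Pool.Agent.Helper839.SP.Defs
import Pool.Agent.Helper839.SP.P_Lam_supp
import Pool.Agent.Helper839.SP.P_m_bounds
import Pool.Agent.Helper839.SP.P_Lam_RR

set_option autoImplicit false

namespace SoftPoly
open scoped ENNReal BigOperators
open Filter Topology


theorem RR_beta (s β β' : ℝ) (M : ℕ) :
    RR s β' M - RR s β M ≤ (β' - β) * (m2 (RR s β M) β M / m1 (RR s β M) β M) := by
  have h := Lam_supp (RR s β M) β (RR s β' M) β' M
  rw [Lam_RR, Lam_RR] at h
  have h1 : 0 < m1 (RR s β M) β M := lt_of_lt_of_le one_pos (m_bounds (RR s β M) β M).1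
  rw [← mul_div_assoc, le_div_iff₀ h1]
  linarith

end SoftPoly
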