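import Pool.Agent.Helper839.SP.Defs
import Pool.Agent.Helper839.SP.P_Lam_step
import Pool.Agent.Helper839.SP.P_Lam_RR

set_option autoImplicit false

namespace SoftPoly
open scoped ENNReal BigOperators
open Filter Topology


theorem RR_iff (s β r : ℝ) (M : ℕ) :
    (RR s β M ≤ r ↔ s ≤ Lam r β M) ∧ (r ≤ RR s β M ↔ Lam r β M ≤ s) := by
  have h0 := Lam_RR s β M
  refine ⟨⟨fun h => ?_, fun h => ?_⟩, ⟨fun h => ?_, fun h => ?_⟩⟩
  · have := (Lam_step β M _ _ h).1
    rw [h0] at this
    linarith
  · by_contra hc
    push Not at hc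
    have := (Lam_step β M _ _ hc.le).1
    rw [h0] at this
    linarith
  · have := (Lam_step β M _ _ h).1
    rw [h0] at this
    linarith
  · by_contra hc
    push Not at hc
    have := (Lam_step β M _ _ hc.le).1
    rw [h0] at this
    linarith

end SoftPoly
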