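import Pool.Agent.Helper839.SP.Defs

set_option autoImplicit false

namespace SoftPoly
open scoped ENNReal BigOperators
open Filter Topology


theorem cheb (N : ℕ) (α α' ρ : ℕ → ℝ) (hρ : ∀ n, 0 ≤ ρ n)
    (h : ∀ n k, n ≤ k → k < N → α k * α' n ≤ α n * α' k) :
    (∑ n ∈ Finset.range N, α n * ρ n * ((n : ℝ) + 1) ^ 2) *
      (∑ n ∈ Finset.range N, α' n * ρ n * ((n : ℝ) + 1)) ≤
    (∑ n ∈ Finset.range N, α' n * ρ n * ((n : ℝ) + 1) ^ 2) *
      (∑ n ∈ Finset.range N, α n * ρ n * ((n : ℝ) + 1)) := by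
  set T : ℕ → ℕ → ℝ := fun n k => ρ n * ρ k * ((n : ℝ) + 1) ^ 2 * ((k : ℝ) + 1) *
    (α' n * α k - α n * α' k) with hT
  have hdiff : (∑ n ∈ Finset.range N, α' n * ρ n * ((n : ℝ) + 1) ^ 2) *
      (∑ n ∈ Finset.range N, α n * ρ n * ((n : ℝ) + 1)) -
      (∑ n ∈ Finset.range N, α n * ρ n * ((n : ℝ) + 1) ^ 2) *
      (∑ n ∈ Finset.range N, α' n * ρ n * ((n : ℝ) + 1)) =
      ∑ n ∈ Finset.range N, ∑ k ∈ Finset.range N, T n k := by
    rw [Finset.sum_mul_sum, Finset.sum_mul_sum, ← Finset.sum_sub_distrib]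
    refine Finset.sum_congr rfl fun n _ => ?_
    rw [← Finset.sum_sub_distrib]
    refine Finset.sum_congr rfl fun k _ => ?_
    rw [hT]
    ring
  have hswap : ∑ n ∈ Finset.range N, ∑ k ∈ Finset.range N, T n k =
      ∑ n ∈ Finset.range N, ∑ k ∈ Finset.range N, T k n := Finset.sum_comm
  have hpos : ∀ n ∈ Finset.range N, ∀ k ∈ Finset.range N, 0 ≤ T n k + T k n := by
    intro n hn k hk
    have hn' := Finset.mem_range.mp hn
    have hk' := Finset.mem_range.mp hk
    have e : T n k + T k n = (ρ n * ρ k * (((n : ℝ) + 1) * ((k : ℝ) + 1))) *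
        (((n : ℝ) - k) * (α' n * α k - α n * α' k)) := by
      rw [hT]; ring
    rw [e]
    apply mul_nonneg
    · have := hρ n
      have := hρ k
      positivity
    · rcases le_total n k with h1 | h1
      · have h2 := h n k h1 hk'
        have h3 : (n : ℝ) ≤ k := by exact_mod_cast h1
        apply mul_nonneg_of_nonpos_of_nonpos
        · linarith
        · linarith
      · have h2 := h k n h1 hn'
        have h3 : (k : ℝ) ≤ n := by exact_mod_cast h1
        apply mul_nonneg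
        · linarith
        · linarith
  have hsum : 0 ≤ ∑ n ∈ Finset.range N, ∑ k ∈ Finset.range N, (T n k + T k n) :=
    Finset.sum_nonneg fun n hn => Finset.sum_nonneg fun k hk => hpos n hn k hk
  have h2 : ∑ n ∈ Finset.range N, ∑ k ∈ Finset.range N, (T n k + T k n) =
      ∑ n ∈ Finset.range N, ∑ k ∈ Finset.range N, T n k +
      ∑ n ∈ Finset.range N, ∑ k ∈ Finset.range N, T k n := by
    rw [← Finset.sum_add_distrib]
    refine Finset.sum_congr rfl fun n _ => ?_
    rw [← Finset.sum_add_distrib]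
  rw [h2, ← hswap] at hsum
  linarith

end SoftPoly
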