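import Pool.Agent.Helper839.SP.Defs

set_option autoImplicit false

namespace SoftPoly
open scoped ENNReal BigOperators
open Filter Topology


theorem clr_swap (s : Finset ℕ) (u v a b : ℕ → ℝ)
    (h : ∀ i j, i ≤ j → v i * u j ≤ u i * v j)
    (hab : ∀ i j, i ≤ j → a j * b i ≤ a i * b j) :
    (∑ i ∈ s, v i * a i) * (∑ j ∈ s, u j * b j) ≤
      (∑ i ∈ s, u i * a i) * (∑ j ∈ s, v j * b j) := by
  have h1 : (∑ i ∈ s, u i * a i) * (∑ j ∈ s, v j * b j) -
      (∑ i ∈ s, v i * a i) * (∑ j ∈ s, u j * b j) =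
      ∑ i ∈ s, ∑ j ∈ s, (u i * v j - v i * u j) * (a i * b j) := by
    rw [Finset.sum_mul_sum, Finset.sum_mul_sum, ← Finset.sum_sub_distrib]
    refine Finset.sum_congr rfl fun i _ => ?_
    rw [← Finset.sum_sub_distrib]
    refine Finset.sum_congr rfl fun j _ => ?_
    ring
  have h2 : ∑ i ∈ s, ∑ j ∈ s, (u i * v j - v i * u j) * (a i * b j) =
      ∑ i ∈ s, ∑ j ∈ s, (u j * v i - v j * u i) * (a j * b i) := by
    rw [Finset.sum_comm]
  have h3 : 0 ≤ ∑ i ∈ s, ∑ j ∈ s, (u i * v j - v i * u j) * (a i * b j - a j * b i) := by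
    refine Finset.sum_nonneg fun i _ => Finset.sum_nonneg fun j _ => ?_
    rcases le_total i j with hij | hij
    · exact mul_nonneg (sub_nonneg.2 (h i j hij)) (sub_nonneg.2 (hab i j hij))
    · have e1 := h j i hij
      have e2 := hab j i hij
      have e3 : (u i * v j - v i * u j) * (a i * b j - a j * b i) =
          (u j * v i - v j * u i) * (a j * b i - a i * b j) := by ring
      rw [e3]
      exact mul_nonneg (sub_nonneg.2 e1) (sub_nonneg.2 e2)
  have h4 : ∑ i ∈ s, ∑ j ∈ s, (u i * v j - v i * u j) * (a i * b j - a j * b i) =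
      (∑ i ∈ s, ∑ j ∈ s, (u i * v j - v i * u j) * (a i * b j)) +
      ∑ i ∈ s, ∑ j ∈ s, (u j * v i - v j * u i) * (a j * b i) := by
    rw [← Finset.sum_add_distrib]
    refine Finset.sum_congr rfl fun i _ => ?_
    rw [← Finset.sum_add_distrib]
    refine Finset.sum_congr rfl fun j _ => ?_
    ring
  rw [h4, ← h2, ← h1] at h3
  linarith

theorem clr_cv2 (c a : ℕ → ℝ) (n N : ℕ) (h : n < N) :
    cv2 c a n = ∑ i ∈ Finset.range N, (if i ≤ n then c (n - i) else 0) * a i := by
  have h1 : ∑ i ∈ Finset.range N, (if i ≤ n then c (n - i) else 0) * a i =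
      ∑ i ∈ Finset.range (n + 1), c (n - i) * a i := by
    have hs : Finset.range (n + 1) ⊆ Finset.range N := Finset.range_subset_range.2 h
    rw [← Finset.sum_subset hs]
    · refine Finset.sum_congr rfl fun i hi => ?_
      rw [if_pos (by have := Finset.mem_range.1 hi; omega)]
    · intro i _ hi
      rw [if_neg (by rw [Finset.mem_range] at hi; omega), zero_mul]
  rw [h1, ← Finset.sum_range_reflect]
  unfold cv2
  refine Finset.sum_congr rfl fun i hi => ?_
  have := Finset.mem_range.1 hi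
  have e1 : n + 1 - 1 - i = n - i := by omega
  have e2 : n - (n - i) = i := by omega
  rw [e1, e2]

theorem conv_lr (c a b : ℕ → ℝ) (hc0 : ∀ i, 0 ≤ c i)
    (hc : ∀ p q t, p + t ≤ q → c p * c q ≤ c (p + t) * c (q - t))
    (hab : ∀ i j, i ≤ j → a j * b i ≤ a i * b j) (n k : ℕ) (hnk : n ≤ k) :
    cv2 c a k * cv2 c b n ≤ cv2 c a n * cv2 c b k := by
  rw [clr_cv2 c a k (k + 1) (by omega), clr_cv2 c b n (k + 1) (by omega),
    clr_cv2 c a n (k + 1) (by omega), clr_cv2 c b k (k + 1) (by omega)]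
  refine clr_swap _ (fun i => if i ≤ n then c (n - i) else 0)
    (fun i => if i ≤ k then c (k - i) else 0) a b ?_ hab
  intro i j hij
  show (if i ≤ k then c (k - i) else 0) * (if j ≤ n then c (n - j) else 0) ≤
    (if i ≤ n then c (n - i) else 0) * (if j ≤ k then c (k - j) else 0)
  by_cases hj : j ≤ n
  · rw [if_pos hj, if_pos (by omega : i ≤ k), if_pos (by omega : i ≤ n), if_pos (by omega : j ≤ k)]
    have h1 := hc (n - j) (k - i) (j - i) (by omega)
    have e1 : n - j + (j - i) = n - i := by omega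
    have e2 : k - i - (j - i) = k - j := by omega
    rw [e1, e2] at h1
    linarith
  · rw [if_neg hj, mul_zero]
    apply mul_nonneg
    · split_ifs
      · exact hc0 _
      · exact le_rfl
    · split_ifs
      · exact hc0 _
      · exact le_rfl

end SoftPoly
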