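import Pool.Agent.Helper839.SP.Defs

set_option autoImplicit false

namespace SoftPoly
open scoped ENNReal BigOperators
open Filter Topology


theorem lr_of_adj (M : ℕ) (a b : ℕ → ℝ) (ha : ∀ i, i ≤ M → 0 < a i) (ha0 : ∀ i, M < i → a i = 0)
    (hb : ∀ i, i ≤ M → 0 < b i) (hb0 : ∀ i, M < i → b i = 0)
    (h : ∀ i, i + 1 ≤ M → a (i + 1) * b i ≤ a i * b (i + 1)) (i j : ℕ) (hij : i ≤ j) :
    a j * b i ≤ a i * b j := by
  by_cases hj : M < j
  · rw [ha0 j hj, hb0 j hj]; simp
  · have key : ∀ j, i ≤ j → j ≤ M → a j * b i ≤ a i * b j := by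
      intro j hij
      induction j, hij using Nat.le_induction with
      | base => intro _; exact le_rfl
      | succ j hij ih =>
        intro hjM
        have h1 := ih (by omega)
        have h2 := h j hjM
        have hbj := hb j (by omega)
        have hbi := hb i (by omega)
        have hbj1 := hb (j + 1) hjM
        have h3 : a (j + 1) * b i * b j ≤ a i * b (j + 1) * b j := by
          calc a (j + 1) * b i * b j = (a (j + 1) * b j) * b i := by ring
            _ ≤ (a j * b (j + 1)) * b i := mul_le_mul_of_nonneg_right h2 hbi.le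
            _ = (a j * b i) * b (j + 1) := by ring
            _ ≤ (a i * b j) * b (j + 1) := mul_le_mul_of_nonneg_right h1 hbj1.le
            _ = a i * b (j + 1) * b j := by ring
        exact le_of_mul_le_mul_right h3 hbj
    exact key j hij (by omega)

end SoftPoly
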