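import Pool.Agent.Helper839.SP.Defs

set_option autoImplicit false

namespace SoftPoly
open scoped ENNReal BigOperators
open Filter Topology

theorem lc_mul_cancel {a b c d e f : ℝ} (he : 0 < e) (hf : 0 < f) (h1 : 0 ≤ a) (h4 : 0 ≤ d)
    (hA : a * e ≤ c * f) (hB : f * b ≤ d * e) : a * b ≤ c * d := by
  -- a e ≤ c f, f b ≤ d e
  have h : (a * b) * (e * f) ≤ (c * d) * (e * f) := by
    calc (a * b) * (e * f) = (a * e) * (f * b) := by ring
      _ ≤ (a * e) * (d * e) := mul_le_mul_of_nonneg_left hB (mul_nonneg h1 he.le)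
      _ ≤ (c * f) * (d * e) := mul_le_mul_of_nonneg_right hA (mul_nonneg h4 he.le)
      _ = (c * d) * (e * f) := by ring
  exact le_of_mul_le_mul_right h (mul_pos he hf)

theorem lc_ratio (M : ℕ) (c : ℕ → ℝ) (hpos : ∀ i, i ≤ M → 0 < c i)
    (hlc : ∀ i, i + 2 ≤ M → c i * c (i + 2) ≤ c (i + 1) ^ 2) (i j : ℕ) (hij : i ≤ j) :
    j + 1 ≤ M → c i * c (j + 1) ≤ c (i + 1) * c j := by
  induction j, hij using Nat.le_induction with
  | base => intro _; rw [mul_comm]
  | succ j hij ih =>
    intro hj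
    have h1 := ih (by omega)
    have h2 := hlc j (by omega)
    exact lc_mul_cancel (hpos (j + 1) (by omega)) (hpos j (by omega)) (hpos i (by omega)).le
      (hpos (j + 1) (by omega)).le h1 (by rw [← sq]; exact h2)

theorem lc_gen (M : ℕ) (c : ℕ → ℝ) (hpos : ∀ i, i ≤ M → 0 < c i)
    (hlc : ∀ i, i + 2 ≤ M → c i * c (i + 2) ≤ c (i + 1) ^ 2) (a b : ℕ) (hab : a ≤ b) (t : ℕ) :
    b + t ≤ M → c a * c (b + t) ≤ c (a + t) * c b := by
  induction t with
  | zero => intro _; exact le_rfl
  | succ t ih =>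
    intro ht
    have h1 := ih (by omega)
    have h2 := lc_ratio M c hpos hlc (a + t) (b + t) (by omega) (by omega)
    have h3 := hpos (a + t) (by omega)
    have h4 := hpos (b + t) (by omega)
    have h5 := hpos a (by omega)
    have h6 := hpos b (by omega)
    have h7 := hpos (a + t + 1) (by omega)
    have h : (c a * c (b + t + 1)) * (c (b + t) * c (a + t)) ≤
        (c (a + t + 1) * c b) * (c (b + t) * c (a + t)) := by
      calc (c a * c (b + t + 1)) * (c (b + t) * c (a + t))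
            = (c a * c (b + t)) * (c (a + t) * c (b + t + 1)) := by ring
        _ ≤ (c a * c (b + t)) * (c (a + t + 1) * c (b + t)) :=
            mul_le_mul_of_nonneg_left h2 (mul_nonneg h5.le h4.le)
        _ ≤ (c (a + t) * c b) * (c (a + t + 1) * c (b + t)) :=
            mul_le_mul_of_nonneg_right h1 (mul_nonneg h7.le h4.le)
        _ = (c (a + t + 1) * c b) * (c (b + t) * c (a + t)) := by ring
    exact le_of_mul_le_mul_right h (mul_pos h4 h3)

theorem pf2_of_lc (M : ℕ) (c : ℕ → ℝ) (hpos : ∀ i, i ≤ M → 0 < c i) (h0 : ∀ i, M < i → c i = 0)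
    (hlc : ∀ i, i + 2 ≤ M → c i * c (i + 2) ≤ c (i + 1) ^ 2) (p q t : ℕ) (h : p + t ≤ q) :
    c p * c q ≤ c (p + t) * c (q - t) := by
  have hnn : ∀ i, 0 ≤ c i := fun i => by
    rcases Nat.lt_or_ge M i with h1 | h1
    · exact (h0 i h1).ge
    · exact (hpos i h1).le
  rcases Nat.lt_or_ge M q with hq | hq
  · rw [h0 q hq, mul_zero]
    exact mul_nonneg (hnn _) (hnn _)
  · have h1 := lc_gen M c hpos hlc p (q - t) (by omega) t (by omega)
    rwa [Nat.sub_add_cancel (by omega)] at h1

end SoftPoly
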