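import Pool.Agent.Helper839.SP.Defs
import Pool.Agent.Helper839.SP.P_pf2_of_lc
import Pool.Agent.Helper839.SP.P_lr_of_adj
import Pool.Agent.Helper839.SP.P_conv_lr

set_option autoImplicit false

namespace SoftPoly
open scoped ENNReal BigOperators
open Filter Topology


theorem cv2_lr (M : ℕ) (a b : ℕ → ℝ) (ha : ∀ i, i ≤ M → 0 < a i) (ha0 : ∀ i, M < i → a i = 0)
    (hb : ∀ i, i ≤ M → 0 < b i) (hb0 : ∀ i, M < i → b i = 0)
    (hla : ∀ i, i + 2 ≤ M → a i * a (i + 2) ≤ a (i + 1) ^ 2)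
    (hlb : ∀ i, i + 2 ≤ M → b i * b (i + 2) ≤ b (i + 1) ^ 2)
    (h : ∀ i, i + 1 ≤ M → a (i + 1) * b i ≤ a i * b (i + 1)) (n k : ℕ) (hnk : n ≤ k)
    (hk : k ≤ 2 * M) :
    cv2 a a k * cv2 b b n ≤ cv2 a a n * cv2 b b k := by
  have ha' : ∀ i, 0 ≤ a i := by
    intro i
    rcases le_or_gt i M with h1 | h1
    · exact (ha i h1).le
    · rw [ha0 i h1]
  have hb' : ∀ i, 0 ≤ b i := by
    intro i
    rcases le_or_gt i M with h1 | h1
    · exact (hb i h1).le
    · rw [hb0 i h1]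
  have hnn : ∀ (x y : ℕ → ℝ), (∀ i, 0 ≤ x i) → (∀ i, 0 ≤ y i) → ∀ m, 0 ≤ cv2 x y m := by
    intro x y hx hy m
    exact Finset.sum_nonneg fun i _ => mul_nonneg (hx i) (hy _)
  have hcomm : ∀ m, cv2 b a m = cv2 a b m := by
    intro m
    unfold cv2
    rw [← Finset.sum_flip (fun i => a i * b (m - i))]
    refine Finset.sum_congr rfl fun i hi => ?_
    have hi' : i ≤ m := by
      have := Finset.mem_range.1 hi
      omega
    have e : m - (m - i) = i := by omega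
    simp only [e]
    ring
  have hpos : ∀ m, m ≤ 2 * M → 0 < cv2 a b m := by
    intro m hm
    unfold cv2
    refine Finset.sum_pos' (fun i _ => mul_nonneg (ha' i) (hb' _)) ⟨m / 2, ?_, ?_⟩
    · rw [Finset.mem_range]; omega
    · exact mul_pos (ha _ (by omega)) (hb _ (by omega))
  have hlr := lr_of_adj M a b ha ha0 hb hb0 h
  have h1 := conv_lr a a b ha' (fun p q t hpq => pf2_of_lc M a ha ha0 hla p q t hpq) hlr n k hnk
  have h2 := conv_lr b a b hb' (fun p q t hpq => pf2_of_lc M b hb hb0 hlb p q t hpq) hlr n k hnk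
  rw [hcomm, hcomm] at h2
  have hCn := hpos n (hnk.trans hk)
  have hCk := hpos k hk
  have h3 : (cv2 a a k * cv2 a b n) * (cv2 a b k * cv2 b b n)
      ≤ (cv2 a a n * cv2 a b k) * (cv2 a b n * cv2 b b k) :=
    mul_le_mul h1 h2 (mul_nonneg hCk.le (hnn b b hb' hb' n))
      (mul_nonneg (hnn a a ha' ha' n) hCk.le)
  refine le_of_mul_le_mul_right ?_ (mul_pos hCn hCk)
  linarith

end SoftPoly
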