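import Pool.Agent.Helper839.SP.Defs
import Pool.Agent.Helper839.SP.P_pf_spec

set_option autoImplicit false

namespace SoftPoly
open scoped ENNReal BigOperators
open Filter Topology


theorem xe_basic (r β : ℝ) (M : ℕ) :
    (∀ i, i ≤ M → 0 < xe r β M i) ∧ (∀ i, M < i → xe r β M i = 0) ∧
      (∀ i : Fin (M + 1), xe r β M i = xv r β M i) ∧ (∀ i, xe r β M i ≤ 1) := by
  have h := pf_spec r β M
  have h1 : ∀ i : Fin (M + 1), xe r β M i = xv r β M i := by
    intro i
    unfold xe
    rw [dif_pos i.2]
  have h2 : ∀ i, M < i → xe r β M i = 0 := by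
    intro i hi
    unfold xe
    rw [dif_neg (by omega)]
  refine ⟨fun i hi => ?_, h2, h1, fun i => ?_⟩
  · have := h1 ⟨i, by omega⟩
    simp only at this
    rw [this]
    exact h.xpos _
  · by_cases hi : i < M + 1
    · have h3 := h1 ⟨i, hi⟩
      simp only at h3
      rw [h3]
      have h4 : xv r β M ⟨i, hi⟩ ^ 2 ≤ 1 := by
        rw [← h.norm]
        exact Finset.single_le_sum (f := fun j => xv r β M j ^ 2) (fun j _ => sq_nonneg _)
          (Finset.mem_univ _)
      have h5 := h.xpos ⟨i, hi⟩
      nlinarith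
    · rw [h2 i (by omega)]
      norm_num

end SoftPoly
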