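import Pool.Agent.Helper839.SP.Defs
import Pool.Agent.Helper839.SP.P_aE_basic
import Pool.Agent.Helper839.SP.P_xe_basic

set_option autoImplicit false

namespace SoftPoly
open scoped ENNReal BigOperators
open Filter Topology


theorem mom_conv_aux (M : ℕ) (f : ℕ → ℕ → ℝ) (h1 : ∀ i j, M < i → f i j = 0)
    (h2 : ∀ i j, M < j → f i j = 0) :
    ∑ n ∈ Finset.range (2 * M + 1), ∑ i ∈ Finset.range (n + 1), f i (n - i) =
      ∑ i ∈ Finset.range (M + 1), ∑ j ∈ Finset.range (M + 1), f i j := by
  rw [Finset.sum_range_diag_flip]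
  rw [← Finset.sum_subset (s₁ := Finset.range (M + 1)) (s₂ := Finset.range (2 * M + 1))]
  · apply Finset.sum_congr rfl
    intro i hi
    rw [Finset.mem_range] at hi
    symm
    apply Finset.sum_subset
    · intro j hj
      rw [Finset.mem_range] at *
      omega
    · intro j _ hj
      rw [Finset.mem_range] at hj
      exact h2 i j (by omega)
  · intro j hj
    rw [Finset.mem_range] at *
    omega
  · intro i _ hi
    rw [Finset.mem_range] at hi
    apply Finset.sum_eq_zero
    intro j _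
    exact h1 i j (by omega)

theorem mom_conv (r β : ℝ) (M : ℕ) (F : ℝ → ℝ) :
    ∑ i, ∑ j, xv r β M i * AM r β M i j * xv r β M j * F ((i : ℝ) + (j : ℝ) + 1) =
      Real.exp r * ∑ n ∈ Finset.range (2 * M + 1), cv2 (aa r β M) (aa r β M) n *
        ((Nat.factorial n : ℝ) * Real.exp (-β * ((n : ℝ) + 1) ^ 2)) * F ((n : ℝ) + 1) := by
  obtain ⟨_, hx0, hxv, _⟩ := xe_basic r β M
  have haa0 : ∀ i, M < i → aa r β M i = 0 := by
    intro i hi
    simp [aa, hx0 i hi]
  -- the summand
  have hterm : ∀ i j : ℕ, xe r β M i * aE r β i j * xe r β M j * F ((i : ℝ) + (j : ℝ) + 1) =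
      Real.exp r * (aa r β M i * aa r β M j *
        ((Nat.factorial (i + j) : ℝ) * Real.exp (-β * (((i + j : ℕ) : ℝ) + 1) ^ 2)) *
          F (((i + j : ℕ) : ℝ) + 1)) := by
    intro i j
    have hch : ((i + j).choose i : ℝ) * (Nat.factorial i : ℝ) * (Nat.factorial j : ℝ) =
        (Nat.factorial (i + j) : ℝ) := by
      rw [Nat.choose_symm_add]
      exact_mod_cast Nat.add_choose_mul_factorial_mul_factorial i j
    have hi : (Nat.factorial i : ℝ) ≠ 0 := by exact_mod_cast Nat.factorial_ne_zero i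
    have hj : (Nat.factorial j : ℝ) ≠ 0 := by exact_mod_cast Nat.factorial_ne_zero j
    have hexp : Real.exp (r * ((i : ℝ) + j + 1) - β * ((i : ℝ) + j + 1) ^ 2) =
        Real.exp r * Real.exp (r * (i : ℝ)) * Real.exp (r * (j : ℝ)) *
          Real.exp (-β * ((i : ℝ) + j + 1) ^ 2) := by
      rw [← Real.exp_add, ← Real.exp_add, ← Real.exp_add]
      congr 1
      ring
    rw [← hch]
    unfold aE aa
    push_cast
    rw [hexp]
    field_simp
  have hL : ∑ i, ∑ j, xv r β M i * AM r β M i j * xv r β M j * F ((i : ℝ) + (j : ℝ) + 1) =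
      ∑ i ∈ Finset.range (M + 1), ∑ j ∈ Finset.range (M + 1),
        xe r β M i * aE r β i j * xe r β M j * F ((i : ℝ) + (j : ℝ) + 1) := by
    rw [← Fin.sum_univ_eq_sum_range (fun i => ∑ j ∈ Finset.range (M + 1),
        xe r β M i * aE r β i j * xe r β M j * F ((i : ℝ) + (j : ℝ) + 1))]
    apply Finset.sum_congr rfl
    intro i _
    rw [← Fin.sum_univ_eq_sum_range (fun j =>
        xe r β M i * aE r β i j * xe r β M j * F (((i : ℕ) : ℝ) + (j : ℝ) + 1))]
    apply Finset.sum_congr rfl
    intro j _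
    rw [hxv i, hxv j]
    rfl
  rw [hL]
  simp only [hterm, ← Finset.mul_sum]
  congr 1
  rw [← mom_conv_aux M (fun i j => aa r β M i * aa r β M j *
        ((Nat.factorial (i + j) : ℝ) * Real.exp (-β * (((i + j : ℕ) : ℝ) + 1) ^ 2)) *
          F (((i + j : ℕ) : ℝ) + 1)) (fun i j hi => by simp [haa0 i hi])
          (fun i j hj => by simp [haa0 j hj])]
  apply Finset.sum_congr rfl
  intro n _
  unfold cv2
  rw [Finset.sum_mul, Finset.sum_mul]
  apply Finset.sum_congr rfl
  intro i hi
  rw [Finset.mem_range] at hi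
  have : i + (n - i) = n := by omega
  simp only [this]

end SoftPoly
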