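import Pool.Agent.Helper839.SP.Defs
import Pool.Agent.Helper839.SP.P_aE_basic

set_option autoImplicit false

namespace SoftPoly
open scoped ENNReal BigOperators
open Filter Topology


theorem itv_XI_succ (r β : ℝ) (M m : ℕ) (i : Fin (M + 1)) :
    itv r β M (m + 1) i = ∑ j : Fin (M + 1), aE r β i j * itv r β M m j := by
  unfold itv
  rw [pow_succ', ← Matrix.mulVec_mulVec]
  rfl

theorem itv_XI (r β : ℝ) (M m : ℕ) (i : Fin (M + 1)) :
    itv r β M m i = XI r β (M + 1) m i ∧ 0 < XI r β (M + 1) m i := by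
  induction m generalizing i with
  | zero =>
    have h1 : XI r β (M + 1) 0 i = 1 := rfl
    have h2 : itv r β M 0 i = 1 := by
      unfold itv
      rw [pow_zero, Matrix.one_mulVec]
    rw [h1, h2]
    exact ⟨rfl, one_pos⟩
  | succ m ih =>
    have h1 : XI r β (M + 1) (m + 1) i =
        ∑ j : Fin (M + 1), aE r β i j * XI r β (M + 1) m j := by
      show ∑ j ∈ Finset.range (M + 1), aE r β i j * XI r β (M + 1) m j = _
      rw [Finset.sum_range]
    refine ⟨?_, ?_⟩
    · rw [h1, itv_XI_succ]
      exact Finset.sum_congr rfl fun j _ => by rw [(ih j).1]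
    · rw [h1]
      exact Finset.sum_pos (fun j _ => mul_pos (aE_basic r β i j).1 (ih j).2) ⟨0, Finset.mem_univ _⟩

end SoftPoly
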