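import Pool.Agent.Helper839.SP.Defs
import Pool.Agent.Helper839.SP.P_pf_spec
import Pool.Agent.Helper839.SP.P_itv_XI
import Pool.Agent.Helper839.SP.P_xe_basic

set_option autoImplicit false

namespace SoftPoly
open scoped ENNReal BigOperators
open Filter Topology


theorem ratio_lim (r β : ℝ) (M i j : ℕ) (hi : i ≤ M) (hj : j ≤ M) :
    Tendsto (fun m : ℕ => XI r β (M + 1) m i / XI r β (M + 1) m j) atTop
      (𝓝 (xe r β M i / xe r β M j)) := by
  have h := (pf_spec r β M).conv (fun _ => 1) (fun _ => one_pos)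
    ⟨i, Nat.lt_succ_of_le hi⟩ ⟨j, Nat.lt_succ_of_le hj⟩
  have h1 := (xe_basic r β M).2.2.1 ⟨i, Nat.lt_succ_of_le hi⟩
  have h2 := (xe_basic r β M).2.2.1 ⟨j, Nat.lt_succ_of_le hj⟩
  simp only at h1 h2
  rw [h1, h2]
  refine h.congr fun m => ?_
  have e1 := (itv_XI r β M m ⟨i, Nat.lt_succ_of_le hi⟩).1
  have e2 := (itv_XI r β M m ⟨j, Nat.lt_succ_of_le hj⟩).1
  unfold itv at e1 e2
  simp only at e1 e2
  rw [e1, e2]

end SoftPoly
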