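import Pool.Agent.Helper839.SP.Defs
import Pool.Agent.Helper839.SP.P_itv_XI
import Pool.Agent.Helper839.SP.P_xe_basic
import Pool.Agent.Helper839.SP.P_ratio_lim

set_option autoImplicit false

namespace SoftPoly
open scoped ENNReal BigOperators
open Filter Topology


theorem xe_core (β C : ℝ) (hC : Core β C) (M : ℕ) :
    (∀ (r : ℝ) (i : ℕ), i + 2 ≤ M → xe r β M i * xe r β M (i + 2) ≤ xe r β M (i + 1) ^ 2) ∧
    (∀ (r r' : ℝ) (i : ℕ), r ≤ r' → i + 1 ≤ M →
      xe r β M (i + 1) * xe r' β M i ≤ Real.exp (r' - r) * (xe r' β M (i + 1) * xe r β M i)) ∧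
    (∀ (r r' : ℝ) (i : ℕ), r ≤ r' → i + 1 ≤ M →
      Real.exp (r' - r) * (xe r' β M (i + 1) * xe r β M i) ≤
        Real.exp (C * (r' - r)) * (xe r β M (i + 1) * xe r' β M i)) := by
  have hX : ∀ (r : ℝ) (m i : ℕ), i ≤ M → 0 < XI r β (M + 1) m i := fun r m i hi =>
    (itv_XI r β M m ⟨i, by omega⟩).2
  have hx : ∀ (r : ℝ) (i : ℕ), i ≤ M → 0 < xe r β M i := fun r i hi => (xe_basic r β M).1 i hi
  refine ⟨?_, ?_, ?_⟩
  · intro r i hi
    have h1 := (ratio_lim r β M i (i + 1) (by omega) (by omega)).mul
      (ratio_lim r β M (i + 2) (i + 1) (by omega) (by omega))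
    have h2 : xe r β M i / xe r β M (i + 1) * (xe r β M (i + 2) / xe r β M (i + 1)) ≤ 1 := by
      refine le_of_tendsto' h1 fun m => ?_
      have hp := hX r m (i + 1) (by omega)
      rw [div_mul_div_comm, div_le_one (by positivity)]
      have := hC.lc r (M + 1) m i (by omega)
      nlinarith
    have hp := hx r (i + 1) (by omega)
    rw [div_mul_div_comm, div_le_one (by positivity)] at h2
    nlinarith
  · intro r r' i hr hi
    have h1 := ratio_lim r β M (i + 1) i (by omega) (by omega)
    have h2 := (ratio_lim r' β M (i + 1) i (by omega) (by omega)).const_mul (Real.exp (r' - r))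
    have h3 := le_of_tendsto_of_tendsto' h1 h2 fun m => by
      have hp := hX r m i (by omega)
      have hp' := hX r' m i (by omega)
      rw [← mul_div_assoc, div_le_div_iff₀ hp hp']
      have := hC.mlr r r' (M + 1) m i hr (by omega)
      linarith
    have hp := hx r i (by omega)
    have hp' := hx r' i (by omega)
    rw [← mul_div_assoc, div_le_div_iff₀ hp hp'] at h3
    linarith
  · intro r r' i hr hi
    have h1 := (ratio_lim r β M (i + 1) i (by omega) (by omega)).const_mul
      (Real.exp (C * (r' - r)))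
    have h2 := (ratio_lim r' β M (i + 1) i (by omega) (by omega)).const_mul (Real.exp (r' - r))
    have h3 := le_of_tendsto_of_tendsto' h2 h1 fun m => by
      have hp := hX r m i (by omega)
      have hp' := hX r' m i (by omega)
      rw [← mul_div_assoc, ← mul_div_assoc, div_le_div_iff₀ hp' hp]
      have := hC.up r r' (M + 1) m i hr (by omega)
      linarith
    have hp := hx r i (by omega)
    have hp' := hx r' i (by omega)
    rw [← mul_div_assoc, ← mul_div_assoc, div_le_div_iff₀ hp' hp] at h3
    linarith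

end SoftPoly
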