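import Pool.Agent.Helper839.SP.Defs
import Pool.Agent.Helper839.SP.P_pf_spec
import Pool.Agent.Helper839.SP.P_m_bounds
import Pool.Agent.Helper839.SP.P_xe_basic
import Pool.Agent.Helper839.SP.P_xe_core
import Pool.Agent.Helper839.SP.P_cv2_lr
import Pool.Agent.Helper839.SP.P_cheb
import Pool.Agent.Helper839.SP.P_mom_conv

set_option autoImplicit false

namespace SoftPoly
open scoped ENNReal BigOperators
open Filter Topology


theorem aa_pos_h154 (r β : ℝ) (M i : ℕ) (hi : i ≤ M) : 0 < aa r β M i := by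
  unfold aa
  have := (xe_basic r β M).1 i hi
  positivity

theorem aa_zero_h154 (r β : ℝ) (M i : ℕ) (hi : M < i) : aa r β M i = 0 := by
  unfold aa
  rw [(xe_basic r β M).2.1 i hi]
  simp

theorem aa_lc_h154 (β C : ℝ) (hC : Core β C) (M : ℕ) (r : ℝ) (i : ℕ) (hi : i + 2 ≤ M) :
    aa r β M i * aa r β M (i + 2) ≤ aa r β M (i + 1) ^ 2 := by
  unfold aa
  have h1 := (xe_core β C hC M).1 r i hi
  have p0 := (xe_basic r β M).1 i (by omega)
  have p1 := (xe_basic r β M).1 (i + 1) (by omega)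
  have p2 := (xe_basic r β M).1 (i + 2) (by omega)
  have e1 : Real.exp (r * (i : ℝ)) * Real.exp (r * ((i + 2 : ℕ) : ℝ)) =
      Real.exp (r * ((i + 1 : ℕ) : ℝ)) ^ 2 := by
    rw [← Real.exp_add, pow_two, ← Real.exp_add]
    congr 1
    push_cast
    ring
  have f0 : (0 : ℝ) < (Nat.factorial i : ℝ) := by positivity
  have f1 : ((Nat.factorial (i + 1) : ℕ) : ℝ) = ((i : ℝ) + 1) * (Nat.factorial i : ℝ) := by
    rw [Nat.factorial_succ]; push_cast; ring
  have f2 : ((Nat.factorial (i + 2) : ℕ) : ℝ) = ((i : ℝ) + 2) * (((i : ℝ) + 1) * (Nat.factorial i : ℝ)) := by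
    rw [Nat.factorial_succ, Nat.factorial_succ]; push_cast; ring
  have i0 : (0 : ℝ) ≤ (i : ℝ) := Nat.cast_nonneg i
  calc xe r β M i * Real.exp (r * (i : ℝ)) / (Nat.factorial i : ℝ) *
        (xe r β M (i + 2) * Real.exp (r * ((i + 2 : ℕ) : ℝ)) / (Nat.factorial (i + 2) : ℝ))
      = (xe r β M i * xe r β M (i + 2)) *
        (Real.exp (r * (i : ℝ)) * Real.exp (r * ((i + 2 : ℕ) : ℝ))) /
          ((Nat.factorial i : ℝ) * (Nat.factorial (i + 2) : ℝ)) := by ring
    _ = (xe r β M i * xe r β M (i + 2)) * Real.exp (r * ((i + 1 : ℕ) : ℝ)) ^ 2 /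
          ((Nat.factorial i : ℝ) * (Nat.factorial (i + 2) : ℝ)) := by rw [e1]
    _ ≤ xe r β M (i + 1) ^ 2 * Real.exp (r * ((i + 1 : ℕ) : ℝ)) ^ 2 /
          ((Nat.factorial (i + 1) : ℝ) * (Nat.factorial (i + 1) : ℝ)) := by
        apply div_le_div₀
        · positivity
        · exact mul_le_mul_of_nonneg_right h1 (by positivity)
        · positivity
        · rw [f1, f2]
          nlinarith [mul_pos f0 f0, mul_nonneg i0 (mul_pos f0 f0).le]
    _ = (xe r β M (i + 1) * Real.exp (r * ((i + 1 : ℕ) : ℝ)) / (Nat.factorial (i + 1) : ℝ)) ^ 2 := by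
        ring

theorem aa_ratio_h154 (β C : ℝ) (hC : Core β C) (M : ℕ) (r r' : ℝ) (h : r ≤ r') (i : ℕ)
    (hi : i + 1 ≤ M) :
    aa r β M (i + 1) * aa r' β M i ≤ aa r β M i * aa r' β M (i + 1) := by
  unfold aa
  have h1 := (xe_core β C hC M).2.1 r r' i h hi
  have e1 : Real.exp (r * ((i + 1 : ℕ) : ℝ)) = Real.exp (r * (i : ℝ)) * Real.exp r := by
    rw [← Real.exp_add]; congr 1; push_cast; ring
  have e2 : Real.exp (r' * ((i + 1 : ℕ) : ℝ)) = Real.exp (r' * (i : ℝ)) * Real.exp r' := by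
    rw [← Real.exp_add]; congr 1; push_cast; ring
  have e3 : Real.exp (r' - r) * Real.exp r = Real.exp r' := by
    rw [← Real.exp_add]; congr 1; ring
  rw [e1, e2]
  have f0 : (0 : ℝ) < (Nat.factorial i : ℝ) := by positivity
  have f1 : (0 : ℝ) < (Nat.factorial (i + 1) : ℝ) := by positivity
  have h2 : xe r β M (i + 1) * xe r' β M i * Real.exp r ≤
      xe r' β M (i + 1) * xe r β M i * Real.exp r' := by
    calc xe r β M (i + 1) * xe r' β M i * Real.exp r
        ≤ Real.exp (r' - r) * (xe r' β M (i + 1) * xe r β M i) * Real.exp r :=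
          mul_le_mul_of_nonneg_right h1 (Real.exp_pos _).le
      _ = xe r' β M (i + 1) * xe r β M i * (Real.exp (r' - r) * Real.exp r) := by ring
      _ = _ := by rw [e3]
  have h3 : 0 ≤ Real.exp (r * (i : ℝ)) * Real.exp (r' * (i : ℝ)) /
      ((Nat.factorial i : ℝ) * (Nat.factorial (i + 1) : ℝ)) := by positivity
  calc xe r β M (i + 1) * (Real.exp (r * (i : ℝ)) * Real.exp r) / (Nat.factorial (i + 1) : ℝ) *
        (xe r' β M i * Real.exp (r' * (i : ℝ)) / (Nat.factorial i : ℝ))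
      = (xe r β M (i + 1) * xe r' β M i * Real.exp r) *
        (Real.exp (r * (i : ℝ)) * Real.exp (r' * (i : ℝ)) /
      ((Nat.factorial i : ℝ) * (Nat.factorial (i + 1) : ℝ))) := by
        field_simp
    _ ≤ (xe r' β M (i + 1) * xe r β M i * Real.exp r') *
        (Real.exp (r * (i : ℝ)) * Real.exp (r' * (i : ℝ)) /
      ((Nat.factorial i : ℝ) * (Nat.factorial (i + 1) : ℝ))) := mul_le_mul_of_nonneg_right h2 h3
    _ = _ := by field_simp

theorem q_mono (β C : ℝ) (hC : Core β C) (M : ℕ) (r r' : ℝ) (h : r ≤ r') :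
    m2 r β M / m1 r β M ≤ m2 r' β M / m1 r' β M := by
  set ρ : ℕ → ℝ := fun n => (Nat.factorial n : ℝ) * Real.exp (-β * ((n : ℝ) + 1) ^ 2) with hρ
  have key : ∀ q : ℝ, m1 q β M = Real.exp q / lam q β M * (∑ n ∈ Finset.range (2 * M + 1),
        cv2 (aa q β M) (aa q β M) n * ρ n * ((n : ℝ) + 1)) ∧
      m2 q β M = Real.exp q / lam q β M * (∑ n ∈ Finset.range (2 * M + 1),
        cv2 (aa q β M) (aa q β M) n * ρ n * ((n : ℝ) + 1) ^ 2) := by
    intro q
    constructor
    · unfold m1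
      have := mom_conv q β M (fun x => x)
      beta_reduce at this
      rw [this]
      ring
    · unfold m2
      have := mom_conv q β M (fun x => x ^ 2)
      beta_reduce at this
      rw [this]
      ring
  have hl : ∀ q : ℝ, 0 < lam q β M := fun q => (pf_spec q β M).lpos
  have hS : ∀ q : ℝ, 0 < (∑ n ∈ Finset.range (2 * M + 1),
        cv2 (aa q β M) (aa q β M) n * ρ n * ((n : ℝ) + 1)) := by
    intro q
    have h1 := (m_bounds q β M).1
    have h2 : 0 < m1 q β M := by linarith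
    rw [(key q).1] at h2
    have h3 : 0 < Real.exp q / lam q β M := div_pos (Real.exp_pos _) (hl q)
    exact (pos_iff_pos_of_mul_pos h2).1 h3
  have hq : ∀ q : ℝ, m2 q β M / m1 q β M = (∑ n ∈ Finset.range (2 * M + 1),
        cv2 (aa q β M) (aa q β M) n * ρ n * ((n : ℝ) + 1) ^ 2) /
        (∑ n ∈ Finset.range (2 * M + 1),
        cv2 (aa q β M) (aa q β M) n * ρ n * ((n : ℝ) + 1)) := by
    intro q
    have h3 : Real.exp q / lam q β M ≠ 0 := (div_pos (Real.exp_pos _) (hl q)).ne'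
    rw [(key q).1, (key q).2, mul_div_mul_left _ _ h3]
  rw [hq r, hq r', div_le_div_iff₀ (hS r) (hS r')]
  refine cheb (2 * M + 1) (fun n => cv2 (aa r β M) (aa r β M) n)
    (fun n => cv2 (aa r' β M) (aa r' β M) n) ρ (fun n => by simp only [hρ]; positivity) ?_
  intro n k hnk hk
  exact cv2_lr M (aa r β M) (aa r' β M) (fun i hi => aa_pos_h154 r β M i hi)
    (fun i hi => aa_zero_h154 r β M i hi) (fun i hi => aa_pos_h154 r' β M i hi)
    (fun i hi => aa_zero_h154 r' β M i hi) (fun i hi => aa_lc_h154 β C hC M r i hi)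
    (fun i hi => aa_lc_h154 β C hC M r' i hi)
    (fun i hi => aa_ratio_h154 β C hC M r r' h i hi) n k hnk (by omega)

end SoftPoly
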