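import Pool.Agent.Helper839.SP.Defs

set_option autoImplicit false

namespace SoftPoly
open scoped ENNReal BigOperators
open Filter Topology


theorem telescope (f1 f2 q1 q2 : ℝ → ℝ) (b1 b2 B : ℝ) (hb : b1 ≤ b2)
    (hq : ∀ b, b1 ≤ b → b ≤ b2 → q1 b ≤ q2 b) (h0 : 0 ≤ q1 b2) (hB : q1 b1 ≤ B)
    (h1 : ∀ b b', b1 ≤ b → b ≤ b' → b' ≤ b2 → f1 b' - f1 b ≤ (b' - b) * q1 b)
    (h2 : ∀ b b', b1 ≤ b → b ≤ b' → b' ≤ b2 → (b' - b) * q2 b' ≤ f2 b' - f2 b) :
    f1 b2 - f1 b1 ≤ f2 b2 - f2 b1 := by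
  have key : ∀ n : ℕ, 1 ≤ n → f1 b2 - f1 b1 ≤ f2 b2 - f2 b1 + (b2 - b1) / n * B := by
    intro n hn
    have hn' : (0 : ℝ) < n := by exact_mod_cast hn
    set h : ℝ := (b2 - b1) / n with hh
    have hh0 : 0 ≤ h := div_nonneg (by linarith) hn'.le
    set β : ℕ → ℝ := fun k => b1 + k * h with hβ
    have hβ0 : β 0 = b1 := by simp [hβ]
    have hβn : β n = b2 := by simp only [hβ, hh]; field_simp; ring
    have hβs : ∀ k, β (k + 1) - β k = h := by intro k; simp only [hβ]; push_cast; ring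
    have hβ1 : ∀ k, b1 ≤ β k := by
      intro k
      have : 0 ≤ (k : ℝ) * h := by positivity
      simp only [hβ]; linarith
    have hβ2 : ∀ k, k ≤ n → β k ≤ b2 := by
      intro k hk
      rw [← hβn]
      have hk' : (k : ℝ) ≤ n := by exact_mod_cast hk
      have := mul_le_mul_of_nonneg_right hk' hh0
      simp only [hβ]; linarith
    have e1 := Finset.sum_range_sub (fun k => f1 (β k)) n
    have e2 := Finset.sum_range_sub (fun k => f2 (β k)) n
    have e3 := Finset.sum_range_sub (fun k => q1 (β k)) n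
    simp only [hβ0, hβn] at e1 e2 e3
    have l1 : ∑ k ∈ Finset.range n, (f1 (β (k + 1)) - f1 (β k)) ≤
        ∑ k ∈ Finset.range n, h * q1 (β k) := by
      refine Finset.sum_le_sum fun k hk => ?_
      have hk' := Finset.mem_range.1 hk
      have := h1 (β k) (β (k + 1)) (hβ1 k) (by have := hβs k; linarith) (hβ2 (k + 1) hk')
      rw [hβs k] at this
      exact this
    have l2 : ∑ k ∈ Finset.range n, h * q1 (β (k + 1)) ≤
        ∑ k ∈ Finset.range n, (f2 (β (k + 1)) - f2 (β k)) := by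
      refine Finset.sum_le_sum fun k hk => ?_
      have hk' := Finset.mem_range.1 hk
      have := h2 (β k) (β (k + 1)) (hβ1 k) (by have := hβs k; linarith) (hβ2 (k + 1) hk')
      rw [hβs k] at this
      refine le_trans ?_ this
      exact mul_le_mul_of_nonneg_left (hq _ (hβ1 _) (hβ2 (k + 1) hk')) hh0
    rw [Finset.sum_sub_distrib] at e3
    rw [← Finset.mul_sum] at l1 l2
    rw [e1] at l1
    rw [e2] at l2
    have e4 : h * ∑ k ∈ Finset.range n, q1 (β k) =
        h * ∑ k ∈ Finset.range n, q1 (β (k + 1)) - h * (q1 b2 - q1 b1) := by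
      rw [← e3]; ring
    have e5 : h * (q1 b1 - q1 b2) ≤ h * B := mul_le_mul_of_nonneg_left (by linarith) hh0
    linarith
  by_contra hcon
  push Not at hcon
  have hδ : 0 < (f1 b2 - f1 b1) - (f2 b2 - f2 b1) := by linarith
  obtain ⟨n, hn⟩ := exists_nat_gt (((b2 - b1) * |B|) / ((f1 b2 - f1 b1) - (f2 b2 - f2 b1)))
  have hn0 : (0 : ℝ) ≤ ((b2 - b1) * |B|) / ((f1 b2 - f1 b1) - (f2 b2 - f2 b1)) :=
    div_nonneg (mul_nonneg (by linarith) (abs_nonneg _)) hδ.le
  have hn1 : (0 : ℝ) < n := lt_of_le_of_lt hn0 hn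
  have hn2 : 1 ≤ n := by
    have : 0 < n := by exact_mod_cast hn1
    omega
  have h5 := key n hn2
  rw [div_lt_iff₀ hδ] at hn
  have h6 : (b2 - b1) / n * B ≤ (b2 - b1) / n * |B| :=
    mul_le_mul_of_nonneg_left (le_abs_self B) (div_nonneg (by linarith) hn1.le)
  have h7 : (b2 - b1) / n * |B| < (f1 b2 - f1 b1) - (f2 b2 - f2 b1) := by
    rw [div_mul_eq_mul_div, div_lt_iff₀ hn1]
    linarith
  linarith

end SoftPoly
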