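import Pool.Agent.Helper839.SP.Defs
import Pool.Agent.Helper839.SP.P_m_bounds
import Pool.Agent.Helper839.SP.P_q_mono
import Pool.Agent.Helper839.SP.P_Lam_step
import Pool.Agent.Helper839.SP.P_Lam_RR
import Pool.Agent.Helper839.SP.P_RR_iff
import Pool.Agent.Helper839.SP.P_RR_beta
import Pool.Agent.Helper839.SP.P_telescope

set_option autoImplicit false

namespace SoftPoly
open scoped ENNReal BigOperators
open Filter Topology


theorem RR_cross (M : ℕ) (s1 s2 b1 b2 : ℝ) (hs : s1 ≤ s2) (hb : 0 < b1) (hb' : b1 ≤ b2)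
    (hC : ∀ β : ℝ, 0 < β → ∃ C, Core β C) :
    RR s1 b2 M - RR s1 b1 M ≤ RR s2 b2 M - RR s2 b1 M := by
  refine telescope (fun b => RR s1 b M) (fun b => RR s2 b M)
    (fun b => m2 (RR s1 b M) b M / m1 (RR s1 b M) b M)
    (fun b => m2 (RR s2 b M) b M / m1 (RR s2 b M) b M) b1 b2
    (m2 (RR s1 b1 M) b1 M / m1 (RR s1 b1 M) b1 M) hb' ?_ ?_ le_rfl ?_ ?_
  · intro b h1 h2
    obtain ⟨C, hC'⟩ := hC b (lt_of_lt_of_le hb h1)
    apply q_mono b C hC' M
    rw [(RR_iff s2 b (RR s1 b M) M).2, Lam_RR]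
    exact hs
  · obtain ⟨h1, -, h2, -⟩ := m_bounds (RR s1 b2 M) b2 M
    exact div_nonneg (by linarith) (by linarith)
  · intro b b' _ _ _
    exact RR_beta s1 b b' M
  · intro b b' _ _ _
    have h := RR_beta s2 b' b M
    have h2 : (b - b') * (m2 (RR s2 b' M) b' M / m1 (RR s2 b' M) b' M) =
      -((b' - b) * (m2 (RR s2 b' M) b' M / m1 (RR s2 b' M) b' M)) := by ring
    rw [h2] at h
    show (b' - b) * (m2 (RR s2 b' M) b' M / m1 (RR s2 b' M) b' M) ≤ RR s2 b' M - RR s2 b M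
    linarith

end SoftPoly
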