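import Pool.Agent.Helper839.SP.Defs
import Pool.Agent.Helper839.SP.P_Lam_mono_M
import Pool.Agent.Helper839.SP.P_Lam_upper
import Pool.Agent.Helper839.SP.P_Lam_RR
import Pool.Agent.Helper839.SP.P_RR_iff

set_option autoImplicit false

namespace SoftPoly
open scoped ENNReal BigOperators
open Filter Topology


theorem RR_lim (s β : ℝ) (hβ : 0 < β) :
    Tendsto (fun M : ℕ => RR s β M) atTop (𝓝 (Rinf s β)) ∧ ∀ M, Rinf s β ≤ RR s β M := by
  have hanti : Antitone (fun M : ℕ => RR s β M) := by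
    apply antitone_nat_of_succ_le
    intro M
    rw [(RR_iff s β (RR s β M) (M + 1)).1]
    calc s = Lam (RR s β M) β M := (Lam_RR s β M).symm
      _ ≤ Lam (RR s β M) β (M + 1) := Lam_mono_M _ _ _
  obtain ⟨D, hD⟩ := Lam_upper β hβ
  have hbdd : BddBelow (Set.range (fun M : ℕ => RR s β M)) := by
    refine ⟨min 0 (s - D), ?_⟩
    rintro _ ⟨M, rfl⟩
    change min 0 (s - D) ≤ RR s β M
    rw [(RR_iff s β (min 0 (s - D)) M).2]
    have h1 := hD M (min 0 (s - D)) (min_le_left _ _)
    have h2 := min_le_right 0 (s - D)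
    linarith
  refine ⟨?_, ?_⟩
  · unfold Rinf
    exact tendsto_atTop_ciInf hanti hbdd
  · intro M
    unfold Rinf
    exact ciInf_le hbdd M

end SoftPoly
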