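import Pool.Agent.Helper839.SP.Defs
import Pool.Agent.Helper839.SP.P_aE_basic
import Pool.Agent.Helper839.SP.P_pf_spec
import Pool.Agent.Helper839.SP.P_m_bounds
import Pool.Agent.Helper839.SP.P_xe_basic
import Pool.Agent.Helper839.SP.P_xe_core

set_option autoImplicit false

namespace SoftPoly
open scoped ENNReal BigOperators
open Filter Topology


/-- the ratio of the Perron vectors, normalised at `0` -/
noncomputable def mrw (r r' β : ℝ) (M i : ℕ) : ℝ :=
  Real.exp ((r' - r) * i) * (xe r' β M i / xe r β M i) * (xe r β M 0 / xe r' β M 0)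

theorem mrw_bounds (β C : ℝ) (hC : Core β C) (M : ℕ) (r r' : ℝ) (h : r ≤ r') (i : ℕ)
    (hi : i ≤ M) : 1 ≤ mrw r r' β M i ∧ mrw r r' β M i ≤ Real.exp (C * ((r' - r) * i)) := by
  obtain ⟨-, c2, c3⟩ := xe_core β C hC M
  obtain ⟨hp, -, -, -⟩ := xe_basic r β M
  obtain ⟨hp', -, -, -⟩ := xe_basic r' β M
  induction i with
  | zero =>
    have h1 := (hp 0 (Nat.zero_le _)).ne'
    have h2 := (hp' 0 (Nat.zero_le _)).ne'
    have h3 : mrw r r' β M 0 = 1 := by
      unfold mrw
      rw [Nat.cast_zero, mul_zero, Real.exp_zero]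
      field_simp
    rw [h3]
    simp
  | succ i ih =>
    obtain ⟨i1, i2⟩ := ih (by omega)
    have p1 := hp i (by omega)
    have p2 := hp (i + 1) hi
    have p3 := hp' i (by omega)
    have p4 := hp' (i + 1) hi
    have q2 := c2 r r' i h hi
    have q3 := c3 r r' i h hi
    obtain ⟨ρ, hρ⟩ : ∃ ρ : ℝ, ρ = Real.exp (r' - r) * (xe r' β M (i + 1) * xe r β M i) /
        (xe r β M (i + 1) * xe r' β M i) := ⟨_, rfl⟩
    have hρ1 : 1 ≤ ρ := by
      rw [hρ, le_div_iff₀ (by positivity), one_mul]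
      exact q2
    have hρ2 : ρ ≤ Real.exp (C * (r' - r)) := by
      rw [hρ, div_le_iff₀ (by positivity)]
      exact q3
    have hstep : mrw r r' β M (i + 1) = ρ * mrw r r' β M i := by
      unfold mrw
      rw [hρ]
      have e1 : Real.exp ((r' - r) * ((i + 1 : ℕ) : ℝ)) =
          Real.exp (r' - r) * Real.exp ((r' - r) * i) := by
        rw [← Real.exp_add]
        congr 1
        push_cast
        ring
      rw [e1]
      field_simp
    rw [hstep]
    constructor
    · nlinarith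
    · have e2 : Real.exp (C * ((r' - r) * ((i + 1 : ℕ) : ℝ))) =
          Real.exp (C * (r' - r)) * Real.exp (C * ((r' - r) * i)) := by
        rw [← Real.exp_add]
        congr 1
        push_cast
        ring
      rw [e2]
      exact mul_le_mul hρ2 i2 (by linarith) (Real.exp_pos _).le

theorem mr_sum (r β : ℝ) (M : ℕ) :
    ∑ i, ∑ j, xv r β M i * AM r β M i j * xv r β M j = lam r β M := by
  have hs := pf_spec r β M
  have h1 : ∀ i, ∑ j, xv r β M i * AM r β M i j * xv r β M j = lam r β M * xv r β M i ^ 2 := by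
    intro i
    have h2 : ∑ j, xv r β M i * AM r β M i j * xv r β M j =
        xv r β M i * ∑ j, AM r β M i j * xv r β M j := by
      rw [Finset.mul_sum]
      exact Finset.sum_congr rfl fun j _ => by ring
    rw [h2, hs.eig i]
    ring
  simp only [h1]
  rw [← Finset.mul_sum, hs.norm, mul_one]

theorem m1_ratio (β C : ℝ) (hC : Core β C) (M : ℕ) (r r' : ℝ) (h : r ≤ r') (h1 : r' ≤ r + 1) :
    m1 r' β M ≤ m1 r β M + (r' - r) * (C * ((∑ i, ∑ j, xv r β M i * AM r β M i j * xv r β M j *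
        (((i : ℝ) + (j : ℝ) + 1) ^ 2 * Real.exp (C * ((i : ℝ) + (j : ℝ) + 1)))) / lam r β M)) := by
  obtain ⟨δ, hδ⟩ : ∃ δ : ℝ, δ = r' - r := ⟨_, rfl⟩
  have hδ0 : 0 ≤ δ := by linarith
  have hδ1 : δ ≤ 1 := by linarith
  have hC1 := hC.one_le
  have hs := pf_spec r β M
  have hs' := pf_spec r' β M
  obtain ⟨hp, -, hx, -⟩ := xe_basic r β M
  obtain ⟨hp', -, hx', -⟩ := xe_basic r' β M
  obtain ⟨P, hP⟩ : ∃ P : Fin (M + 1) → Fin (M + 1) → ℝ,
      P = fun i j => xv r β M i * AM r β M i j * xv r β M j := ⟨_, rfl⟩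
  obtain ⟨L, hL⟩ : ∃ L : Fin (M + 1) → Fin (M + 1) → ℝ,
      L = fun i j : Fin (M + 1) => (i : ℝ) + (j : ℝ) + 1 := ⟨_, rfl⟩
  obtain ⟨W, hW⟩ : ∃ W : Fin (M + 1) → Fin (M + 1) → ℝ,
      W = fun i j : Fin (M + 1) => mrw r r' β M i * mrw r r' β M j := ⟨_, rfl⟩
  obtain ⟨K, hK⟩ : ∃ K : ℝ, K = Real.exp δ * (xe r' β M 0 / xe r β M 0) ^ 2 := ⟨_, rfl⟩
  have h0p := hp 0 (Nat.zero_le _)
  have h0p' := hp' 0 (Nat.zero_le _)
  have hKp : 0 < K := by rw [hK]; positivity
  have hPp : ∀ i j, 0 < P i j := by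
    intro i j
    rw [hP]
    have h2 : 0 < AM r β M i j := (aE_basic r β i j).1
    exact mul_pos (mul_pos (hs.xpos i) h2) (hs.xpos j)
  have hL1 : ∀ i j, 1 ≤ L i j := by
    intro i j
    rw [hL]
    show (1 : ℝ) ≤ (i : ℝ) + (j : ℝ) + 1
    have h3 : (0 : ℝ) ≤ ((i : ℕ) : ℝ) := Nat.cast_nonneg _
    have h4 : (0 : ℝ) ≤ ((j : ℕ) : ℝ) := Nat.cast_nonneg _
    linarith
  have hWb : ∀ i j, 1 ≤ W i j ∧ W i j ≤ Real.exp (C * (δ * ((i : ℝ) + (j : ℝ)))) := by
    intro i j
    obtain ⟨a1, a2⟩ := mrw_bounds β C hC M r r' h i (by omega)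
    obtain ⟨b1, b2⟩ := mrw_bounds β C hC M r r' h j (by omega)
    rw [hW]
    constructor
    · show 1 ≤ mrw r r' β M i * mrw r r' β M j
      nlinarith
    · show mrw r r' β M i * mrw r r' β M j ≤ _
      refine (mul_le_mul a2 b2 (by linarith) (Real.exp_pos _).le).trans (le_of_eq ?_)
      rw [← Real.exp_add, hδ]
      congr 1
      ring
  -- the transformed weights
  have hP' : ∀ i j, xv r' β M i * AM r' β M i j * xv r' β M j = K * (P i j * W i j) := by
    intro i j
    have hA : AM r' β M i j = AM r β M i j * Real.exp (δ * ((i : ℝ) + (j : ℝ) + 1)) := by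
      show aE r' β i j = aE r β i j * _
      unfold aE
      rw [mul_assoc, ← Real.exp_add, hδ]
      congr 2
      ring
    have h3 := hp i (by omega)
    have h4 := hp j (by omega)
    have e1 : Real.exp (δ * ((i : ℝ) + (j : ℝ) + 1)) =
        Real.exp δ * Real.exp (δ * i) * Real.exp (δ * j) := by
      rw [← Real.exp_add, ← Real.exp_add]
      congr 1
      ring
    rw [hA, hK, hP, hW, e1]
    show _ = Real.exp δ * (xe r' β M 0 / xe r β M 0) ^ 2 * (xv r β M i * AM r β M i j * xv r β M j *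
      (mrw r r' β M i * mrw r r' β M j))
    unfold mrw
    rw [← hδ, ← hx i, ← hx j, ← hx' i, ← hx' j]
    field_simp
  obtain ⟨SW, hSW⟩ : ∃ SW : ℝ, SW = ∑ i, ∑ j, P i j * W i j := ⟨_, rfl⟩
  have hlam : lam r β M = ∑ i, ∑ j, P i j := by
    rw [← mr_sum r β M, hP]
  have hlam' : lam r' β M = K * SW := by
    rw [← mr_sum r' β M, hSW, Finset.mul_sum]
    refine Finset.sum_congr rfl fun i _ => ?_
    rw [Finset.mul_sum]
    exact Finset.sum_congr rfl fun j _ => hP' i j
  have hSWl : lam r β M ≤ SW := by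
    rw [hlam, hSW]
    refine Finset.sum_le_sum fun i _ => Finset.sum_le_sum fun j _ => ?_
    have := (hWb i j).1
    nlinarith [hPp i j]
  have hm' : m1 r' β M = (∑ i, ∑ j, P i j * W i j * L i j) / SW := by
    unfold m1
    have e1 : ∑ i, ∑ j, xv r' β M i * AM r' β M i j * xv r' β M j * ((i : ℝ) + (j : ℝ) + 1) =
        K * ∑ i, ∑ j, P i j * W i j * L i j := by
      rw [Finset.mul_sum]
      refine Finset.sum_congr rfl fun i _ => ?_
      rw [Finset.mul_sum]
      refine Finset.sum_congr rfl fun j _ => ?_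
      rw [hP' i j, hL]
      ring
    rw [e1, hlam', mul_div_mul_left _ _ hKp.ne']
  have hm : ∑ i, ∑ j, P i j * L i j = m1 r β M * lam r β M := by
    unfold m1
    rw [div_mul_cancel₀ _ hs.lpos.ne', hP, hL]
  obtain ⟨Q, hQ⟩ : ∃ Q : ℝ, Q = ∑ i, ∑ j, P i j * (L i j ^ 2 * Real.exp (C * L i j)) := ⟨_, rfl⟩
  have hQ0 : 0 ≤ Q := by
    rw [hQ]
    refine Finset.sum_nonneg fun i _ => Finset.sum_nonneg fun j _ => ?_
    have := hPp i j
    positivity
  have hgoalQ : ∑ i, ∑ j, xv r β M i * AM r β M i j * xv r β M j *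
      (((i : ℝ) + (j : ℝ) + 1) ^ 2 * Real.exp (C * ((i : ℝ) + (j : ℝ) + 1))) = Q := by
    rw [hQ, hP, hL]
  rw [hgoalQ, ← hδ, hm']
  have hpt : ∀ i j, P i j * W i j * L i j ≤
      P i j * L i j + δ * C * (P i j * (L i j ^ 2 * Real.exp (C * L i j))) := by
    intro i j
    obtain ⟨w1, w2⟩ := hWb i j
    have hLv : L i j = (i : ℝ) + (j : ℝ) + 1 := by rw [hL]
    obtain ⟨t, ht⟩ : ∃ t : ℝ, t = C * (δ * ((i : ℝ) + (j : ℝ))) := ⟨_, rfl⟩
    have hij : (0 : ℝ) ≤ (i : ℝ) + (j : ℝ) := by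
      have h3 : (0 : ℝ) ≤ ((i : ℕ) : ℝ) := Nat.cast_nonneg _
      have h4 : (0 : ℝ) ≤ ((j : ℕ) : ℝ) := Nat.cast_nonneg _
      linarith
    have ht0 : 0 ≤ t := by rw [ht]; positivity
    have hexp : Real.exp t - 1 ≤ t * Real.exp t := by
      have h5 := Real.add_one_le_exp (-t)
      have h6 : Real.exp (-t) * Real.exp t = 1 := by rw [← Real.exp_add]; simp
      nlinarith [Real.exp_pos t]
    have ht1 : t ≤ δ * C * L i j := by
      rw [ht, hLv]
      nlinarith [mul_nonneg hδ0 (by linarith : (0 : ℝ) ≤ C)]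
    have ht2 : t ≤ C * L i j := by
      refine ht1.trans ?_
      have : 0 ≤ C * L i j := mul_nonneg (by linarith) (by linarith [hL1 i j])
      nlinarith
    have h7 : W i j - 1 ≤ δ * C * L i j * Real.exp (C * L i j) := by
      rw [← ht] at w2
      calc W i j - 1 ≤ Real.exp t - 1 := by linarith
        _ ≤ t * Real.exp t := hexp
        _ ≤ δ * C * L i j * Real.exp (C * L i j) :=
          mul_le_mul ht1 (Real.exp_le_exp.2 ht2) (Real.exp_pos _).le (ht0.trans ht1)
    have h8 := mul_le_mul_of_nonneg_left h7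
      (mul_nonneg (hPp i j).le (by linarith [hL1 i j] : (0 : ℝ) ≤ L i j))
    calc P i j * W i j * L i j = P i j * L i j + P i j * L i j * (W i j - 1) := by ring
      _ ≤ P i j * L i j + P i j * L i j * (δ * C * L i j * Real.exp (C * L i j)) := by linarith
      _ = _ := by ring
  have hsum : ∑ i, ∑ j, P i j * W i j * L i j ≤ m1 r β M * lam r β M + δ * C * Q := by
    rw [← hm, hQ, Finset.mul_sum, ← Finset.sum_add_distrib]
    refine Finset.sum_le_sum fun i _ => ?_
    rw [Finset.mul_sum, ← Finset.sum_add_distrib]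
    exact Finset.sum_le_sum fun j _ => hpt i j
  have hlp := hs.lpos
  have hSWp : 0 < SW := lt_of_lt_of_le hlp hSWl
  have hm1 := (m_bounds r β M).1
  rw [div_le_iff₀ hSWp]
  have hD : 0 ≤ δ * (C * (Q / lam r β M)) := by positivity
  have hD2 : δ * (C * (Q / lam r β M)) * lam r β M = δ * C * Q := by
    field_simp
  calc ∑ i, ∑ j, P i j * W i j * L i j ≤ m1 r β M * lam r β M + δ * C * Q := hsum
    _ = (m1 r β M + δ * (C * (Q / lam r β M))) * lam r β M := by rw [add_mul, hD2]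
    _ ≤ _ := mul_le_mul_of_nonneg_left hSWl (by linarith)

end SoftPoly
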