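import Pool.Agent.Helper839.SP.Defs
import Pool.Agent.Helper839.SP.P_aE_basic
import Pool.Agent.Helper839.SP.P_pf_spec
import Pool.Agent.Helper839.SP.P_xe_basic

set_option autoImplicit false

namespace SoftPoly
open scoped ENNReal BigOperators
open Filter Topology


theorem mom_bound_term (β c : ℝ) (hβ : 0 < β) (r : ℝ) (hr : r ≤ β + 1) (i j : ℕ) (x y : ℝ)
    (hx : 0 < x) (hx1 : x ≤ 1) (hy : 0 < y) (hy1 : y ≤ 1) :
    x * aE r β i j * y * (((i : ℝ) + (j : ℝ) + 1) ^ 2 * Real.exp (c * ((i : ℝ) + (j : ℝ) + 1))) ≤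
      2 * Real.exp ((β + 4 + |c|) ^ 2 / (4 * β)) * (Real.exp (-1) ^ i * Real.exp (-1) ^ j) := by
  obtain ⟨ha0, -, ha1⟩ := aE_basic r β i j
  obtain ⟨L, hL⟩ : ∃ L : ℝ, L = (i : ℝ) + j + 1 := ⟨_, rfl⟩
  rw [← hL] at ha1 ⊢
  have hL1 : 1 ≤ L := by
    rw [hL]
    have := Nat.cast_nonneg (α := ℝ) i
    have := Nat.cast_nonneg (α := ℝ) j
    linarith
  have h1 : x * aE r β i j * y ≤ aE r β i j := by
    have e1 : x * aE r β i j ≤ aE r β i j := mul_le_of_le_one_left ha0.le hx1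
    have e2 : x * aE r β i j * y ≤ x * aE r β i j :=
      mul_le_of_le_one_right (mul_pos hx ha0).le hy1
    linarith
  have h2 : (2:ℝ) ^ (i + j) ≤ Real.exp L := by
    have e1 : (2:ℝ) ≤ Real.exp 1 := by
      have := Real.add_one_le_exp (1:ℝ)
      linarith
    calc (2:ℝ) ^ (i + j) ≤ Real.exp 1 ^ (i + j) := pow_le_pow_left₀ (by norm_num) e1 _
      _ = Real.exp ((i + j : ℕ) : ℝ) := by rw [← Real.exp_nat_mul, mul_one]
      _ ≤ Real.exp L := by
        apply Real.exp_le_exp.mpr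
        rw [hL]
        push_cast
        linarith
  have h3 : L ^ 2 ≤ 2 * Real.exp L := by
    have := Real.quadratic_le_exp_of_nonneg (show 0 ≤ L by linarith)
    nlinarith
  have h4 : L ^ 2 * Real.exp (c * L) ≤ 2 * Real.exp L * Real.exp (|c| * L) := by
    refine mul_le_mul h3 (Real.exp_le_exp.mpr ?_) (Real.exp_pos _).le (by positivity)
    exact mul_le_mul_of_nonneg_right (le_abs_self c) (by linarith)
  have h5 : aE r β i j ≤ Real.exp L * Real.exp ((β + 1) * L - β * L ^ 2) := by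
    refine ha1.trans (mul_le_mul h2 (Real.exp_le_exp.mpr ?_) (Real.exp_pos _).le
      (Real.exp_pos _).le)
    have := mul_le_mul_of_nonneg_right hr (show 0 ≤ L by linarith)
    linarith
  have h6 : 0 ≤ L ^ 2 * Real.exp (c * L) := by positivity
  calc x * aE r β i j * y * (L ^ 2 * Real.exp (c * L))
      ≤ (Real.exp L * Real.exp ((β + 1) * L - β * L ^ 2)) *
        (2 * Real.exp L * Real.exp (|c| * L)) :=
        mul_le_mul (h1.trans h5) h4 h6 (by positivity)
    _ = 2 * Real.exp (L + ((β + 1) * L - β * L ^ 2) + (L + |c| * L)) := by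
        rw [Real.exp_add, Real.exp_add L, Real.exp_add L]
        ring
    _ ≤ 2 * Real.exp ((β + 4 + |c|) ^ 2 / (4 * β) + -L) := by
        refine mul_le_mul_of_nonneg_left (Real.exp_le_exp.mpr ?_) (by norm_num)
        have e1 : (β + 4 + |c|) * L - β * L ^ 2 ≤ (β + 4 + |c|) ^ 2 / (4 * β) := by
          rw [le_div_iff₀ (by positivity)]
          nlinarith [sq_nonneg (2 * β * L - (β + 4 + |c|))]
        linarith
    _ ≤ 2 * Real.exp ((β + 4 + |c|) ^ 2 / (4 * β) + (-((i : ℝ)) + -((j:ℝ)))) := by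
        refine mul_le_mul_of_nonneg_left (Real.exp_le_exp.mpr ?_) (by norm_num)
        rw [hL]
        linarith
    _ = _ := by
        rw [Real.exp_add, Real.exp_add, ← Real.exp_nat_mul, ← Real.exp_nat_mul, mul_neg_one,
          mul_neg_one]
        ring

theorem mom_bound_geom (M : ℕ) :
    ∑ i : Fin (M + 1), Real.exp (-1) ^ (i : ℕ) ≤ (1 - Real.exp (-1))⁻¹ := by
  have h1 : Real.exp (-1) < 1 := by
    rw [Real.exp_lt_one_iff]
    norm_num
  have h0 := (Real.exp_pos (-1)).le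
  rw [← tsum_geometric_of_lt_one h0 h1, ← Finset.sum_range (fun i => Real.exp (-1) ^ i)]
  exact (summable_geometric_of_lt_one h0 h1).sum_le_tsum _ (fun i _ => pow_nonneg h0 i)

theorem mom_bound (β c : ℝ) (hβ : 0 < β) :
    ∃ D : ℝ, 0 ≤ D ∧ ∀ (M : ℕ) (r : ℝ), r ≤ β + 1 → -1 ≤ Lam r β M →
      (∑ i, ∑ j, xv r β M i * AM r β M i j * xv r β M j *
        (((i : ℝ) + (j : ℝ) + 1) ^ 2 * Real.exp (c * ((i : ℝ) + (j : ℝ) + 1)))) / lam r β M ≤ D := by
  have hlt : Real.exp (-1) < 1 := by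
    rw [Real.exp_lt_one_iff]
    norm_num
  obtain ⟨G, hG⟩ : ∃ G : ℝ, G = (1 - Real.exp (-1))⁻¹ := ⟨_, rfl⟩
  have hG0 : 0 < G := by
    rw [hG]
    exact inv_pos.mpr (by linarith)
  obtain ⟨C, hC⟩ : ∃ C : ℝ, C = 2 * Real.exp ((β + 4 + |c|) ^ 2 / (4 * β)) := ⟨_, rfl⟩
  have hC0 : 0 < C := by
    rw [hC]
    positivity
  refine ⟨C * (G * G) * Real.exp 1, by positivity, ?_⟩
  intro M r hr hLam
  have hpf := pf_spec r β M
  have hlam := hpf.lpos
  have hlam1 : Real.exp (-1) ≤ lam r β M := by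
    unfold Lam at hLam
    exact (Real.le_log_iff_exp_le hlam).mp hLam
  have hx1 : ∀ i, xv r β M i ≤ 1 := by
    intro i
    obtain ⟨-, -, h3, h4⟩ := xe_basic r β M
    rw [← h3 i]
    exact h4 i
  rw [div_le_iff₀ hlam]
  have hsum : ∑ i, ∑ j, xv r β M i * AM r β M i j * xv r β M j *
        (((i : ℝ) + (j : ℝ) + 1) ^ 2 * Real.exp (c * ((i : ℝ) + (j : ℝ) + 1))) ≤ C * (G * G) := by
    calc _ ≤ ∑ i : Fin (M + 1), ∑ j : Fin (M + 1),
          C * (Real.exp (-1) ^ (i : ℕ) * Real.exp (-1) ^ (j : ℕ)) := by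
          refine Finset.sum_le_sum fun i _ => Finset.sum_le_sum fun j _ => ?_
          rw [hC]
          exact mom_bound_term β c hβ r hr i j _ _ (hpf.xpos i) (hx1 i) (hpf.xpos j) (hx1 j)
      _ = C * ((∑ i : Fin (M + 1), Real.exp (-1) ^ (i : ℕ)) *
          (∑ j : Fin (M + 1), Real.exp (-1) ^ (j : ℕ))) := by
          rw [Finset.sum_mul_sum, Finset.mul_sum]
          refine Finset.sum_congr rfl fun i _ => ?_
          rw [Finset.mul_sum]
      _ ≤ C * (G * G) := by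
          have h1 := mom_bound_geom M
          rw [← hG] at h1
          have h2 : 0 ≤ ∑ i : Fin (M + 1), Real.exp (-1) ^ (i : ℕ) :=
            Finset.sum_nonneg fun i _ => pow_nonneg (Real.exp_pos _).le _
          exact mul_le_mul_of_nonneg_left (mul_le_mul h1 h1 h2 hG0.le) hC0.le
  refine hsum.trans ?_
  have h1 : 1 ≤ Real.exp 1 * lam r β M := by
    calc (1:ℝ) = Real.exp 1 * Real.exp (-1) := by rw [← Real.exp_add]; simp
      _ ≤ _ := mul_le_mul_of_nonneg_left hlam1 (Real.exp_pos _).le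
  rw [mul_assoc (C * (G * G))]
  exact le_mul_of_one_le_right (by positivity) h1

end SoftPoly
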