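import Pool.Agent.Helper839.SP.Defs
import Pool.Agent.Helper839.SP.P_mom_bound
import Pool.Agent.Helper839.SP.P_m1_ratio

set_option autoImplicit false

namespace SoftPoly
open scoped ENNReal BigOperators
open Filter Topology


theorem m1_lip (β C : ℝ) (hβ : 0 < β) (hC : Core β C) :
    ∃ D : ℝ, 0 ≤ D ∧ ∀ (M : ℕ) (r r' : ℝ), r ≤ r' → r' ≤ r + 1 → r ≤ β + 1 → -1 ≤ Lam r β M →
      m1 r' β M ≤ m1 r β M + D * (r' - r) := by
  obtain ⟨D', hD0, hD⟩ := mom_bound β C hβ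
  have hC0 : 0 ≤ C := zero_le_one.trans hC.one_le
  refine ⟨C * D', mul_nonneg hC0 hD0, ?_⟩
  intro M r r' h h1 h2 h3
  have h4 := m1_ratio β C hC M r r' h h1
  have h5 := hD M r h2 h3
  have h6 : 0 ≤ r' - r := by linarith
  refine h4.trans ?_
  have h7 : (r' - r) * (C * ((∑ i, ∑ j, xv r β M i * AM r β M i j * xv r β M j *
        (((i : ℝ) + (j : ℝ) + 1) ^ 2 * Real.exp (C * ((i : ℝ) + (j : ℝ) + 1)))) / lam r β M)) ≤
      (r' - r) * (C * D') :=
    mul_le_mul_of_nonneg_left (mul_le_mul_of_nonneg_left h5 hC0) h6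
  linarith

end SoftPoly
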