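import Pool.Agent.Helper839.SP.Defs
import Pool.Agent.Helper839.SP.P_Lam_supp
import Pool.Agent.Helper839.SP.P_m_bounds
import Pool.Agent.Helper839.SP.P_Lam_lower
import Pool.Agent.Helper839.SP.P_m1_lip
import Pool.Agent.Helper839.SP.P_Lam_step
import Pool.Agent.Helper839.SP.P_Lam_RR

set_option autoImplicit false

namespace SoftPoly
open scoped ENNReal BigOperators
open Filter Topology


theorem RR_quad (β C : ℝ) (hβ : 0 < β) (hC : Core β C) :
    ∃ D : ℝ, ∀ (M : ℕ) (s : ℝ), 0 < s → s ≤ 1 / 2 →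
      2 * RR 0 β M - RR (-s) β M - RR s β M ≤ D * s ^ 2 := by
  obtain ⟨D', hD', hlip⟩ := m1_lip β C hβ hC
  refine ⟨2 * D', fun M s hs hs2 => ?_⟩
  obtain ⟨r, hr⟩ : ∃ r, r = RR (-s) β M := ⟨_, rfl⟩
  obtain ⟨r0, hr0⟩ : ∃ r0, r0 = RR 0 β M := ⟨_, rfl⟩
  obtain ⟨r', hr'⟩ : ∃ r', r' = RR s β M := ⟨_, rfl⟩
  have h1 : Lam r β M = -s := by rw [hr]; exact Lam_RR _ _ _
  have h2 : Lam r0 β M = 0 := by rw [hr0]; exact Lam_RR _ _ _
  have h3 : Lam r' β M = s := by rw [hr']; exact Lam_RR _ _ _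
  rw [← hr, ← hr0, ← hr']
  have hrr : r ≤ r' := by
    by_contra hcon
    push Not at hcon
    have := (Lam_step β M r' r hcon.le).1
    linarith
  have hst := (Lam_step β M r r' hrr).1
  have hlow := Lam_lower r β M
  have hm := hlip M r r' hrr (by linarith) (by linarith) (by linarith)
  have ha := (m_bounds r β M).1
  have hb := (m_bounds r' β M).1
  have s1 := Lam_supp r β r0 β M
  have s2 := Lam_supp r' β r0 β M
  rw [sub_self, zero_mul, sub_zero] at s1 s2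
  obtain ⟨a, hae⟩ : ∃ a, a = m1 r β M := ⟨_, rfl⟩
  obtain ⟨b, hbe⟩ : ∃ b, b = m1 r' β M := ⟨_, rfl⟩
  rw [← hae] at hm ha s1
  rw [← hbe] at hm hb s2
  have ha0 : 0 < a := by linarith
  have hb0 : 0 < b := by linarith
  have t1 : r0 - r ≤ s / a := by
    rw [le_div_iff₀ ha0]; linarith
  have t2 : s / b ≤ r' - r0 := by
    rw [div_le_iff₀ hb0]; nlinarith
  have t3 : b - a ≤ 2 * D' * s := by nlinarith
  have hab : 1 ≤ a * b := by nlinarith
  have t4 : s / a - s / b ≤ 2 * D' * s ^ 2 := by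
    rw [div_sub_div _ _ ha0.ne' hb0.ne', div_le_iff₀ (by positivity)]
    have t5 : s * b - a * s ≤ 2 * D' * s ^ 2 := by nlinarith
    have t6 : 0 ≤ 2 * D' * s ^ 2 := by positivity
    nlinarith
  linarith

end SoftPoly
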