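import Pool.Agent.Helper839.SP.Defs
import Pool.Agent.Helper839.SP.P_RR_cross
import Pool.Agent.Helper839.SP.P_RR_lim

set_option autoImplicit false

namespace SoftPoly
open scoped ENNReal BigOperators
open Filter Topology


theorem Rinf_cross (s1 s2 b1 b2 : ℝ) (hs : s1 ≤ s2) (hb : 0 < b1) (hb' : b1 ≤ b2)
    (hC : ∀ β : ℝ, 0 < β → ∃ C, Core β C) :
    Rinf s1 b2 - Rinf s1 b1 ≤ Rinf s2 b2 - Rinf s2 b1 := by
  have hb2 : 0 < b2 := lt_of_lt_of_le hb hb'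
  exact le_of_tendsto_of_tendsto' ((RR_lim s1 b2 hb2).1.sub (RR_lim s1 b1 hb).1)
    ((RR_lim s2 b2 hb2).1.sub (RR_lim s2 b1 hb).1)
    (fun M => RR_cross M s1 s2 b1 b2 hs hb hb' hC)

end SoftPoly
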