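import Pool.Agent.Helper839.SP.Defs
import Pool.Agent.Helper839.SP.P_RR_quad
import Pool.Agent.Helper839.SP.P_RR_lim

set_option autoImplicit false

namespace SoftPoly
open scoped ENNReal BigOperators
open Filter Topology


theorem Rinf_quad (β C : ℝ) (hβ : 0 < β) (hC : Core β C) :
    ∃ D : ℝ, ∀ (s : ℝ), 0 < s → s ≤ 1 / 2 →
      2 * Rinf 0 β - Rinf (-s) β - Rinf s β ≤ D * s ^ 2 := by
  obtain ⟨D, hD⟩ := RR_quad β C hβ hC
  refine ⟨D, fun s hs0 hs1 => ?_⟩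
  have h0 := (RR_lim 0 β hβ).1
  have h1 := (RR_lim (-s) β hβ).1
  have h2 := (RR_lim s β hβ).1
  exact le_of_tendsto' (((h0.const_mul 2).sub h1).sub h2) fun M => hD M s hs0 hs1

end SoftPoly
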