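import Pool.Agent.Helper839.SP.Defs

set_option autoImplicit false

namespace SoftPoly
open scoped ENNReal BigOperators
open Filter Topology


theorem TM_eq_nn (r β : ℝ) (M : ℕ) (K : ℕ) : ∀ i j, 0 ≤ ((AM r β M) ^ (K + 1)) i j := by
  have h1 : ∀ i j, 0 ≤ AM r β M i j := by
    intro i j
    show 0 ≤ aE r β i j
    unfold aE
    positivity
  induction K with
  | zero => rw [zero_add, pow_one]; exact h1
  | succ K ih =>
    intro i j
    rw [pow_succ, Matrix.mul_apply]
    exact Finset.sum_nonneg (fun k _ => mul_nonneg (ih i k) (h1 k j))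

theorem TM_eq (r β : ℝ) (M K : ℕ) (j : ℕ) (hj : j < M + 1) :
    TM r β M K j = ENNReal.ofReal (((AM r β M) ^ (K + 1)) 0 ⟨j, hj⟩) := by
  induction K generalizing j with
  | zero => rw [zero_add, pow_one]; rfl
  | succ K ih =>
    have h1 : ∀ i j, 0 ≤ AM r β M i j := by
      intro i j
      show 0 ≤ aE r β i j
      unfold aE
      positivity
    rw [pow_succ, Matrix.mul_apply, ENNReal.ofReal_sum_of_nonneg
      (fun k _ => mul_nonneg (TM_eq_nn r β M K _ _) (h1 _ _))]
    show ∑ i ∈ Finset.range (M + 1), TM r β M K i * ENNReal.ofReal (aE r β i j) = _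
    rw [Finset.sum_range]
    apply Finset.sum_congr rfl
    intro i _
    rw [ih i i.2, ENNReal.ofReal_mul (TM_eq_nn r β M K _ _)]
    rfl

end SoftPoly
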