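import Pool.Agent.Helper839.SP.Defs

set_option autoImplicit false

namespace SoftPoly
open scoped ENNReal BigOperators
open Filter Topology


theorem TMi_mono (r β : ℝ) {M M' : ℕ} (h : M ≤ M') (K : ℕ) :
    ∀ j, TM r β M K j ≤ TM r β M' K j := by
  induction K with
  | zero => intro j; exact le_refl _
  | succ K ih =>
    intro j
    calc ∑ i ∈ Finset.range (M + 1), TM r β M K i * ENNReal.ofReal (aE r β i j) ≤
        ∑ i ∈ Finset.range (M + 1), TM r β M' K i * ENNReal.ofReal (aE r β i j) :=
          Finset.sum_le_sum fun i _ => mul_le_mul_left (ih i) _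
      _ ≤ ∑ i ∈ Finset.range (M' + 1), TM r β M' K i * ENNReal.ofReal (aE r β i j) := by
          apply Finset.sum_le_sum_of_subset
          intro i hi
          rw [Finset.mem_range] at hi ⊢
          omega

theorem TT_iSup (r β : ℝ) (K j : ℕ) : TT r β K j = ⨆ M : ℕ, TM r β M K j := by
  induction K generalizing j with
  | zero =>
    show ENNReal.ofReal (aE r β 0 j) = ⨆ M : ℕ, ENNReal.ofReal (aE r β 0 j)
    rw [iSup_const]
  | succ K ih =>
    apply le_antisymm
    · show ∑' i : ℕ, TT r β K i * ENNReal.ofReal (aE r β i j) ≤ _
      rw [ENNReal.tsum_eq_iSup_nat]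
      apply iSup_le
      intro n
      have h1 : ∑ i ∈ Finset.range n, TT r β K i * ENNReal.ofReal (aE r β i j) =
          ⨆ M : ℕ, ∑ i ∈ Finset.range n, TM r β M K i * ENNReal.ofReal (aE r β i j) := by
        rw [← ENNReal.finsetSum_iSup_of_monotone]
        · apply Finset.sum_congr rfl
          intro i _
          rw [ih, ENNReal.iSup_mul]
        · intro i M M' h
          exact mul_le_mul_left (TMi_mono r β h K i) _
      rw [h1]
      apply iSup_le
      intro M
      refine le_trans ?_ (le_iSup (fun M => TM r β M (K + 1) j) (max M n))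
      calc ∑ i ∈ Finset.range n, TM r β M K i * ENNReal.ofReal (aE r β i j) ≤
          ∑ i ∈ Finset.range n, TM r β (max M n) K i * ENNReal.ofReal (aE r β i j) :=
            Finset.sum_le_sum fun i _ => mul_le_mul_left (TMi_mono r β (le_max_left _ _) K i) _
        _ ≤ ∑ i ∈ Finset.range (max M n + 1),
            TM r β (max M n) K i * ENNReal.ofReal (aE r β i j) := by
            apply Finset.sum_le_sum_of_subset
            intro i hi
            rw [Finset.mem_range] at hi ⊢
            have h2 := le_max_right M n
            omega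
    · apply iSup_le
      intro M
      show ∑ i ∈ Finset.range (M + 1), TM r β M K i * ENNReal.ofReal (aE r β i j) ≤
        ∑' i : ℕ, TT r β K i * ENNReal.ofReal (aE r β i j)
      refine le_trans ?_ (ENNReal.sum_le_tsum (Finset.range (M + 1)))
      apply Finset.sum_le_sum
      intro i _
      apply mul_le_mul_left
      rw [ih]
      exact le_iSup (fun M => TM r β M K i) M

end SoftPoly
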