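import Pool.Agent.Helper839.SP.Defs

set_option autoImplicit false

namespace SoftPoly
open scoped ENNReal BigOperators
open Filter Topology


theorem TT_vec_ext_snoc (K : ℕ) (u : Fin K → ℕ) (i : ℕ) (y : ℕ) (hy : y ≤ K) :
    ext (K + 1) (Fin.snoc (α := fun _ => ℕ) u i) y = ext K u y := by
  unfold ext
  by_cases h : 1 ≤ y
  · have h1 : 1 ≤ y ∧ y ≤ K + 1 := ⟨h, by omega⟩
    have h2 : 1 ≤ y ∧ y ≤ K := ⟨h, hy⟩
    rw [dif_pos h1, dif_pos h2]
    have : (⟨y - 1, by omega⟩ : Fin (K + 1)) = Fin.castSucc (⟨y - 1, by omega⟩ : Fin K) := by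
      ext; simp
    rw [this, Fin.snoc_castSucc]
  · rw [dif_neg (by tauto), dif_neg (by tauto)]

theorem TT_vec_ext_last (K : ℕ) (u : Fin K → ℕ) (i : ℕ) :
    ext (K + 1) (Fin.snoc (α := fun _ => ℕ) u i) (K + 1) = i := by
  unfold ext
  rw [dif_pos ⟨by omega, le_refl _⟩]
  have : (⟨K + 1 - 1, by omega⟩ : Fin (K + 1)) = Fin.last K := by
    ext; simp
  rw [this, Fin.snoc_last]

theorem TT_vec_gen (r β : ℝ) (K : ℕ) : ∀ j : ℕ,
    TT r β K j = ∑' u : Fin K → ℕ, (∏ y ∈ Finset.range K,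
      ENNReal.ofReal (aE r β (ext K u y) (ext K u (y + 1)))) *
      ENNReal.ofReal (aE r β (ext K u K) j) := by
  induction K with
  | zero =>
    intro j
    rw [tsum_eq_single (default : Fin 0 → ℕ) (fun b hb => absurd (Subsingleton.elim b _) hb)]
    simp [TT, ext]
  | succ K ih =>
    intro j
    rw [← (Fin.snocEquiv (fun _ : Fin (K + 1) => ℕ)).tsum_eq]
    rw [ENNReal.tsum_prod']
    unfold TT
    refine tsum_congr fun i => ?_
    rw [ih i, ← ENNReal.tsum_mul_right]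
    refine tsum_congr fun u => ?_
    have e : (Fin.snocEquiv (fun _ : Fin (K + 1) => ℕ)) (i, u) = Fin.snoc (α := fun _ => ℕ) u i := rfl
    rw [e, Finset.prod_range_succ, TT_vec_ext_last, TT_vec_ext_snoc K u i K le_rfl]
    congr 2
    refine Finset.prod_congr rfl fun y hy => ?_
    have hy' := Finset.mem_range.mp hy
    rw [TT_vec_ext_snoc K u i y (by omega), TT_vec_ext_snoc K u i (y + 1) (by omega)]

theorem TT_vec (r β : ℝ) (K : ℕ) :
    TT r β K 0 = ∑' u : Fin K → ℕ, ∏ y ∈ Finset.range (K + 1),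
      ENNReal.ofReal (aE r β (ext K u y) (ext K u (y + 1))) := by
  rw [TT_vec_gen]
  refine tsum_congr fun u => ?_
  rw [Finset.prod_range_succ]
  congr 3
  unfold ext
  rw [dif_neg (by omega)]

end SoftPoly
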