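import Pool.Agent.Helper839.SP.Defs

set_option autoImplicit false

namespace SoftPoly
open scoped ENNReal BigOperators
open Filter Topology


theorem XX_lower (P Q : List ℤ) (a b : ℤ) (h : ∀ z : ℤ, a ≤ z → z < b → z ∈ P ∧ z ∈ Q) :
    b - a ≤ (XX P Q : ℤ) := by
  have h1 : ∑ z ∈ Finset.Ico a b, 1 ≤ XX P Q := by
    unfold XX
    rw [Finset.sum_list_map_count]
    have hsub : Finset.Ico a b ⊆ P.toFinset := by
      intro z hz
      rw [Finset.mem_Ico] at hz
      exact List.mem_toFinset.2 (h z hz.1 hz.2).1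
    refine le_trans (Finset.sum_le_sum fun z hz => ?_) (Finset.sum_le_sum_of_subset hsub)
    rw [Finset.mem_Ico] at hz
    have h2 : 1 ≤ P.count z := List.one_le_count_iff.2 (h z hz.1 hz.2).1
    have h3 : 1 ≤ Q.count z := List.one_le_count_iff.2 (h z hz.1 hz.2).2
    rw [smul_eq_mul]
    exact Nat.mul_le_mul h2 h3
  rw [Finset.sum_const, Int.card_Ico, smul_eq_mul, mul_one] at h1
  have h2 := Int.self_le_toNat (b - a)
  have h3 : (((b - a).toNat : ℕ) : ℤ) ≤ (XX P Q : ℤ) := by exact_mod_cast h1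
  linarith

end SoftPoly
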