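import Pool.Agent.Helper839.SP.Defs

set_option autoImplicit false

namespace SoftPoly
open scoped ENNReal BigOperators
open Filter Topology


theorem pos_head_950 (x : ℤ) (l : List Bool) : x ∈ pos x l := by
  cases l <;> simp [pos]

theorem ok_iff_950 (K : ℕ) (l : List Bool) : ∀ x : ℕ, x ≤ K →
    (ok K x l ↔ ((∀ p ∈ pos (x : ℤ) l, 0 ≤ p ∧ p < ((K + 1 : ℕ) : ℤ)) ∧ endp (x : ℤ) l = (K : ℤ))) := by
  induction l with
  | nil =>
    intro x hx
    simp only [ok, pos, endp, List.mem_singleton, forall_eq, List.map_nil, List.sum_nil]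
    push_cast
    constructor
    · intro h; omega
    · intro h; omega
  | cons b l ih =>
    intro x hx
    cases b with
    | true =>
      have e1 : (x : ℤ) + stp true = ((x + 1 : ℕ) : ℤ) := by simp [stp]
      have e2 : endp (x : ℤ) (true :: l) = endp ((x + 1 : ℕ) : ℤ) l := by
        simp only [endp, List.map_cons, List.sum_cons]; rw [← e1]; ring
      simp only [ok, pos, e1, e2, List.mem_cons, forall_eq_or_imp]
      constructor
      · rintro ⟨h1, h2⟩
        have := (ih (x + 1) h1).1 h2
        refine ⟨⟨?_, this.1⟩, this.2⟩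
        push_cast; omega
      · rintro ⟨⟨h0, h1⟩, h2⟩
        have h3 := h1 _ (pos_head_950 _ l)
        have h4 : x < K := by push_cast at h3; omega
        exact ⟨h4, (ih (x + 1) h4).2 ⟨h1, h2⟩⟩
    | false =>
      simp only [ok, pos, List.mem_cons, forall_eq_or_imp]
      constructor
      · rintro ⟨h1, h2⟩
        have e1 : (x : ℤ) + stp false = ((x - 1 : ℕ) : ℤ) := by simp [stp]; omega
        have e2 : endp (x : ℤ) (false :: l) = endp ((x - 1 : ℕ) : ℤ) l := by
          simp only [endp, List.map_cons, List.sum_cons]; rw [← e1]; ring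
        have := (ih (x - 1) (by omega)).1 h2
        rw [e1, e2]
        refine ⟨⟨?_, this.1⟩, this.2⟩
        push_cast; omega
      · rintro ⟨⟨h0, h1⟩, h2⟩
        have h3 := h1 _ (pos_head_950 _ l)
        have h4 : 0 < x := by simp [stp] at h3; omega
        have e1 : (x : ℤ) + stp false = ((x - 1 : ℕ) : ℤ) := by simp [stp]; omega
        have e2 : endp (x : ℤ) (false :: l) = endp ((x - 1 : ℕ) : ℤ) l := by
          simp only [endp, List.map_cons, List.sum_cons]; rw [← e1]; ring
        rw [e1] at h1
        rw [e2] at h2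
        exact ⟨h4, (ih (x - 1) (by omega)).2 ⟨h1, h2⟩⟩

theorem ok_count_950 (K : ℕ) (l : List Bool) : ∀ x : ℕ, ok K x l → ∀ y : ℕ,
    (pos (x : ℤ) l).count (y : ℤ) = lt x l y := by
  induction l with
  | nil =>
    intro x hx y
    simp only [pos, lt, List.count_singleton, beq_iff_eq, Nat.cast_inj]
    by_cases h : y = x
    · simp [h]
    · rw [if_neg h, if_neg (fun h' => h (Eq.symm h'))]
  | cons b l ih =>
    intro x hx y
    cases b with
    | true =>
      have e1 : (x : ℤ) + stp true = ((x + 1 : ℕ) : ℤ) := by simp [stp]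
      simp only [ok] at hx
      simp only [pos, lt, e1, List.count_cons, beq_iff_eq, Nat.cast_inj]
      rw [ih (x + 1) hx.2 y, add_comm]
      by_cases h : y = x
      · simp [h]
      · rw [if_neg h, if_neg (fun h' => h (Eq.symm h'))]
    | false =>
      simp only [ok] at hx
      have e1 : (x : ℤ) + stp false = ((x - 1 : ℕ) : ℤ) := by simp [stp]; omega
      simp only [pos, lt, e1, List.count_cons, beq_iff_eq, Nat.cast_inj]
      rw [ih (x - 1) hx.2 y, add_comm]
      by_cases h : y = x
      · simp [h]
      · rw [if_neg h, if_neg (fun h' => h (Eq.symm h'))]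

theorem sum_map_950 (n : ℕ) (f : ℤ → ℕ) (P : List ℤ) (hP : ∀ p ∈ P, 0 ≤ p ∧ p < (n : ℤ)) :
    (P.map f).sum = ∑ y ∈ Finset.range n, P.count (y : ℤ) * f y := by
  induction P with
  | nil => simp
  | cons a P ih =>
    rw [List.map_cons, List.sum_cons, ih (fun p hp => hP p (List.mem_cons_of_mem _ hp))]
    have ha := hP a List.mem_cons_self
    obtain ⟨m, rfl⟩ := Int.eq_ofNat_of_zero_le ha.1
    have hm : m ∈ Finset.range n := by
      rw [Finset.mem_range]; have := ha.2; omega
    have : ∀ y ∈ Finset.range n, ((m : ℤ) :: P).count (y : ℤ) * f y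
        = P.count (y : ℤ) * f y + (if m = y then f y else 0) := by
      intro y _
      rw [List.count_cons]
      by_cases h : m = y
      · subst h; simp; ring
      · have : ((m : ℤ) == (y : ℤ)) = false := by
          simp [h]
        simp [h]
    rw [Finset.sum_congr rfl this, Finset.sum_add_distrib, Finset.sum_ite_eq]
    simp only [hm, if_true]
    rw [add_comm]

theorem pos_length_950 (l : List Bool) : ∀ x, (pos x l).length = l.length + 1 := by
  induction l with
  | nil => intro x; simp [pos]
  | cons b l ih => intro x; simp [pos, ih]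

theorem bridge_ok (r β : ℝ) (K : ℕ) [∀ l, Decidable (ok K 0 l)] :
    bridge r β (K + 1) = ∑' l : List Bool, if ok K 0 l then
      ∏ y ∈ Finset.range (K + 1), ENNReal.ofReal (Real.exp (r * (lt 0 l y : ℝ)
        - β * (lt 0 l y : ℝ) ^ 2)) else 0 := by
  unfold bridge
  apply tsum_congr
  intro l
  have hiff := ok_iff_950 K l 0 (Nat.zero_le _)
  by_cases h : ok K 0 l
  · have h' := hiff.1 h
    have hc := ok_count_950 K l 0 h
    simp only [Nat.cast_zero] at h' hc
    rw [if_pos h, if_pos (by refine ⟨h'.1, ?_⟩; rw [h'.2]; push_cast; ring)]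
    rw [← ENNReal.ofReal_prod_of_nonneg (fun y _ => (Real.exp_pos _).le), ← Real.exp_sum]
    congr 2
    have hlen : ((l.length : ℝ) + 1) = ∑ y ∈ Finset.range (K + 1), (lt 0 l y : ℝ) := by
      have h1 := sum_map_950 (K + 1) (fun _ => 1) (pos 0 l) h'.1
      have h2 : ((pos 0 l).map (fun _ => 1)).sum = l.length + 1 := by
        rw [List.map_const', List.sum_replicate, pos_length_950]; simp
      rw [h2] at h1
      simp only [hc, mul_one] at h1
      exact_mod_cast h1
    have hH : (HH (pos 0 l) : ℝ) = ∑ y ∈ Finset.range (K + 1), (lt 0 l y : ℝ) ^ 2 := by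
      have h1 := sum_map_950 (K + 1) (fun z => (pos 0 l).count z) (pos 0 l) h'.1
      unfold HH
      rw [h1]
      push_cast
      apply Finset.sum_congr rfl
      intro y _
      rw [hc y, sq]
    rw [hlen, hH, Finset.sum_sub_distrib, Finset.mul_sum, Finset.mul_sum]
  · rw [if_neg h, if_neg]
    intro h'
    apply h
    rw [hiff]
    simp only [Nat.cast_zero]
    refine ⟨h'.1, ?_⟩
    have := h'.2
    push_cast at this
    linarith
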