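import Pool.Agent.Helper839.SP.Defs

set_option autoImplicit false

namespace SoftPoly
open scoped ENNReal BigOperators
open Filter Topology


theorem dc_supp (K x : ℕ) (l : List Bool) (hx : x ≤ K) (h : ok K x l) :
    dc x l 0 = 0 ∧ ∀ y, K < y → dc x l y = 0 := by
  induction l generalizing x with
  | nil => exact ⟨rfl, fun _ _ => rfl⟩
  | cons c l ih =>
    cases c with
    | true =>
      obtain ⟨h1, h2⟩ := h
      exact ih (x + 1) (by omega) h2
    | false =>
      obtain ⟨h1, h2⟩ := h
      obtain ⟨h3, h4⟩ := ih (x - 1) (by omega) h2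
      refine ⟨?_, fun y hy => ?_⟩
      · have hne : ¬ (0 = x) := by omega
        simp only [dc, h3, if_neg hne]
      · have hne : ¬ (y = x) := by omega
        simp only [dc, h4 y hy, if_neg hne]

end SoftPoly
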