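import Pool.Agent.Helper839.SP.Defs
import Pool.Agent.Helper839.SP.P_dc_supp
import Pool.Agent.Helper839.SP.P_PP_rec

set_option autoImplicit false

namespace SoftPoly
open scoped ENNReal BigOperators
open Filter Topology


theorem tsum_list_bool (f : List Bool → ℝ≥0∞) :
    ∑' l, f l = f [] + ∑' l, f (true :: l) + ∑' l, f (false :: l) := by
  classical
  have h1 : ∀ l, f l = (if l = [] then f l else 0) + (if l.head? = some true then f l else 0) +
      (if l.head? = some false then f l else 0) := by
    intro l
    cases l with
    | nil => simp
    | cons b l => cases b <;> simp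
  have h2 : ∑' l, f l = ∑' l, ((if l = [] then f l else 0) +
      (if l.head? = some true then f l else 0) + (if l.head? = some false then f l else 0)) :=
    tsum_congr h1
  rw [h2, ENNReal.tsum_add, ENNReal.tsum_add]
  congr 1
  · congr 1
    · rw [tsum_eq_single []]
      · simp
      · intro l hl
        simp [hl]
    · rw [← (List.cons_injective (a := true)).tsum_eq]
      · simp
      · intro l hl
        rw [Function.mem_support] at hl
        cases l with
        | nil => simp at hl
        | cons b l =>
          cases b with
          | true => exact ⟨l, rfl⟩
          | false => simp at hl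
  · rw [← (List.cons_injective (a := false)).tsum_eq]
    · simp
    · intro l hl
      rw [Function.mem_support] at hl
      cases l with
      | nil => simp at hl
      | cons b l =>
        cases b with
        | false => exact ⟨l, rfl⟩
        | true => simp at hl

open Classical in
theorem count_aux (K : ℕ) (n : ℕ) : ∀ (x : ℕ) (v : ℕ → ℕ), x ≤ K → v 0 = 0 →
    (∀ y, K < y → v y = 0) → 2 * ∑ y ∈ Finset.range (K + 1), v y + (K - x) = n →
    ∑' l : List Bool, (if ok K x l ∧ dc x l = v then (1 : ℝ≥0∞) else 0) = (PP K x v : ℝ≥0∞) := by
  induction n using Nat.strong_induction_on with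
  | _ n ih =>
    intro x v hx h0 hK hn
    rw [tsum_list_bool, PP_rec K x v hx h0 hK]
    push_cast
    congr 1
    · congr 1
      · have e : (ok K x [] ∧ dc x [] = v) ↔
            (x = K ∧ (∑ y ∈ Finset.range (K + 1), v y) = 0) := by
          constructor
          · rintro ⟨h1, h2⟩
            refine ⟨h1, ?_⟩
            rw [← h2]
            simp [dc]
          · rintro ⟨h1, h2⟩
            refine ⟨h1, ?_⟩
            funext y
            show 0 = v y
            by_cases hy : y ∈ Finset.range (K + 1)
            · exact ((Finset.sum_eq_zero_iff.mp h2) y hy).symm
            · rw [Finset.mem_range] at hy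
              exact (hK y (by omega)).symm
        by_cases h : (x = K ∧ (∑ y ∈ Finset.range (K + 1), v y) = 0)
        · rw [if_pos (e.mpr h), if_pos h]
        · rw [if_neg (fun h' => h (e.mp h')), if_neg h]
      · by_cases hxK : x < K
        · rw [if_pos hxK, ← ih (2 * ∑ y ∈ Finset.range (K + 1), v y + (K - (x + 1))) (by omega)
            (x + 1) v hxK h0 hK rfl]
          apply tsum_congr
          intro l
          have e : (ok K x (true :: l) ∧ dc x (true :: l) = v) ↔
              (ok K (x + 1) l ∧ dc (x + 1) l = v) := by
            constructor
            · rintro ⟨h1, h2⟩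
              exact ⟨h1.2, h2⟩
            · rintro ⟨h1, h2⟩
              exact ⟨⟨hxK, h1⟩, h2⟩
          by_cases h : (ok K (x + 1) l ∧ dc (x + 1) l = v)
          · rw [if_pos (e.mpr h), if_pos h]
          · rw [if_neg (fun h' => h (e.mp h')), if_neg h]
        · rw [if_neg hxK]
          have e : ∀ l, ¬ (ok K x (true :: l) ∧ dc x (true :: l) = v) := fun l h => hxK h.1.1
          simp [e]
    · by_cases hv : 0 < v x
      · have hx0 : 0 < x := by
          rcases Nat.eq_zero_or_pos x with h | h
          · rw [h, h0] at hv
            exact absurd hv (lt_irrefl _)
          · exact h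
        have hsum : ∑ y ∈ Finset.range (K + 1), Function.update v x (v x - 1) y + 1 =
            ∑ y ∈ Finset.range (K + 1), v y := by
          have hm : x ∈ Finset.range (K + 1) := Finset.mem_range.mpr (by omega)
          have h8 := Finset.sum_eq_sum_sdiff_singleton_add hm v
          rw [Finset.sum_update_of_mem hm]
          omega
        rw [if_pos hv, ← ih (2 * ∑ y ∈ Finset.range (K + 1),
          Function.update v x (v x - 1) y + (K - (x - 1))) (by omega)
            (x - 1) (Function.update v x (v x - 1)) (by omega) (by
              rw [Function.update_of_ne (by omega)]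
              exact h0) (by
              intro y hy
              rw [Function.update_of_ne (by omega)]
              exact hK y hy) rfl]
        apply tsum_congr
        intro l
        have e : (ok K x (false :: l) ∧ dc x (false :: l) = v) ↔
            (ok K (x - 1) l ∧ dc (x - 1) l = Function.update v x (v x - 1)) := by
          constructor
          · rintro ⟨h1, h2⟩
            refine ⟨h1.2, ?_⟩
            funext y
            have h3 : (if y = x then 1 else 0) + dc (x - 1) l y = v y := congrFun h2 y
            by_cases hy : y = x
            · subst hy
              rw [Function.update_self]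
              rw [if_pos rfl] at h3
              omega
            · rw [Function.update_of_ne hy]
              rw [if_neg hy] at h3
              omega
          · rintro ⟨h1, h2⟩
            refine ⟨⟨hx0, h1⟩, ?_⟩
            funext y
            show (if y = x then 1 else 0) + dc (x - 1) l y = v y
            rw [h2]
            by_cases hy : y = x
            · subst hy
              rw [Function.update_self, if_pos rfl]
              omega
            · rw [Function.update_of_ne hy, if_neg hy]
              omega
        by_cases h : (ok K (x - 1) l ∧ dc (x - 1) l = Function.update v x (v x - 1))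
        · rw [if_pos (e.mpr h), if_pos h]
        · rw [if_neg (fun h' => h (e.mp h')), if_neg h]
      · rw [if_neg hv]
        have e : ∀ l, ¬ (ok K x (false :: l) ∧ dc x (false :: l) = v) := by
          rintro l ⟨h1, h2⟩
          have h3 : (if x = x then 1 else 0) + dc (x - 1) l x = v x := congrFun h2 x
          rw [if_pos rfl] at h3
          omega
        simp [e]

theorem count_walks (K x : ℕ) (v : ℕ → ℕ) (hx : x ≤ K) (h0 : v 0 = 0)
    (hK : ∀ y, K < y → v y = 0) [∀ l, Decidable (ok K x l ∧ dc x l = v)] :
    ∑' l : List Bool, (if ok K x l ∧ dc x l = v then (1 : ℝ≥0∞) else 0) = (PP K x v : ℝ≥0∞) := by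
  rw [← count_aux K _ x v hx h0 hK rfl]
  apply tsum_congr
  intro l
  by_cases h : (ok K x l ∧ dc x l = v)
  · rw [if_pos h, if_pos h]
  · rw [if_neg h, if_neg h]

end SoftPoly
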