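import Pool.Agent.Helper839.SP.Defs

set_option autoImplicit false

namespace SoftPoly
open scoped ENNReal BigOperators
open Filter Topology


theorem lt_dc (K x : ℕ) (l : List Bool) (hx : x ≤ K) (h : ok K x l) (y : ℕ) :
    lt x l y = dc x l y + dc x l (y + 1) + (if x ≤ y ∧ y ≤ K then 1 else 0) := by
  induction l generalizing x with
  | nil =>
    simp only [ok] at h
    subst h
    simp only [lt, dc]
    split_ifs <;> omega
  | cons b l ih =>
    cases b with
    | true =>
      simp only [ok] at h
      obtain ⟨h1, h2⟩ := h
      have := ih (x + 1) (by omega) h2
      simp only [lt, dc]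
      rw [this]
      split_ifs <;> omega
    | false =>
      simp only [ok] at h
      obtain ⟨h1, h2⟩ := h
      have := ih (x - 1) (by omega) h2
      simp only [lt, dc]
      rw [this]
      split_ifs <;> omega

end SoftPoly
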