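import Pool.Agent.Helper839.SP.Defs
import Pool.Agent.Helper839.SP.P_bridge_ok
import Pool.Agent.Helper839.SP.P_lt_dc
import Pool.Agent.Helper839.SP.P_dc_supp
import Pool.Agent.Helper839.SP.P_count_walks

set_option autoImplicit false

namespace SoftPoly
open scoped ENNReal BigOperators
open Filter Topology


theorem ext_inj_bv (K : ℕ) (u v : Fin K → ℕ) (h : ext K u = ext K v) : u = v := by
  funext i
  have h1 := congrFun h ((i : ℕ) + 1)
  have h2 : 1 ≤ (i : ℕ) + 1 ∧ (i : ℕ) + 1 ≤ K := ⟨by omega, by omega⟩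
  unfold ext at h1
  rw [dif_pos h2, dif_pos h2] at h1
  simpa using h1

theorem dc_ext_bv (K : ℕ) (l : List Bool) (h : ok K 0 l) :
    dc 0 l = ext K (fun i : Fin K => dc 0 l ((i : ℕ) + 1)) := by
  obtain ⟨h0, h1⟩ := dc_supp K 0 l (Nat.zero_le _) h
  funext y
  unfold ext
  by_cases hy : 1 ≤ y ∧ y ≤ K
  · rw [dif_pos hy]
    show dc 0 l y = dc 0 l (y - 1 + 1)
    congr 1
    omega
  · rw [dif_neg hy]
    rcases Nat.eq_zero_or_pos y with h2 | h2
    · rw [h2, h0]
    · exact h1 y (by omega)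

theorem bridge_vec (r β : ℝ) (K : ℕ) :
    bridge r β (K + 1) = ∑' u : Fin K → ℕ, ∏ y ∈ Finset.range (K + 1),
      ENNReal.ofReal (aE r β (ext K u y) (ext K u (y + 1))) := by
  classical
  rw [bridge_ok]
  set G : (ℕ → ℕ) → ℝ≥0∞ := fun v => ∏ y ∈ Finset.range (K + 1),
    ENNReal.ofReal (Real.exp (r * ((v y : ℝ) + v (y + 1) + 1)
      - β * ((v y : ℝ) + v (y + 1) + 1) ^ 2)) with hG
  have step1 : ∀ l : List Bool, (if ok K 0 l then
      ∏ y ∈ Finset.range (K + 1), ENNReal.ofReal (Real.exp (r * (lt 0 l y : ℝ)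
        - β * (lt 0 l y : ℝ) ^ 2)) else 0) =
      ∑' u : Fin K → ℕ, (if ok K 0 l ∧ dc 0 l = ext K u then (1 : ℝ≥0∞) else 0) *
        G (ext K u) := by
    intro l
    by_cases hl : ok K 0 l
    · rw [if_pos hl]
      rw [tsum_eq_single (fun i : Fin K => dc 0 l ((i : ℕ) + 1))]
      · rw [if_pos ⟨hl, dc_ext_bv K l hl⟩, one_mul, ← dc_ext_bv K l hl, hG]
        refine Finset.prod_congr rfl fun y hy => ?_
        have hy' : y ≤ K := by
          have := Finset.mem_range.mp hy
          omega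
        have h1 := lt_dc K 0 l (Nat.zero_le _) hl y
        rw [if_pos ⟨Nat.zero_le _, hy'⟩] at h1
        rw [h1]
        push_cast
        rfl
      · intro u hu
        rw [if_neg, zero_mul]
        rintro ⟨_, h2⟩
        apply hu
        apply ext_inj_bv
        rw [← h2, ← dc_ext_bv K l hl]
    · rw [if_neg hl]
      symm
      rw [ENNReal.tsum_eq_zero]
      intro u
      rw [if_neg (fun h => hl h.1), zero_mul]
  rw [tsum_congr step1, ENNReal.tsum_comm]
  refine tsum_congr fun u => ?_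
  rw [ENNReal.tsum_mul_right]
  have h0 : ext K u 0 = 0 := by
    unfold ext
    rw [dif_neg (by omega)]
  have hK : ∀ y, K < y → ext K u y = 0 := by
    intro y hy
    unfold ext
    rw [dif_neg (by omega)]
  rw [count_walks K 0 (ext K u) (Nat.zero_le _) h0 hK, hG]
  unfold PP
  push_cast
  rw [← Finset.prod_mul_distrib]
  refine Finset.prod_congr rfl fun y _ => ?_
  rw [if_neg (Nat.not_lt_zero y)]
  unfold aE
  rw [ENNReal.ofReal_mul (by positivity), ENNReal.ofReal_natCast]

end SoftPoly
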