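import Pool.Agent.Helper839.SP.Defs
import Pool.Agent.Helper839.SP.P_bridge_vec
import Pool.Agent.Helper839.SP.P_TT_vec
import Pool.Agent.Helper839.SP.P_TT_iSup
import Pool.Agent.Helper839.SP.P_TM_eq

set_option autoImplicit false

namespace SoftPoly
open scoped ENNReal BigOperators
open Filter Topology


theorem bridge_iSup (r β : ℝ) (K : ℕ) :
    bridge r β (K + 1) = ⨆ M : ℕ, ENNReal.ofReal (((AM r β M) ^ (K + 1)) 0 0) := by
  rw [bridge_vec, ← TT_vec, TT_iSup]
  refine iSup_congr fun M => ?_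
  rw [TM_eq r β M K 0 (Nat.succ_pos M)]
  rfl

end SoftPoly
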