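import Pool.Agent.Helper839.SP.Defs
import Pool.Agent.Helper839.SP.P_aE_basic
import Pool.Agent.Helper839.SP.P_pf_spec

set_option autoImplicit false

namespace SoftPoly
open scoped ENNReal BigOperators
open Filter Topology


theorem AM_pow_nonneg (r β : ℝ) (M K : ℕ) : ∀ i j, 0 ≤ ((AM r β M) ^ K) i j := by
  induction K with
  | zero =>
    intro i j
    rw [pow_zero, Matrix.one_apply]
    split_ifs
    · exact zero_le_one
    · exact le_rfl
  | succ K ih =>
    intro i j
    rw [pow_succ, Matrix.mul_apply]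
    exact Finset.sum_nonneg fun k _ => mul_nonneg (ih i k) (aE_basic r β k j).1.le

theorem AM_pow_eig (r β : ℝ) (M K : ℕ) : ∀ i,
    ∑ j, ((AM r β M) ^ K) i j * xv r β M j = (lam r β M) ^ K * xv r β M i := by
  induction K with
  | zero =>
    intro i
    simp only [pow_zero, Matrix.one_apply, one_mul, ite_mul, zero_mul, Finset.sum_ite_eq,
      Finset.mem_univ, if_true]
  | succ K ih =>
    intro i
    have h1 : ∀ j, ((AM r β M) ^ (K + 1)) i j * xv r β M j =
        ∑ k, ((AM r β M) ^ K) i k * (AM r β M k j * xv r β M j) := by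
      intro j
      rw [pow_succ, Matrix.mul_apply, Finset.sum_mul]
      exact Finset.sum_congr rfl fun k _ => mul_assoc _ _ _
    rw [Finset.sum_congr rfl fun j _ => h1 j, Finset.sum_comm]
    have h2 : ∀ k, ∑ j, ((AM r β M) ^ K) i k * (AM r β M k j * xv r β M j) =
        lam r β M * (((AM r β M) ^ K) i k * xv r β M k) := by
      intro k
      rw [← Finset.mul_sum, (pf_spec r β M).eig k]
      ring
    rw [Finset.sum_congr rfl fun k _ => h2 k, ← Finset.mul_sum, ih i, pow_succ]
    ring

theorem pow_upper (r β : ℝ) (M K : ℕ) : ((AM r β M) ^ K) 0 0 ≤ (lam r β M) ^ K := by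
  have h := AM_pow_eig r β M K 0
  have hx := (pf_spec r β M).xpos
  have h1 : ((AM r β M) ^ K) 0 0 * xv r β M 0 ≤ ∑ j, ((AM r β M) ^ K) 0 j * xv r β M j :=
    Finset.single_le_sum (f := fun j => ((AM r β M) ^ K) 0 j * xv r β M j)
      (fun j _ => mul_nonneg (AM_pow_nonneg r β M K 0 j) (hx j).le) (Finset.mem_univ 0)
  rw [h] at h1
  exact le_of_mul_le_mul_right h1 (hx 0)

end SoftPoly
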