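import Pool.Agent.Helper839.SP.Defs
import Pool.Agent.Helper839.SP.P_bridge_iSup
import Pool.Agent.Helper839.SP.P_pf_spec
import Pool.Agent.Helper839.SP.P_pow_upper
import Pool.Agent.Helper839.SP.P_Lam_step
import Pool.Agent.Helper839.SP.P_Lam_RR
import Pool.Agent.Helper839.SP.P_RR_lim

set_option autoImplicit false

namespace SoftPoly
open scoped ENNReal BigOperators
open Filter Topology


theorem bridge_fin (r β s : ℝ) (hβ : 0 < β) (h : r < Rinf (-s) β) :
    ∑' K : ℕ, ENNReal.ofReal (Real.exp (s * ((K : ℝ) + 1))) * bridge r β (K + 1) ≠ ⊤ := by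
  set δ : ℝ := Rinf (-s) β - r with hδ
  have hδpos : 0 < δ := by rw [hδ]; linarith
  have hlamle : ∀ M, lam r β M ≤ Real.exp (-(s + δ)) := by
    intro M
    have h1 := (RR_lim (-s) β hβ).2 M
    have h2 := (Lam_step β M r (RR (-s) β M) (by linarith)).1
    rw [Lam_RR] at h2
    have hpos : 0 < lam r β M := (pf_spec r β M).lpos
    have h3 : Real.log (lam r β M) ≤ -(s + δ) := by
      have h4 : Lam r β M ≤ -(s + δ) := by linarith
      exact h4
    exact (Real.log_le_iff_le_exp hpos).mp h3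
  have hbr : ∀ K : ℕ, bridge r β (K + 1) ≤ ENNReal.ofReal (Real.exp (-(s + δ)) ^ (K + 1)) := by
    intro K
    rw [bridge_iSup]
    refine iSup_le fun M => ?_
    apply ENNReal.ofReal_le_ofReal
    refine (pow_upper r β M (K + 1)).trans ?_
    exact pow_le_pow_left₀ (pf_spec r β M).lpos.le (hlamle M) _
  have hterm : ∀ K : ℕ, ENNReal.ofReal (Real.exp (s * ((K : ℝ) + 1))) * bridge r β (K + 1)
      ≤ ENNReal.ofReal (Real.exp (-δ) ^ (K + 1)) := by
    intro K
    refine (mul_le_mul_right (hbr K) _).trans ?_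
    rw [← ENNReal.ofReal_mul (Real.exp_pos _).le]
    apply ENNReal.ofReal_le_ofReal
    rw [← Real.exp_nat_mul, ← Real.exp_nat_mul, ← Real.exp_add]
    apply le_of_eq
    congr 1
    push_cast
    ring
  have hlt : Real.exp (-δ) < 1 := by
    rw [Real.exp_lt_one_iff]; linarith
  have hs : Summable (fun K : ℕ => Real.exp (-δ) ^ (K + 1)) :=
    (summable_nat_add_iff 1).mpr (summable_geometric_of_lt_one (Real.exp_pos _).le hlt)
  refine ne_top_of_le_ne_top hs.tsum_ofReal_ne_top ?_
  exact ENNReal.tsum_le_tsum hterm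

end SoftPoly
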