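import Pool.Agent.Helper839.SP.Defs
import Pool.Agent.Helper839.SP.P_aE_basic
import Pool.Agent.Helper839.SP.P_pf_spec

set_option autoImplicit false

namespace SoftPoly
open scoped ENNReal BigOperators
open Filter Topology


theorem pow_lower (r β : ℝ) (M : ℕ) :
    ∃ c : ℝ, 0 < c ∧ ∀ K : ℕ, c * (lam r β M) ^ (K + 1) ≤ ((AM r β M) ^ (K + 1)) 0 0 := by
  have hpf := pf_spec r β M
  obtain ⟨A, hA⟩ : ∃ A, A = AM r β M := ⟨_, rfl⟩
  obtain ⟨l, hl⟩ : ∃ l, l = lam r β M := ⟨_, rfl⟩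
  obtain ⟨x, hx⟩ : ∃ x, x = xv r β M := ⟨_, rfl⟩
  rw [← hA, ← hl, ← hx] at hpf
  rw [← hA, ← hl]
  have hApos : ∀ i j, 0 < A i j := by
    intro i j
    rw [hA]
    exact (aE_basic r β i j).1
  have hAK : ∀ K : ℕ, ∀ i j, 0 ≤ (A ^ K) i j := by
    intro K
    induction K with
    | zero =>
      intro i j
      rw [pow_zero, Matrix.one_apply]
      split_ifs <;> norm_num
    | succ K ih =>
      intro i j
      rw [pow_succ, Matrix.mul_apply]
      exact Finset.sum_nonneg (fun k _ => mul_nonneg (ih i k) (hApos k j).le)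
  have heig : A.mulVec x = l • x := by
    funext i
    rw [Matrix.mulVec, dotProduct]
    exact hpf.eig i
  have heigK : ∀ K : ℕ, (A ^ K).mulVec x = l ^ K • x := by
    intro K
    induction K with
    | zero => rw [pow_zero, pow_zero, Matrix.one_mulVec, one_smul]
    | succ K ih =>
      rw [pow_succ, ← Matrix.mulVec_mulVec, heig, Matrix.mulVec_smul, ih, smul_smul, pow_succ, mul_comm]
  have hsum : ∀ K : ℕ, ∑ j, (A ^ K) 0 j * x j = l ^ K * x 0 := by
    intro K
    have := congrFun (heigK K) 0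
    rw [Matrix.mulVec, dotProduct] at this
    exact this
  obtain ⟨j0, _, hj0⟩ := Finset.exists_min_image (Finset.univ : Finset (Fin (M + 1))) (fun j => A j 0 / x j)
    ⟨0, Finset.mem_univ _⟩
  obtain ⟨c', hc'⟩ : ∃ c', c' = A j0 0 / x j0 := ⟨_, rfl⟩
  have hc'pos : 0 < c' := by
    rw [hc']; exact div_pos (hApos _ _) (hpf.xpos _)
  have hc'le : ∀ j, c' * x j ≤ A j 0 := by
    intro j
    have := hj0 j (Finset.mem_univ j)
    rw [← hc', le_div_iff₀ (hpf.xpos j)] at this
    exact this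
  refine ⟨c' * x 0 / l, div_pos (mul_pos hc'pos (hpf.xpos 0)) hpf.lpos, ?_⟩
  intro K
  rw [pow_succ A K, Matrix.mul_apply]
  have hlne := hpf.lpos.ne'
  calc c' * x 0 / l * l ^ (K + 1) = c' * (l ^ K * x 0) := by
        rw [pow_succ]
        field_simp
    _ = ∑ j, (A ^ K) 0 j * (c' * x j) := by
        rw [← hsum K, Finset.mul_sum]
        apply Finset.sum_congr rfl
        intro j _
        ring
    _ ≤ ∑ j, (A ^ K) 0 j * A j 0 :=
        Finset.sum_le_sum (fun j _ => mul_le_mul_of_nonneg_left (hc'le j) (hAK K 0 j))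

end SoftPoly
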