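import Pool.Agent.Helper839.SP.Defs
import Pool.Agent.Helper839.SP.P_bridge_iSup
import Pool.Agent.Helper839.SP.P_pf_spec
import Pool.Agent.Helper839.SP.P_pow_lower
import Pool.Agent.Helper839.SP.P_Lam_step
import Pool.Agent.Helper839.SP.P_Lam_RR
import Pool.Agent.Helper839.SP.P_RR_iff
import Pool.Agent.Helper839.SP.P_RR_lim

set_option autoImplicit false

namespace SoftPoly
open scoped ENNReal BigOperators
open Filter Topology


theorem bridge_inf (r β s : ℝ) (hβ : 0 < β) (h : Rinf (-s) β < r) :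
    ∑' K : ℕ, ENNReal.ofReal (Real.exp (s * (K : ℝ))) * bridge r β (K + 1) = ⊤ := by
  obtain ⟨M, hM⟩ := exists_lt_of_ciInf_lt h
  have h1 : -s < Lam r β M := by
    by_contra h2
    exact absurd ((RR_iff (-s) β r M).2.2 (not_lt.1 h2)) (not_le.2 hM)
  have hl := (pf_spec r β M).lpos
  obtain ⟨c, hc, hcK⟩ := pow_lower r β M
  have hpos : 0 < c * Real.exp (-s) := by positivity
  have hterm : ∀ K : ℕ, ENNReal.ofReal (c * Real.exp (-s)) ≤
      ENNReal.ofReal (Real.exp (s * (K : ℝ))) * bridge r β (K + 1) := by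
    intro K
    have h2 : ENNReal.ofReal (((AM r β M) ^ (K + 1)) 0 0) ≤ bridge r β (K + 1) := by
      rw [bridge_iSup]
      exact le_iSup (fun M : ℕ => ENNReal.ofReal (((AM r β M) ^ (K + 1)) 0 0)) M
    have h3 : c * Real.exp (-s) ≤ Real.exp (s * (K : ℝ)) * (((AM r β M) ^ (K + 1)) 0 0) := by
      have h4 : Real.exp (-s) ≤ Real.exp (s * (K : ℝ)) * (lam r β M) ^ (K + 1) := by
        have h5 : lam r β M = Real.exp (Lam r β M) := (Real.exp_log hl).symm
        rw [h5, ← Real.exp_nat_mul, ← Real.exp_add]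
        apply Real.exp_le_exp.2
        push_cast
        have hK : (0 : ℝ) ≤ K := Nat.cast_nonneg K
        nlinarith
      calc c * Real.exp (-s) ≤ c * (Real.exp (s * (K : ℝ)) * (lam r β M) ^ (K + 1)) :=
            mul_le_mul_of_nonneg_left h4 hc.le
        _ = Real.exp (s * (K : ℝ)) * (c * (lam r β M) ^ (K + 1)) := by ring
        _ ≤ Real.exp (s * (K : ℝ)) * (((AM r β M) ^ (K + 1)) 0 0) :=
            mul_le_mul_of_nonneg_left (hcK K) (Real.exp_pos _).le
    calc ENNReal.ofReal (c * Real.exp (-s))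
        ≤ ENNReal.ofReal (Real.exp (s * (K : ℝ)) * (((AM r β M) ^ (K + 1)) 0 0)) :=
          ENNReal.ofReal_le_ofReal h3
      _ = ENNReal.ofReal (Real.exp (s * (K : ℝ))) * ENNReal.ofReal (((AM r β M) ^ (K + 1)) 0 0) :=
          ENNReal.ofReal_mul (Real.exp_pos _).le
      _ ≤ _ := by gcongr
  rw [eq_top_iff]
  have h6 : ∑' _K : ℕ, ENNReal.ofReal (c * Real.exp (-s)) = ⊤ :=
    ENNReal.tsum_const_eq_top_of_ne_zero (by rw [Ne, ENNReal.ofReal_eq_zero, not_le]; exact hpos)
  rw [← h6]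
  exact ENNReal.tsum_le_tsum hterm

end SoftPoly
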