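import Pool.Agent.Helper839.SP.Defs
import Pool.Agent.Helper903.Polymer.Resp

set_option autoImplicit false

namespace SoftPoly

open Polymer903

theorem XI_eq903 (r β : ℝ) (M m i : ℕ) : XI r β M m i = X β M m r i := by
  induction m generalizing i with
  | zero => rfl
  | succ m ih =>
    simp only [XI, X_succ, ih]
    rfl

theorem core (β : ℝ) (hβ : 0 < β) : ∃ C, Core β C := by
  refine ⟨2 * max (1 / (Real.exp (2 * β) - 1)) 1, ?_, ?_, ?_, ?_⟩
  · have := le_max_right (1 / (Real.exp (2 * β) - 1)) 1
    linarith
  · intro r M m i hi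
    simp only [XI_eq903]
    exact X_logconcave hβ (by omega) m i
  · intro r r' M m i hr hi
    simp only [XI_eq903]
    exact X_mlr hβ (by omega) m i hr
  · intro r r' M m i hr hi
    simp only [XI_eq903]
    exact X_up hβ (by omega) m i hr

end SoftPoly
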