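import Pool.Agent.Helper839.SP.Defs

set_option autoImplicit false

namespace SoftPoly
open scoped ENNReal BigOperators
open Filter Topology


theorem list_bdd' (L : List ℤ) : ∃ B : ℕ, ∀ p ∈ L, p < (B : ℤ) := by
  induction L with
  | nil => exact ⟨0, by simp⟩
  | cons a L ih =>
    obtain ⟨B, hB⟩ := ih
    refine ⟨max B (a.toNat + 1), ?_⟩
    intro p hp
    rcases List.mem_cons.mp hp with rfl | hp
    · have h1 : ((p.toNat + 1 : ℕ) : ℤ) ≤ ((max B (p.toNat + 1) : ℕ) : ℤ) := by
        exact_mod_cast le_max_right _ _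
      have h2 := Int.self_le_toNat p
      push_cast at h1
      push_cast
      omega
    · have h1 : ((B : ℕ) : ℤ) ≤ ((max B (a.toNat + 1) : ℕ) : ℤ) := by
        exact_mod_cast le_max_left _ _
      have h2 := hB p hp
      omega

theorem finset_bdd' (S : Finset (List Bool)) :
    ∃ K : ℕ, ∀ l ∈ S, ∀ p ∈ pos 0 l, p < (K : ℤ) := by
  classical
  choose B hB using fun l : List Bool => list_bdd' (pos 0 l)
  refine ⟨S.sup B, ?_⟩
  intro l hl p hp
  have h1 : B l ≤ S.sup B := Finset.le_sup hl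
  have h2 := hB l p hp
  have h3 : ((B l : ℕ) : ℤ) ≤ ((S.sup B : ℕ) : ℤ) := by exact_mod_cast h1
  omega

theorem half_eq_iSup (r β s : ℝ) : half r β s = ⨆ K : ℕ, halfK r β s K := by
  apply le_antisymm
  · unfold half
    rw [ENNReal.tsum_eq_iSup_sum]
    apply iSup_le
    intro S
    obtain ⟨K, hK⟩ := finset_bdd' S
    refine le_trans ?_ (le_iSup _ K)
    unfold halfK
    refine le_trans ?_ (ENNReal.sum_le_tsum S)
    apply Finset.sum_le_sum
    intro l hl
    by_cases h : ∀ p ∈ pos 0 l, 0 ≤ p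
    · rw [if_pos h, if_pos fun p hp => ⟨h p hp, hK l hl p hp⟩]
    · rw [if_neg h]
      exact zero_le
  · apply iSup_le
    intro K
    unfold half halfK
    apply ENNReal.tsum_le_tsum
    intro l
    by_cases h : ∀ p ∈ pos 0 l, 0 ≤ p ∧ p < (K : ℤ)
    · rw [if_pos h, if_pos fun p hp => (h p hp).1]
    · rw [if_neg h]
      exact zero_le

end SoftPoly
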