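import Pool.Agent.Helper839.SP.Defs

set_option autoImplicit false

namespace SoftPoly
open scoped ENNReal BigOperators
open Filter Topology


theorem last_visit (x z : ℤ) (l : List Bool) (h : z ∈ pos x l) :
    ∃ l1 l2 : List Bool, l = l1 ++ l2 ∧ endp x l1 = z ∧
      (l2 = [] ∨ ∃ (b : Bool) (l3 : List Bool), l2 = b :: l3 ∧ z ∉ pos (z + stp b) l3) := by
  induction l generalizing x with
  | nil =>
    simp only [pos, List.mem_singleton] at h
    exact ⟨[], [], rfl, by simp [endp, h], Or.inl rfl⟩
  | cons c l' ih =>
    by_cases hz : z ∈ pos (x + stp c) l'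
    · obtain ⟨l1, l2, h1, h2, h3⟩ := ih (x + stp c) hz
      refine ⟨c :: l1, l2, by rw [h1]; rfl, ?_, h3⟩
      rw [← h2]
      simp only [endp, List.map_cons, List.sum_cons]
      ring
    · have hx : z = x := by
        simp only [pos, List.mem_cons] at h
        rcases h with h | h
        · exact h
        · exact absurd h hz
      refine ⟨[], c :: l', rfl, by simp [endp, hx], Or.inr ⟨c, l', rfl, ?_⟩⟩
      rw [hx] at hz ⊢
      exact hz

end SoftPoly
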