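import Pool.Agent.Helper839.SP.Defs

set_option autoImplicit false

namespace SoftPoly
open scoped ENNReal BigOperators
open Filter Topology


theorem pos_append (x : ℤ) (l1 l2 : List Bool) (b : Bool) :
    pos x (l1 ++ b :: l2) = pos x l1 ++ pos (endp x l1 + stp b) l2 ∧
      endp x (l1 ++ b :: l2) = endp (endp x l1 + stp b) l2 := by
  have he : ∀ (x : ℤ) (c : Bool) (l : List Bool), endp x (c :: l) = endp (x + stp c) l := by
    intro x c l
    unfold endp
    rw [List.map_cons, List.sum_cons, add_assoc]
  have h0 : ∀ x : ℤ, endp x [] = x := by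
    intro x
    unfold endp
    simp
  induction l1 generalizing x with
  | nil =>
    rw [h0]
    exact ⟨rfl, he x b l2⟩
  | cons c l1 ih =>
    obtain ⟨h1, h2⟩ := ih (x + stp c)
    rw [he x c l1]
    constructor
    · show x :: pos (x + stp c) (l1 ++ b :: l2) = x :: (pos (x + stp c) l1 ++ _)
      rw [h1]
    · show endp x (c :: (l1 ++ b :: l2)) = _
      rw [he, h2]

end SoftPoly
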