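import Pool.Agent.Helper839.SP.Defs

set_option autoImplicit false

namespace SoftPoly
open scoped ENNReal BigOperators
open Filter Topology


theorem pos_basic (x : ℤ) (l : List Bool) :
    (pos x l).length = l.length + 1 ∧ x ∈ pos x l ∧ endp x l ∈ pos x l := by
  induction l generalizing x with
  | nil => simp [pos, endp]
  | cons b l ih =>
    obtain ⟨h1, _, h3⟩ := ih (x + stp b)
    have he : endp x (b :: l) = endp (x + stp b) l := by
      simp only [endp, List.map_cons, List.sum_cons]
      ring
    refine ⟨?_, ?_, ?_⟩
    · simp only [pos, List.length_cons, h1]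
    · simp [pos]
    · rw [he]
      simp only [pos, List.mem_cons]
      exact Or.inr h3

end SoftPoly
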