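import Pool.Agent.Helper839.SP.Defs

set_option autoImplicit false

namespace SoftPoly
open scoped ENNReal BigOperators
open Filter Topology


theorem pos_covers (x : ℤ) (l : List Bool) (z : ℤ)
    (h : (x ≤ z ∧ z ≤ endp x l) ∨ (endp x l ≤ z ∧ z ≤ x)) : z ∈ pos x l := by
  induction l generalizing x with
  | nil =>
    have e : endp x [] = x := by simp [endp]
    rw [e] at h
    have : z = x := by omega
    subst this
    simp [pos]
  | cons b l ih =>
    have e : endp x (b :: l) = endp (x + stp b) l := by
      simp [endp, add_assoc]
    rw [e] at h
    show z ∈ x :: pos (x + stp b) l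
    by_cases hz : z = x
    · rw [hz]; exact List.mem_cons_self
    · refine List.mem_cons_of_mem _ (ih _ ?_)
      have hs : stp b = 1 ∨ stp b = -1 := by cases b <;> simp [stp]
      omega

end SoftPoly
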