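import Pool.Agent.Helper839.SP.Defs

set_option autoImplicit false

namespace SoftPoly
open scoped ENNReal BigOperators
open Filter Topology


theorem pos_flip_stp (b : Bool) : stp (!b) = - stp b := by
  cases b <;> simp [stp]

theorem pos_flip (x c : ℤ) (l : List Bool) :
    pos (c - x) (l.map not) = (pos x l).map (fun z => c - z) ∧
      endp (c - x) (l.map not) = c - endp x l := by
  induction l generalizing x with
  | nil => constructor <;> simp [pos, endp]
  | cons b l ih =>
    obtain ⟨h1, h2⟩ := ih (x + stp b)
    constructor
    · show (c - x) :: pos (c - x + stp (!b)) (l.map not) =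
        (c - x) :: (pos (x + stp b) l).map (fun z => c - z)
      rw [pos_flip_stp, show c - x + -stp b = c - (x + stp b) by ring, h1]
    · simp only [endp, List.map_cons, List.sum_cons, pos_flip_stp] at h2 ⊢
      linarith

end SoftPoly
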