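import Pool.Agent.Helper839.SP.Defs

set_option autoImplicit false

namespace SoftPoly
open scoped ENNReal BigOperators
open Filter Topology


theorem tsum_le_section {α γ : Type*} (F : α → ℝ≥0∞) (G : γ → ℝ≥0∞)
    (φ : γ → α) (h : ∀ a, F a ≠ 0 → ∃ p, φ p = a ∧ F a ≤ G p) :
    ∑' a, F a ≤ ∑' p, G p := by
  classical
  have h' : ∀ a : Function.support F, ∃ p, φ p = (a : α) ∧ F a ≤ G p := fun a => h a a.2
  choose p hp1 hp2 using h'
  have hinj : Function.Injective p := by
    intro a b hab
    apply Subtype.ext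
    rw [← hp1 a, ← hp1 b, hab]
  calc ∑' a, F a = ∑' a : Function.support F, F a := (tsum_subtype_support F).symm
    _ ≤ ∑' a : Function.support F, G (p a) := ENNReal.tsum_le_tsum hp2
    _ ≤ ∑' q, G q := ENNReal.tsum_comp_le_tsum_of_injective hinj G

end SoftPoly
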