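import Pool.Agent.Helper839.SP.Defs
import Pool.Agent.Helper839.SP.P_pos_basic
import Pool.Agent.Helper839.SP.P_pos_append
import Pool.Agent.Helper839.SP.P_pos_flip
import Pool.Agent.Helper839.SP.P_HH_append
import Pool.Agent.Helper839.SP.P_HH_map
import Pool.Agent.Helper839.SP.P_pos_covers
import Pool.Agent.Helper839.SP.P_XX_lower
import Pool.Agent.Helper839.SP.P_last_visit
import Pool.Agent.Helper839.SP.P_tsum_le_section

set_option autoImplicit false

namespace SoftPoly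
open scoped ENNReal BigOperators
open Filter Topology


/-- part of the walks not ending at the top, cut at the last visit of the top -/
theorem hr_G3 (r β s : ℝ) (hs : -β ≤ s) (hβ : 0 ≤ β) (K : ℕ) (a : List Bool)
    (h1 : ∀ p ∈ pos 0 a, 0 ≤ p ∧ p < ((K + 1 : ℕ) : ℤ)) (h2 : (K : ℤ) ∈ pos 0 a)
    (h3 : endp 0 a ≠ K) :
    ∃ l1 l3 : List Bool, l1 ++ false :: l3.map not = a ∧
      (∀ p ∈ pos 0 l1, 0 ≤ p ∧ p < ((K + 1 : ℕ) : ℤ)) ∧ endp 0 l1 = ((K + 1 : ℕ) : ℤ) - 1 ∧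
      (∀ p ∈ pos 0 l3, 0 ≤ p ∧ p < (K : ℤ)) ∧
      hw r β s a ≤ ENNReal.ofReal (Real.exp (s * ((K : ℝ) + 1))) *
        (ENNReal.ofReal (Real.exp (r * ((l1.length : ℝ) + 1) - β * (HH (pos 0 l1) : ℝ))) *
          hw r β s l3) := by
  obtain ⟨l1, l2, hl, hend, hl2⟩ := last_visit 0 K a h2
  rcases hl2 with hl2 | ⟨b, l3, hl2, hK⟩
  · exfalso
    apply h3
    rw [hl, hl2, List.append_nil]
    exact hend
  subst hl2
  subst hl
  obtain ⟨hpos, hend2⟩ := pos_append 0 l1 l3 b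
  rw [hend] at hpos hend2
  have hb : b = false := by
    cases b with
    | false => rfl
    | true =>
      exfalso
      have h4 : (K : ℤ) + stp true ∈ pos 0 (l1 ++ true :: l3) := by
        rw [hpos]
        exact List.mem_append_right _ (pos_basic _ _).2.1
      have h5 := (h1 _ h4).2
      have h6 : stp true = 1 := rfl
      rw [h6] at h5
      push_cast at h5
      omega
  subst hb
  have hst : (K : ℤ) + stp false = (K : ℤ) - 1 := rfl
  rw [hst] at hpos hend2 hK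
  have hP2 : ∀ p ∈ pos ((K : ℤ) - 1) l3, 0 ≤ p ∧ p < (K : ℤ) := by
    intro p hp
    have h4 := h1 p (by rw [hpos]; exact List.mem_append_right _ hp)
    have h5 : p ≠ K := fun h => hK (h ▸ hp)
    push_cast at h4
    omega
  have hP1 : ∀ p ∈ pos 0 l1, 0 ≤ p ∧ p < ((K + 1 : ℕ) : ℤ) := fun p hp =>
    h1 p (by rw [hpos]; exact List.mem_append_left _ hp)
  obtain ⟨hf1, hf2⟩ := pos_flip ((K : ℤ) - 1) ((K : ℤ) - 1) l3
  rw [sub_self] at hf1 hf2
  have hend3 := (pos_basic ((K : ℤ) - 1) l3).2.2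
  have hmm : (l3.map not).map not = l3 := by
    rw [List.map_map]
    have : (not ∘ not) = id := by
      funext b
      cases b <;> rfl
    rw [this, List.map_id]
  refine ⟨l1, l3.map not, by rw [hmm], hP1, by rw [hend]; push_cast; ring, ?_, ?_⟩
  · intro p hp
    rw [hf1] at hp
    obtain ⟨z, hz, rfl⟩ := List.mem_map.1 hp
    have := hP2 z hz
    constructor <;> omega
  · have hXX : (K : ℤ) - endp ((K : ℤ) - 1) l3 ≤ (XX (pos 0 l1) (pos ((K : ℤ) - 1) l3) : ℤ) := by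
      refine XX_lower _ _ _ _ fun z hz1 hz2 => ⟨?_, ?_⟩
      · refine pos_covers 0 l1 z (Or.inl ⟨?_, ?_⟩)
        · exact (hP2 _ hend3).1.trans hz1
        · rw [hend]
          exact hz2.le
      · refine pos_covers _ l3 z (Or.inr ⟨hz1, ?_⟩)
        omega
    have hHH : HH (pos 0 (l3.map not)) = HH (pos ((K : ℤ) - 1) l3) := by
      rw [hf1]
      exact HH_map _ _ fun a b h => by
        have : (K : ℤ) - 1 - a = (K : ℤ) - 1 - b := h
        omega
    have hXXr : (K : ℝ) - (endp ((K : ℤ) - 1) l3 : ℝ) ≤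
        (XX (pos 0 l1) (pos ((K : ℤ) - 1) l3) : ℝ) := by
      exact_mod_cast hXX
    have hEr : (endp ((K : ℤ) - 1) l3 : ℝ) ≤ (K : ℝ) - 1 := by
      have := (hP2 _ hend3).2
      have h5 : endp ((K : ℤ) - 1) l3 ≤ (K : ℤ) - 1 := by omega
      exact_mod_cast h5
    unfold hw
    rw [← ENNReal.ofReal_mul (Real.exp_pos _).le, ← ENNReal.ofReal_mul (Real.exp_pos _).le,
      ← Real.exp_add, ← Real.exp_add]
    apply ENNReal.ofReal_le_ofReal
    apply Real.exp_le_exp.2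
    rw [hpos, hend2, HH_append, hHH, hf2, List.length_append, List.length_cons, List.length_map]
    push_cast
    have hβ2 : 0 ≤ (β + s) := by linarith
    have key : 0 ≤ (β + s) * ((K : ℝ) - (endp ((K : ℤ) - 1) l3 : ℝ)) :=
      mul_nonneg hβ2 (by linarith)
    have key2 := mul_le_mul_of_nonneg_left hXXr hβ
    nlinarith

theorem hr_prod (A B : List Bool → ℝ≥0∞) :
    ∑' p : List Bool × List Bool, A p.1 * B p.2 = (∑' l, A l) * ∑' l, B l := by
  rw [ENNReal.tsum_prod (f := fun a b => A a * B b)]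
  simp only [ENNReal.tsum_mul_left]
  rw [ENNReal.tsum_mul_right]

open Classical in
theorem hr_F3 (r β s : ℝ) (hs : -β ≤ s) (hβ : 0 ≤ β) (K : ℕ) :
    (∑' a : List Bool, if ((∀ p ∈ pos 0 a, 0 ≤ p ∧ p < ((K + 1 : ℕ) : ℤ)) ∧ (K : ℤ) ∈ pos 0 a ∧
      endp 0 a ≠ K) then hw r β s a else 0) ≤
      ENNReal.ofReal (Real.exp (s * ((K : ℝ) + 1))) * (bridge r β (K + 1) * halfK r β s K) := by
  calc (∑' a : List Bool, if ((∀ p ∈ pos 0 a, 0 ≤ p ∧ p < ((K + 1 : ℕ) : ℤ)) ∧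
      (K : ℤ) ∈ pos 0 a ∧ endp 0 a ≠ K) then hw r β s a else 0) ≤
      ∑' p : List Bool × List Bool, ENNReal.ofReal (Real.exp (s * ((K : ℝ) + 1))) *
        ((if (∀ q ∈ pos 0 p.1, 0 ≤ q ∧ q < ((K + 1 : ℕ) : ℤ)) ∧
            endp 0 p.1 = ((K + 1 : ℕ) : ℤ) - 1 then
          ENNReal.ofReal (Real.exp (r * ((p.1.length : ℝ) + 1) - β * (HH (pos 0 p.1) : ℝ))) else 0) *
          (if (∀ q ∈ pos 0 p.2, 0 ≤ q ∧ q < (K : ℤ)) then hw r β s p.2 else 0)) := by
        refine tsum_le_section _ _ (fun p : List Bool × List Bool => p.1 ++ false :: p.2.map not) ?_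
        intro a ha
        have hcond : (∀ p ∈ pos 0 a, 0 ≤ p ∧ p < ((K + 1 : ℕ) : ℤ)) ∧ (K : ℤ) ∈ pos 0 a ∧
            endp 0 a ≠ K := by
          by_contra hcon
          exact ha (if_neg hcon)
        obtain ⟨l1, l3, e1, e2, e3, e4, e5⟩ := hr_G3 r β s hs hβ K a hcond.1 hcond.2.1 hcond.2.2
        refine ⟨(l1, l3), e1, ?_⟩
        rw [if_pos hcond]
        refine e5.trans (le_of_eq ?_)
        change _ = ENNReal.ofReal (Real.exp (s * ((K : ℝ) + 1))) *
        ((if (∀ q ∈ pos 0 l1, 0 ≤ q ∧ q < ((K + 1 : ℕ) : ℤ)) ∧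
            endp 0 l1 = ((K + 1 : ℕ) : ℤ) - 1 then
          ENNReal.ofReal (Real.exp (r * ((l1.length : ℝ) + 1) - β * (HH (pos 0 l1) : ℝ))) else 0) *
          (if (∀ q ∈ pos 0 l3, 0 ≤ q ∧ q < (K : ℤ)) then hw r β s l3 else 0))
        rw [if_pos ⟨e2, e3⟩, if_pos e4]
    _ = ENNReal.ofReal (Real.exp (s * ((K : ℝ) + 1))) * (bridge r β (K + 1) * halfK r β s K) := by
        rw [ENNReal.tsum_mul_left]
        congr 1
        refine (hr_prod (fun l => if (∀ q ∈ pos 0 l, 0 ≤ q ∧ q < ((K + 1 : ℕ) : ℤ)) ∧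
            endp 0 l = ((K + 1 : ℕ) : ℤ) - 1 then
          ENNReal.ofReal (Real.exp (r * ((l.length : ℝ) + 1) - β * (HH (pos 0 l) : ℝ))) else 0)
          (fun l => if (∀ q ∈ pos 0 l, 0 ≤ q ∧ q < (K : ℤ)) then hw r β s l else 0)).trans ?_
        unfold bridge halfK
        congr 1

theorem half_rec (r β s : ℝ) (hs : -β ≤ s) (hβ : 0 ≤ β) (K : ℕ) :
    halfK r β s (K + 1) + ENNReal.ofReal (Real.exp (-s)) ≤
      (halfK r β s K + ENNReal.ofReal (Real.exp (-s))) *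
        (1 + ENNReal.ofReal (Real.exp (s * ((K : ℝ) + 1))) * bridge r β (K + 1)) := by
  classical
  have hF2 : (∑' a : List Bool, if ((∀ p ∈ pos 0 a, 0 ≤ p ∧ p < ((K + 1 : ℕ) : ℤ)) ∧
      endp 0 a = ((K + 1 : ℕ) : ℤ) - 1) then hw r β s a else 0) =
      ENNReal.ofReal (Real.exp (-s)) * ENNReal.ofReal (Real.exp (s * ((K : ℝ) + 1))) *
        bridge r β (K + 1) := by
    unfold bridge
    rw [← ENNReal.tsum_mul_left]
    refine tsum_congr fun l => ?_
    by_cases hl : (∀ p ∈ pos 0 l, 0 ≤ p ∧ p < ((K + 1 : ℕ) : ℤ)) ∧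
      endp 0 l = ((K + 1 : ℕ) : ℤ) - 1
    · rw [if_pos hl, if_pos hl]
      unfold hw
      rw [← ENNReal.ofReal_mul (Real.exp_pos _).le, ← ENNReal.ofReal_mul (by positivity),
        ← Real.exp_add, ← Real.exp_add]
      congr 2
      rw [hl.2]
      push_cast
      ring
    · rw [if_neg hl, if_neg hl, mul_zero]
  have hmain : halfK r β s (K + 1) ≤ halfK r β s K +
      ENNReal.ofReal (Real.exp (-s)) * ENNReal.ofReal (Real.exp (s * ((K : ℝ) + 1))) *
        bridge r β (K + 1) +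
      ENNReal.ofReal (Real.exp (s * ((K : ℝ) + 1))) * (bridge r β (K + 1) * halfK r β s K) := by
    refine le_trans ?_ (add_le_add (le_of_eq (congrArg (fun z => halfK r β s K + z) hF2))
      (hr_F3 r β s hs hβ K))
    unfold halfK
    rw [← ENNReal.tsum_add, ← ENNReal.tsum_add]
    refine ENNReal.tsum_le_tsum fun l => ?_
    by_cases hl : ∀ p ∈ pos 0 l, 0 ≤ p ∧ p < ((K + 1 : ℕ) : ℤ)
    · rw [if_pos hl]
      by_cases hK : (K : ℤ) ∈ pos 0 l
      · by_cases he : endp 0 l = K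
        · have he' : endp 0 l = ((K + 1 : ℕ) : ℤ) - 1 := by
            rw [he]; push_cast; ring
          rw [if_pos (⟨hl, he'⟩ : (∀ p ∈ pos 0 l, 0 ≤ p ∧ p < ((K + 1 : ℕ) : ℤ)) ∧
            endp 0 l = ((K + 1 : ℕ) : ℤ) - 1)]
          exact le_add_right le_add_self
        · rw [if_pos (⟨hl, hK, he⟩ : (∀ p ∈ pos 0 l, 0 ≤ p ∧ p < ((K + 1 : ℕ) : ℤ)) ∧
            (K : ℤ) ∈ pos 0 l ∧ endp 0 l ≠ K)]
          exact le_add_self
      · have hl' : ∀ p ∈ pos 0 l, 0 ≤ p ∧ p < (K : ℤ) := by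
          intro p hp
          have h1 := hl p hp
          have h2 : p ≠ K := fun h => hK (h ▸ hp)
          push_cast at h1
          omega
        rw [if_pos hl']
        exact le_add_right (le_add_right le_rfl)
    · rw [if_neg hl]
      exact bot_le
  calc halfK r β s (K + 1) + ENNReal.ofReal (Real.exp (-s))
      ≤ (halfK r β s K +
      ENNReal.ofReal (Real.exp (-s)) * ENNReal.ofReal (Real.exp (s * ((K : ℝ) + 1))) *
        bridge r β (K + 1) +
      ENNReal.ofReal (Real.exp (s * ((K : ℝ) + 1))) * (bridge r β (K + 1) * halfK r β s K)) +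
        ENNReal.ofReal (Real.exp (-s)) := add_le_add hmain le_rfl
    _ = _ := by ring

end SoftPoly
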