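import Pool.Agent.Helper839.SP.Defs
import Pool.Agent.Helper839.SP.P_half_rec
import Pool.Agent.Helper839.SP.P_half_eq_iSup

set_option autoImplicit false

namespace SoftPoly
open scoped ENNReal BigOperators
open Filter Topology


theorem j17695_mem (x : ℤ) (l : List Bool) : x ∈ pos x l := by
  cases l with
  | nil => exact List.mem_singleton.2 rfl
  | cons b l => exact List.mem_cons_self

theorem j17695_zero (r β s : ℝ) : halfK r β s 0 = 0 := by
  unfold halfK
  rw [ENNReal.tsum_eq_zero]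
  intro l
  refine if_neg fun h => ?_
  have := (h 0 (j17695_mem 0 l)).2
  simp at this

theorem j17695_ind (x : ℕ → ℝ≥0∞) (c : ℝ≥0∞) (a : ℕ → ℝ≥0∞) (ha : ∀ K, a K ≠ ⊤) (h0 : x 0 = 0)
    (hr : ∀ K, x (K + 1) + c ≤ (x K + c) * (1 + a K)) (K : ℕ) :
    x K + c ≤ c * ENNReal.ofReal (Real.exp (∑ j ∈ Finset.range K, (a j).toReal)) := by
  induction K with
  | zero =>
    rw [h0, Finset.sum_range_zero, Real.exp_zero, ENNReal.ofReal_one, mul_one, zero_add]
  | succ K ih =>
    refine (hr K).trans ((mul_le_mul_left ih _).trans ?_)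
    rw [mul_assoc]
    refine mul_le_mul_right ?_ c
    have h1 : 1 + a K ≤ ENNReal.ofReal (Real.exp (a K).toReal) := by
      have h2 : 1 + a K = ENNReal.ofReal (1 + (a K).toReal) := by
        rw [ENNReal.ofReal_add zero_le_one ENNReal.toReal_nonneg, ENNReal.ofReal_one,
          ENNReal.ofReal_toReal (ha K)]
      rw [h2]
      refine ENNReal.ofReal_le_ofReal ?_
      have := Real.add_one_le_exp (a K).toReal
      linarith
    refine (mul_le_mul_right h1 _).trans (le_of_eq ?_)
    rw [← ENNReal.ofReal_mul (Real.exp_pos _).le, ← Real.exp_add, Finset.sum_range_succ]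

theorem half_ne_top (r β s : ℝ) (hs : -β ≤ s) (hβ : 0 ≤ β)
    (h : ∑' K : ℕ, ENNReal.ofReal (Real.exp (s * ((K : ℝ) + 1))) * bridge r β (K + 1) ≠ ⊤) :
    half r β s ≠ ⊤ := by
  have ha : ∀ K : ℕ, ENNReal.ofReal (Real.exp (s * ((K : ℝ) + 1))) * bridge r β (K + 1) ≠ ⊤ :=
    fun K => ENNReal.ne_top_of_tsum_ne_top h K
  set a : ℕ → ℝ≥0∞ := fun K => ENNReal.ofReal (Real.exp (s * ((K : ℝ) + 1))) *
    bridge r β (K + 1) with hadef
  have hind := j17695_ind (fun K => halfK r β s K) (ENNReal.ofReal (Real.exp (-s))) a ha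
    (j17695_zero r β s) (half_rec r β s hs hβ)
  have hb : ∀ K, halfK r β s K ≤ ENNReal.ofReal (Real.exp (-s)) *
      ENNReal.ofReal (Real.exp (∑' K, a K).toReal) := by
    intro K
    refine le_self_add.trans ((hind K).trans ?_)
    refine mul_le_mul_right (ENNReal.ofReal_le_ofReal (Real.exp_le_exp.2 ?_)) _
    rw [← ENNReal.toReal_sum fun j _ => ha j]
    exact ENNReal.toReal_mono h (ENNReal.sum_le_tsum _)
  rw [half_eq_iSup]
  refine ne_top_of_le_ne_top ?_ (iSup_le hb)
  exact ENNReal.mul_ne_top ENNReal.ofReal_ne_top ENNReal.ofReal_ne_top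

end SoftPoly
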