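import Pool.Agent.Helper839.SP.Defs

set_option autoImplicit false

namespace SoftPoly
open scoped ENNReal BigOperators
open Filter Topology


theorem pos_ofFn_aux (n : ℕ) : ∀ (x : ℤ) (ω : Fin n → Bool),
    pos x (List.ofFn ω) = List.ofFn (fun k : Fin (n + 1) =>
      x + ∑ i ∈ Finset.univ.filter (fun i : Fin n => (i : ℕ) < (k : ℕ)),
        (if ω i then (1:ℤ) else -1)) := by
  induction n with
  | zero =>
    intro x ω
    simp [pos]
  | succ n ih =>
    intro x ω
    rw [List.ofFn_succ, pos, ih, List.ofFn_succ (n := n + 1)]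
    congr 1
    · simp
    · congr 1
      funext k
      rw [Finset.sum_filter, Finset.sum_filter, Fin.sum_univ_succ]
      simp only [Fin.val_zero, Fin.val_succ, Nat.succ_pos, if_true, add_lt_add_iff_right, stp]
      ring

theorem pos_ofFn (n : ℕ) (ω : Fin n → Bool) :
    pos 0 (List.ofFn ω) = List.ofFn (fun k : Fin (n + 1) =>
      ∑ i ∈ Finset.univ.filter (fun i : Fin n => (i : ℕ) < (k : ℕ)), (if ω i then (1:ℤ) else -1)) := by
  rw [pos_ofFn_aux]
  simp only [zero_add]

end SoftPoly
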