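import Pool.Agent.Helper839.SP.Defs
import Pool.Agent.Helper839.SP.P_pos_ofFn
import Pool.Agent.Helper839.SP.P_HH_card

set_option autoImplicit false

namespace SoftPoly
open scoped ENNReal BigOperators
open Filter Topology


theorem total_eq (r β s : ℝ) :
    total r β s = ∑' n : ℕ, ENNReal.ofReal (Real.exp (r * ((n : ℝ) + 1)) * Zn n β s) := by
  unfold total
  rw [← Equiv.tsum_eq (List.equivSigmaTuple (α := Bool)).symm (wt r β s), ENNReal.tsum_sigma']
  refine tsum_congr fun n => ?_
  rw [tsum_fintype]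
  have key : ∀ ω : Fin n → Bool, wt r β s ((List.equivSigmaTuple (α := Bool)).symm ⟨n, ω⟩)
      = ENNReal.ofReal (Real.exp (r * ((n : ℝ) + 1)) *
        Real.exp (-β * (Hn n ω : ℝ) + s * |Sn n ω|)) := by
    intro ω
    show wt r β s (List.ofFn ω) = _
    have h1 : HH (pos 0 (List.ofFn ω)) = Hn n ω := by
      rw [pos_ofFn, HH_card]
      rfl
    have h2 : ((endp 0 (List.ofFn ω) : ℤ) : ℝ) = Sn n ω := by
      unfold endp Sn
      rw [zero_add, List.map_ofFn, List.sum_ofFn, Int.cast_sum]
      refine Finset.sum_congr rfl fun i _ => ?_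
      simp only [Function.comp, stp]
      split_ifs <;> simp
    unfold wt
    rw [h1, h2, List.length_ofFn, ← Real.exp_add]
    congr 2
    ring
  rw [Finset.sum_congr rfl (fun ω _ => key ω), ← ENNReal.ofReal_sum_of_nonneg
    (fun ω _ => by positivity), ← Finset.mul_sum]
  rfl

end SoftPoly
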