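import Pool.Agent.Helper839.SP.Defs

set_option autoImplicit false

namespace SoftPoly
open scoped ENNReal BigOperators
open Filter Topology


theorem total_ge (r β s : ℝ) :
    ∑' K : ℕ, ENNReal.ofReal (Real.exp (s * (K : ℝ))) * bridge r β (K + 1) ≤ total r β s := by
  unfold bridge total
  simp only [← ENNReal.tsum_mul_left]
  rw [ENNReal.tsum_comm]
  refine ENNReal.tsum_le_tsum fun l => ?_
  rw [tsum_eq_single (endp 0 l).toNat]
  · split_ifs with h
    · obtain ⟨-, h2⟩ := h
      obtain ⟨K0, hK0⟩ : ∃ K0 : ℕ, K0 = (endp 0 l).toNat := ⟨_, rfl⟩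
      rw [← hK0] at h2 ⊢
      have h3 : endp 0 l = (K0 : ℤ) := by rw [h2]; push_cast; ring
      rw [← ENNReal.ofReal_mul (Real.exp_pos _).le, ← Real.exp_add, wt, h3]
      apply le_of_eq
      congr 2
      have : |(((K0 : ℤ)) : ℝ)| = (K0 : ℝ) := by
        rw [Int.cast_natCast, abs_of_nonneg (Nat.cast_nonneg _)]
      rw [this]
      ring
    · rw [mul_zero]
      exact bot_le
  · intro K hK
    rw [if_neg, mul_zero]
    rintro ⟨-, h2⟩
    apply hK
    rw [h2]
    push_cast
    simp

end SoftPoly
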