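import Pool.Agent.Helper839.SP.Defs

set_option autoImplicit false

namespace SoftPoly
open scoped ENNReal BigOperators
open Filter Topology


theorem endp_cons (x : ℤ) (b : Bool) (l : List Bool) : endp x (b :: l) = endp (x + stp b) l := by
  unfold endp
  rw [List.map_cons, List.sum_cons]
  ring

theorem endp_append (x : ℤ) (l m : List Bool) : endp x (l ++ m) = endp (endp x l) m := by
  unfold endp
  rw [List.map_append, List.sum_append]
  ring

theorem pos_snoc (x : ℤ) (l : List Bool) (b : Bool) :
    pos x (l ++ [b]) = pos x l ++ [endp x (l ++ [b])] := by
  induction l generalizing x with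
  | nil => simp [pos, endp]
  | cons c l ih =>
    rw [List.cons_append, pos, ih, pos, endp_cons, List.cons_append]

theorem stp_not (b : Bool) : stp (!b) = - stp b := by
  cases b <;> simp [stp]

theorem endp_rev (x : ℤ) (l : List Bool) : endp (endp x l) ((l.map not).reverse) = x := by
  unfold endp
  rw [List.map_reverse, List.sum_reverse, List.map_map]
  have h : (List.map (stp ∘ not) l).sum = -(List.map stp l).sum := by
    induction l with
    | nil => simp
    | cons c l ih =>
      rw [List.map_cons, List.sum_cons, ih, List.map_cons, List.sum_cons]
      have := stp_not c
      simp only [Function.comp_apply]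
      rw [this]
      ring
  rw [h]
  ring

theorem pos_rev (x : ℤ) (l : List Bool) :
    pos (endp x l) ((l.map not).reverse) = (pos x l).reverse ∧
      endp (endp x l) ((l.map not).reverse) = x := by
  refine ⟨?_, endp_rev x l⟩
  induction l generalizing x with
  | nil => simp [pos, endp]
  | cons b l ih =>
    rw [List.map_cons, List.reverse_cons, endp_cons, pos_snoc, ih, pos, List.reverse_cons,
      endp_append, endp_rev]
    congr 2
    unfold endp
    rw [List.map_singleton, List.sum_singleton, stp_not]
    ring

end SoftPoly
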