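import Pool.Agent.Helper839.SP.Defs

set_option autoImplicit false

namespace SoftPoly
open scoped ENNReal BigOperators
open Filter Topology


theorem pos_shift (x c : ℤ) (l : List Bool) :
    pos (x + c) l = (pos x l).map (fun z => z + c) ∧ endp (x + c) l = endp x l + c := by
  refine ⟨?_, ?_⟩
  · induction l generalizing x with
    | nil => rfl
    | cons b l ih =>
      show (x + c) :: pos (x + c + stp b) l = (x + c) :: (pos (x + stp b) l).map (fun z => z + c)
      rw [← ih, add_right_comm]
  · unfold endp
    ring

end SoftPoly
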