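import Pool.Agent.Helper839.SP.Defs
import Pool.Agent.Helper839.SP.P_pos_basic
import Pool.Agent.Helper839.SP.P_pos_append
import Pool.Agent.Helper839.SP.P_pos_shift
import Pool.Agent.Helper839.SP.P_pos_flip
import Pool.Agent.Helper839.SP.P_pos_rev
import Pool.Agent.Helper839.SP.P_HH_append
import Pool.Agent.Helper839.SP.P_HH_map
import Pool.Agent.Helper839.SP.P_HH_rev
import Pool.Agent.Helper839.SP.P_pos_covers
import Pool.Agent.Helper839.SP.P_XX_lower
import Pool.Agent.Helper839.SP.P_last_visit
import Pool.Agent.Helper839.SP.P_tsum_le_section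

set_option autoImplicit false

namespace SoftPoly
open scoped ENNReal BigOperators
open Filter Topology


theorem aux_total_real (r β s : ℝ) (hs : -β ≤ s) (L1 L3 : ℕ) (h1 h2 : ℕ) (X : ℕ) (a e : ℤ)
    (ha : 0 ≤ a) (he : 0 ≤ e) (hX : min a (e + 1) ≤ (X : ℤ)) (hβ : 0 ≤ β) :
    r * (((L1 + 1 + L3 : ℕ) : ℝ) + 1) - β * ((h1 + h2 + 2 * X : ℕ) : ℝ)
      + s * |((-a + 1 + e : ℤ) : ℝ)| ≤
    s + (r * ((L1 : ℝ) + 1) - β * (h1 : ℝ) + s * ((a : ℤ) : ℝ)) +
      (r * ((L3 : ℝ) + 1) - β * (h2 : ℝ) + s * ((e : ℤ) : ℝ)) := by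
  have hX' : ((min a (e + 1) : ℤ) : ℝ) ≤ (X : ℝ) := by exact_mod_cast hX
  have key : |((-a + 1 + e : ℤ) : ℝ)| + 2 * ((min a (e + 1) : ℤ) : ℝ) = (a : ℝ) + e + 1 := by
    rcases le_total a (e + 1) with h | h
    · rw [min_eq_left h, abs_of_nonneg]
      · push_cast; ring
      · have : (0 : ℤ) ≤ -a + 1 + e := by omega
        exact_mod_cast this
    · rw [min_eq_right h, abs_of_nonpos]
      · push_cast; ring
      · have : (-a + 1 + e : ℤ) ≤ 0 := by omega
        exact_mod_cast this
  have hm0 : (0 : ℝ) ≤ ((min a (e + 1) : ℤ) : ℝ) := by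
    have : (0 : ℤ) ≤ min a (e + 1) := le_min ha (by omega)
    exact_mod_cast this
  have h3 : -(β * (X : ℝ)) ≤ s * ((min a (e + 1) : ℤ) : ℝ) := by
    nlinarith [mul_le_mul_of_nonneg_left hX' hβ, mul_nonneg (by linarith : (0 : ℝ) ≤ s + β) hm0]
  have h4 : s * |((-a + 1 + e : ℤ) : ℝ)| + 2 * (s * ((min a (e + 1) : ℤ) : ℝ)) =
      s * a + s * e + s := by
    have h5 : s * (|((-a + 1 + e : ℤ) : ℝ)| + 2 * ((min a (e + 1) : ℤ) : ℝ)) =
        s * ((a : ℝ) + e + 1) := by rw [key]
    linarith [h5]
  push_cast at h4 ⊢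
  push_cast at h3
  nlinarith [h3, h4]

theorem total_le (r β s : ℝ) (hs : -β ≤ s) (hβ : 0 ≤ β) :
    total r β s ≤ half r β s + ENNReal.ofReal (Real.exp s) * half r β s * half r β s := by
  classical
  set g : List Bool → ℝ≥0∞ := fun l => if (∀ p ∈ pos 0 l, 0 ≤ p) then hw r β s l else 0 with hg
  set G : List Bool ⊕ (List Bool × List Bool) → ℝ≥0∞ := fun p => match p with
    | Sum.inl m => g m
    | Sum.inr q => ENNReal.ofReal (Real.exp s) * g q.1 * g q.2 with hG
  set φ : List Bool ⊕ (List Bool × List Bool) → List Bool := fun p => match p with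
    | Sum.inl m => (m.map not).reverse
    | Sum.inr q => (q.1.map not).reverse ++ true :: q.2 with hφ
  have hsum : ∑' p, G p = half r β s + ENNReal.ofReal (Real.exp s) * half r β s * half r β s := by
    have h1 : HasSum (G ∘ Sum.inl) (∑' m, g m) := ENNReal.summable.hasSum
    have h2 : HasSum (G ∘ Sum.inr) (∑' q : List Bool × List Bool,
        ENNReal.ofReal (Real.exp s) * g q.1 * g q.2) := ENNReal.summable.hasSum
    rw [(h1.sum h2).tsum_eq]
    have h3 : (∑' q : List Bool × List Bool,
        ENNReal.ofReal (Real.exp s) * g q.1 * g q.2) =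
        ENNReal.ofReal (Real.exp s) * (∑' m, g m) * (∑' m, g m) := by
      rw [ENNReal.tsum_prod']
      simp_rw [ENNReal.tsum_mul_left, ENNReal.tsum_mul_right]
      rw [ENNReal.tsum_mul_left]
    rw [h3]
    rfl
  rw [← hsum]
  unfold total
  apply tsum_le_section _ _ φ
  intro l _
  -- the minimum
  obtain ⟨z, hz, hzmin⟩ : ∃ z ∈ pos 0 l, ∀ w ∈ pos 0 l, z ≤ w := by
    have hne : (pos 0 l).toFinset.Nonempty := ⟨0, List.mem_toFinset.2 (pos_basic 0 l).2.1⟩
    obtain ⟨z, hz, hm⟩ := Finset.exists_min_image (pos 0 l).toFinset id hne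
    exact ⟨z, List.mem_toFinset.1 hz, fun w hw => hm w (List.mem_toFinset.2 hw)⟩
  have hz0 : z ≤ 0 := hzmin 0 (pos_basic 0 l).2.1
  obtain ⟨l1, l2, hl, hend, hl2⟩ := last_visit 0 z l hz
  have hrev := pos_rev 0 l1
  rw [hend] at hrev
  set m1 := (l1.map not).reverse with hm1
  have hm1inv : (m1.map not).reverse = l1 := by
    rw [hm1]
    simp [List.map_reverse, Function.comp_def]
  have hm1len : m1.length = l1.length := by rw [hm1]; simp
  have hsh := pos_shift z (-z) m1
  have hzz : z + -z = 0 := by ring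
  rw [hzz, hrev.1, hrev.2] at hsh
  have hHH1 : HH (pos 0 m1) = HH (pos 0 l1) := by
    rw [hsh.1, HH_map _ _ (add_left_injective (-z)), HH_rev]
  have hsub1 : (∀ w ∈ pos 0 l1, z ≤ w) → ∀ p ∈ pos 0 m1, 0 ≤ p := by
    intro h p hp
    rw [hsh.1, List.mem_map] at hp
    obtain ⟨w, hw, rfl⟩ := hp
    have := h w (List.mem_reverse.1 hw)
    omega
  rcases hl2 with h0 | ⟨b, l3, hb, hnot⟩
  · subst h0
    rw [List.append_nil] at hl
    subst hl
    refine ⟨Sum.inl m1, hm1inv, ?_⟩
    show wt r β s l ≤ g m1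
    rw [hg]
    simp only
    rw [if_pos (hsub1 hzmin)]
    unfold wt hw
    apply ENNReal.ofReal_le_ofReal
    apply Real.exp_le_exp.2
    rw [hHH1, hm1len, hsh.2, hend, abs_of_nonpos (by exact_mod_cast hz0)]
    push_cast
    linarith
  · subst hb
    have happ := pos_append 0 l1 l3 b
    rw [← hl, hend] at happ
    have hbt : b = true := by
      cases b
      · exfalso
        have h1 := (pos_basic (z + stp false) l3).2.1
        have h2 : z + stp false ∈ pos 0 l := by
          rw [happ.1]
          exact List.mem_append_right _ h1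
        have h3 := hzmin _ h2
        simp [stp] at h3
      · rfl
    subst hbt
    have hst : stp true = 1 := rfl
    rw [hst] at happ hnot
    have hP2 : ∀ w ∈ pos (z + 1) l3, z + 1 ≤ w := by
      intro w hw
      have h1 : z ≤ w := hzmin w (by rw [happ.1]; exact List.mem_append_right _ hw)
      have h2 : w ≠ z := fun e => hnot (e ▸ hw)
      omega
    have hP1 : ∀ w ∈ pos 0 l1, z ≤ w := fun w hw =>
      hzmin w (by rw [happ.1]; exact List.mem_append_left _ hw)
    have hsh3 := pos_shift (z + 1) (-(z + 1)) l3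
    have hzz3 : (z + 1) + -(z + 1) = 0 := by ring
    rw [hzz3] at hsh3
    have hHH3 : HH (pos 0 l3) = HH (pos (z + 1) l3) := by
      rw [hsh3.1, HH_map _ _ (add_left_injective (-(z + 1)))]
    have hP3 : ∀ p ∈ pos 0 l3, 0 ≤ p := by
      intro p hp
      rw [hsh3.1, List.mem_map] at hp
      obtain ⟨w, hw, rfl⟩ := hp
      have := hP2 w hw
      omega
    set e := endp 0 l3 with he
    have hendl : endp (z + 1) l3 = z + 1 + e := by
      rw [hsh3.2]; ring
    have he0 : 0 ≤ e := hP3 e (pos_basic 0 l3).2.2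
    refine ⟨Sum.inr (m1, l3), ?_, ?_⟩
    · show (m1.map not).reverse ++ true :: l3 = l
      rw [hm1inv, hl]
    · show wt r β s l ≤ ENNReal.ofReal (Real.exp s) * g m1 * g l3
      rw [hg]
      simp only
      rw [if_pos (hsub1 hP1), if_pos hP3]
      unfold wt hw
      rw [← ENNReal.ofReal_mul (Real.exp_pos _).le, ← Real.exp_add,
        ← ENNReal.ofReal_mul (Real.exp_pos _).le, ← Real.exp_add]
      apply ENNReal.ofReal_le_ofReal
      apply Real.exp_le_exp.2
      have hX : min (-z) (e + 1) ≤ (XX (pos 0 l1) (pos (z + 1) l3) : ℤ) := by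
        have := XX_lower (pos 0 l1) (pos (z + 1) l3) (z + 1) (z + 1 + min (-z) (e + 1)) (by
          intro w hw1 hw2
          have hm1' := min_le_left (-z) (e + 1)
          have hm2' := min_le_right (-z) (e + 1)
          constructor
          · apply pos_covers
            right
            rw [hend]
            constructor <;> omega
          · apply pos_covers
            left
            rw [hendl]
            constructor <;> omega)
        omega
      have hHHl : HH (pos 0 l) = HH (pos 0 l1) + HH (pos (z + 1) l3) +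
          2 * XX (pos 0 l1) (pos (z + 1) l3) := by
        rw [happ.1, HH_append]
      have hlen : l.length = m1.length + 1 + l3.length := by
        rw [hl, hm1len]
        simp
        omega
      have hel : endp 0 l = -(-z) + 1 + e := by
        rw [happ.2, hendl]; ring
      have hem : endp 0 m1 = -z := by rw [hsh.2]; ring
      have hmain := aux_total_real r β s hs m1.length l3.length (HH (pos 0 l1))
        (HH (pos (z + 1) l3)) (XX (pos 0 l1) (pos (z + 1) l3)) (-z) e (by omega) he0 hX hβ
      rw [hHHl, hlen, hel, hem, hHH1, hHH3]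
      exact hmain

end SoftPoly
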