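import Pool.Agent.Helper839.SP.Defs
import Pool.Agent.Helper839.SP.P_half_ne_top
import Pool.Agent.Helper839.SP.P_total_le
import Pool.Agent.Helper839.SP.P_total_ge
import Pool.Agent.Helper839.SP.P_bridge_fin
import Pool.Agent.Helper839.SP.P_bridge_inf

set_option autoImplicit false

namespace SoftPoly
open scoped ENNReal BigOperators
open Filter Topology


theorem total_phase (r β s : ℝ) (hβ : 0 < β) (hs : -β ≤ s) :
    (r < Rinf (-s) β → total r β s ≠ ⊤) ∧ (Rinf (-s) β < r → total r β s = ⊤) := by
  constructor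
  · intro h
    have h1 : half r β s ≠ ⊤ := half_ne_top r β s hs hβ.le (bridge_fin r β s hβ h)
    have h2 := total_le r β s hs hβ.le
    intro h3
    rw [h3, top_le_iff] at h2
    exact ENNReal.add_ne_top.mpr
      ⟨h1, ENNReal.mul_ne_top (ENNReal.mul_ne_top ENNReal.ofReal_ne_top h1) h1⟩ h2
  · intro h
    have h1 := total_ge r β s
    rw [bridge_inf r β s hβ h, top_le_iff] at h1
    exact h1

end SoftPoly
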