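import Pool.Agent.Helper839.SP.Defs
import Pool.Agent.Helper839.SP.P_total_eq
import Pool.Agent.Helper839.SP.P_total_phase

set_option autoImplicit false

namespace SoftPoly
open scoped ENNReal BigOperators
open Filter Topology


theorem phase_compare (β s s' c : ℝ) (hβ : 0 < β) (hs : -β ≤ s) (hs' : -β ≤ s')
    (h : ∀ᶠ n : ℕ in atTop, Real.exp (c * n) * Zn n β s' ≤ 2 * Zn n β s) :
    Rinf (-s) β + c ≤ Rinf (-s') β := by
  by_contra hcon
  push Not at hcon
  obtain ⟨r, hr1, hr2⟩ := exists_between (show Rinf (-s') β - c < Rinf (-s) β by linarith)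
  have htop : total (r + c) β s' = ⊤ := (total_phase (r + c) β s' hβ hs').2 (by linarith)
  have hfin : total r β s ≠ ⊤ := (total_phase r β s hβ hs).1 hr2
  rw [total_eq] at htop hfin
  obtain ⟨N, hN⟩ := eventually_atTop.mp h
  have hle : ∀ n : ℕ, ENNReal.ofReal (Real.exp ((r + c) * ((n : ℝ) + 1)) * Zn n β s') ≤
      (if n ∈ Finset.range N then ENNReal.ofReal (Real.exp ((r + c) * ((n : ℝ) + 1)) * Zn n β s')
        else 0) +
      ENNReal.ofReal (2 * Real.exp c) * ENNReal.ofReal (Real.exp (r * ((n : ℝ) + 1)) * Zn n β s) := by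
    intro n
    by_cases hn : n ∈ Finset.range N
    · rw [if_pos hn]
      exact le_self_add
    · rw [if_neg hn, zero_add, ← ENNReal.ofReal_mul (by positivity)]
      apply ENNReal.ofReal_le_ofReal
      have h1 := hN n (by simpa using hn)
      have h2 : Real.exp ((r + c) * ((n : ℝ) + 1)) * Zn n β s' =
          (Real.exp (r * ((n : ℝ) + 1)) * Real.exp c) * (Real.exp (c * n) * Zn n β s') := by
        rw [← mul_assoc, ← Real.exp_add, ← Real.exp_add]
        congr 2
        ring
      rw [h2]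
      calc (Real.exp (r * ((n : ℝ) + 1)) * Real.exp c) * (Real.exp (c * n) * Zn n β s')
          ≤ (Real.exp (r * ((n : ℝ) + 1)) * Real.exp c) * (2 * Zn n β s) :=
            mul_le_mul_of_nonneg_left h1 (by positivity)
        _ = 2 * Real.exp c * (Real.exp (r * ((n : ℝ) + 1)) * Zn n β s) := by ring
  refine absurd htop (ne_top_of_le_ne_top ?_ (ENNReal.tsum_le_tsum hle))
  rw [ENNReal.tsum_add, ENNReal.tsum_mul_left]
  refine ENNReal.add_ne_top.mpr ⟨?_, ENNReal.mul_ne_top ENNReal.ofReal_ne_top hfin⟩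
  rw [tsum_eq_sum (s := Finset.range N) (fun b hb => if_neg hb)]
  refine ENNReal.sum_ne_top.mpr fun n hn => ?_
  rw [if_pos hn]
  exact ENNReal.ofReal_ne_top

end SoftPoly
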