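import Pool.Agent.Helper839.SP.Defs

set_option autoImplicit false

namespace SoftPoly
open scoped ENNReal BigOperators
open Filter Topology


theorem j17761_good (n : ℕ) (β s c : ℝ) (G : Finset (Fin n → Bool))
    (hG : ∀ ω ∈ G, c ≤ s * |Sn n ω|) :
    Real.exp c * ∑ ω ∈ G, Real.exp (-β * (Hn n ω : ℝ)) ≤ Zn n β s := by
  unfold Zn
  rw [Finset.mul_sum]
  calc ∑ ω ∈ G, Real.exp c * Real.exp (-β * (Hn n ω : ℝ)) ≤
      ∑ ω ∈ G, Real.exp (-β * (Hn n ω : ℝ) + s * |Sn n ω|) := by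
        refine Finset.sum_le_sum fun ω hω => ?_
        rw [← Real.exp_add]
        apply Real.exp_le_exp.2
        have := hG ω hω
        linarith
    _ ≤ _ := Finset.sum_le_sum_of_subset_of_nonneg (Finset.subset_univ _)
        (fun _ _ _ => (Real.exp_pos _).le)

theorem speed_bounds (β θ s ε : ℝ) (hs : 0 ≤ s) (hε : 0 < ε) (h : Speed β θ) :
    ∀ᶠ n : ℕ in atTop,
      Real.exp (s * (θ - ε) * n) * Zn n β 0 ≤ 2 * Zn n β s ∧
      Real.exp (-(s * (θ + ε) * n)) * Zn n β 0 ≤ 2 * Zn n β (-s) := by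
  have h1 := (h ε hε).eventually (gt_mem_nhds (by norm_num : (0 : ℝ) < 1 / 2))
  filter_upwards [h1, eventually_ge_atTop 1] with n hn hn1
  set T : ℝ := ∑ ω : Fin n → Bool, Real.exp (-β * (Hn n ω : ℝ)) with hT
  have hT0 : 0 < T := Finset.sum_pos (fun _ _ => Real.exp_pos _) Finset.univ_nonempty
  have hZ : Zn n β 0 = T := by
    unfold Zn
    simp [hT]
  set G : Finset (Fin n → Bool) :=
    Finset.univ.filter (fun ω : Fin n → Bool => ¬ ε < |(|Sn n ω| / (n:ℝ)) - θ|) with hG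
  have hsum := Finset.sum_filter_add_sum_filter_not Finset.univ
    (fun ω : Fin n → Bool => ε < |(|Sn n ω| / (n:ℝ)) - θ|)
    (fun ω : Fin n → Bool => Real.exp (-β * (Hn n ω : ℝ)))
  rw [div_lt_iff₀ hT0] at hn
  have hgood : T ≤ 2 * ∑ ω ∈ G, Real.exp (-β * (Hn n ω : ℝ)) := by
    rw [← hT, ← hG] at hsum
    linarith
  have hn0 : (0 : ℝ) < n := by exact_mod_cast hn1
  have hb : ∀ ω ∈ G, (θ - ε) * n ≤ |Sn n ω| ∧ |Sn n ω| ≤ (θ + ε) * n := by
    intro ω hω
    have h2 : |(|Sn n ω| / (n:ℝ)) - θ| ≤ ε := not_lt.1 (Finset.mem_filter.1 hω).2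
    rw [abs_le] at h2
    constructor
    · rw [← le_div_iff₀ hn0]; linarith
    · rw [← div_le_iff₀ hn0]; linarith
  rw [hZ]
  constructor
  · have h3 := j17761_good n β s (s * (θ - ε) * n) G (fun ω hω => by
      have := mul_le_mul_of_nonneg_left (hb ω hω).1 hs
      linarith)
    have h4 := mul_le_mul_of_nonneg_left hgood (Real.exp_pos (s * (θ - ε) * n)).le
    linarith
  · have h3 := j17761_good n β (-s) (-(s * (θ + ε) * n)) G (fun ω hω => by
      have := mul_le_mul_of_nonneg_left (hb ω hω).2 hs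
      linarith)
    have h4 := mul_le_mul_of_nonneg_left hgood (Real.exp_pos (-(s * (θ + ε) * n))).le
    linarith

end SoftPoly
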