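import Pool.Agent.Helper839.SP.Defs
import Pool.Agent.Helper839.SP.P_speed_bounds
import Pool.Agent.Helper839.SP.P_phase_compare

set_option autoImplicit false

namespace SoftPoly
open scoped ENNReal BigOperators
open Filter Topology


theorem speed_R (β θ s : ℝ) (hβ : 0 < β) (hs : 0 < s) (hsβ : s ≤ β) (h : Speed β θ) :
    s * θ ≤ Rinf 0 β - Rinf (-s) β ∧ -(s * θ) ≤ Rinf 0 β - Rinf s β := by
  have key : ∀ ε : ℝ, 0 < ε → Rinf (-s) β + s * (θ - ε) ≤ Rinf 0 β ∧
      Rinf s β + -(s * (θ + ε)) ≤ Rinf 0 β := by
    intro ε hε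
    have hb := speed_bounds β θ s ε hs.le hε h
    constructor
    · have h1 := phase_compare β s 0 (s * (θ - ε)) hβ (by linarith) (by linarith)
        (hb.mono fun n hn => hn.1)
      rwa [neg_zero] at h1
    · have h1 := phase_compare β (-s) 0 (-(s * (θ + ε))) hβ (by linarith) (by linarith)
        (hb.mono fun n hn => by
          have e : -(s * (θ + ε)) * (n : ℝ) = -(s * (θ + ε) * n) := by ring
          rw [e]
          exact hn.2)
      rwa [neg_zero, neg_neg] at h1
  constructor
  · refine le_of_forall_pos_le_add fun δ hδ => ?_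
    have h1 := (key (δ / s) (by positivity)).1
    have h2 : s * (θ - δ / s) = s * θ - δ := by field_simp
    rw [h2] at h1
    linarith
  · refine le_of_forall_pos_le_add fun δ hδ => ?_
    have h1 := (key (δ / s) (by positivity)).2
    have h2 : s * (θ + δ / s) = s * θ + δ := by field_simp
    rw [h2] at h1
    linarith

end SoftPoly
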