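import Pool.Agent.Helper839.SP.Defs
import Pool.Agent.Helper839.SP.P_Rinf_cross
import Pool.Agent.Helper839.SP.P_Rinf_quad
import Pool.Agent.Helper839.SP.P_speed_R

set_option autoImplicit false

namespace SoftPoly
open scoped ENNReal BigOperators
open Filter Topology


theorem link (hC : ∀ β : ℝ, 0 < β → ∃ C, Core β C) (β1 β2 θ1 θ2 : ℝ) (h1 : 0 < β1)
    (h12 : β1 < β2) (hs1 : Speed β1 θ1) (hs2 : Speed β2 θ2) : θ1 ≤ θ2 := by
  obtain ⟨C, hC2⟩ := hC β2 (h1.trans h12)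
  obtain ⟨D, hD⟩ := Rinf_quad β2 C (h1.trans h12) hC2
  by_contra hlt
  rw [not_le] at hlt
  set g : ℝ := (θ1 - θ2) / (2 * (|D| + 1)) with hg
  have hD0 : 0 < 2 * (|D| + 1) := by positivity
  have hg0 : 0 < g := div_pos (by linarith) hD0
  set s : ℝ := min (min β1 (1 / 2)) g with hs
  have hs0 : 0 < s := lt_min (lt_min h1 (by norm_num)) hg0
  have hsb1 : s ≤ β1 := (min_le_left _ _).trans (min_le_left _ _)
  have hsh : s ≤ 1 / 2 := (min_le_left _ _).trans (min_le_right _ _)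
  have hsg : s ≤ g := min_le_right _ _
  have e1 := (speed_R β1 θ1 s h1 hs0 hsb1 hs1).1
  have e2 := (speed_R β2 θ2 s (h1.trans h12) hs0 (hsb1.trans h12.le) hs2).2
  have e3 := Rinf_cross (-s) 0 β1 β2 (by linarith) h1 h12.le hC
  have e4 := hD s hs0 hsh
  have e5 : s * (θ1 - θ2) ≤ D * s ^ 2 := by linarith
  have e6 : θ1 - θ2 ≤ D * s := by
    have : s * (θ1 - θ2) ≤ s * (D * s) := by linarith [e5, show s * (D * s) = D * s ^ 2 by ring]
    exact le_of_mul_le_mul_left this hs0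
  have e7 : D * s ≤ |D| * g :=
    (mul_le_mul_of_nonneg_right (le_abs_self D) hs0.le).trans
      (mul_le_mul_of_nonneg_left hsg (abs_nonneg D))
  have e8 : g * (2 * (|D| + 1)) = θ1 - θ2 := div_mul_cancel₀ _ hD0.ne'
  nlinarith [abs_nonneg D, mul_nonneg (abs_nonneg D) hg0.le]

end SoftPoly
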